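import Mathlib

set_option autoImplicit false
open MeasureTheory Filter Topology Metric Set

namespace Pool.Agent.R223.Sem

theorem contDiff_deriv_cont {F : ℝ → ℝ} (h : ContDiff ℝ 1 F) : Continuous (deriv F) :=
  h.continuous_deriv (by norm_num)

theorem int_deriv_zero {F : ℝ → ℝ} (h : ContDiff ℝ 1 F) (hc : HasCompactSupport F) :
    ∫ x, deriv F x = 0 := by
  have h1 := HasCompactSupport.integral_Iic_deriv_eq h hc 0
  have h2 := HasCompactSupport.integral_Ioi_deriv_eq h hc 0
  have hint : Integrable (deriv F) := (contDiff_deriv_cont h).integrable_of_hasCompactSupport hc.deriv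
  rw [← intervalIntegral.integral_Iic_add_Ioi (b := (0:ℝ)) hint.integrableOn hint.integrableOn, h1, h2]
  ring

theorem contDiff_of_local {F : ℝ → ℝ} {K : Set ℝ} (hK : IsClosed K) (h0 : ∀ x, x ∉ K → F x = 0)
    (h : ∀ x ∈ K, ContDiffAt ℝ 1 F x) : ContDiff ℝ 1 F := by
  rw [contDiff_iff_contDiffAt]
  intro x
  by_cases hx : x ∈ K
  · exact h x hx
  · have : F =ᶠ[𝓝 x] fun _ => 0 := by
      filter_upwards [hK.isOpen_compl.mem_nhds hx] with y hy using h0 y hy
    exact contDiffAt_const.congr_of_eventuallyEq this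

theorem cs_sq {α : Type*} [TopologicalSpace α] {f : α → ℝ} (hc : HasCompactSupport f) :
    HasCompactSupport (fun x => f x ^ 2) :=
  hc.comp_left (g := fun t : ℝ => t ^ 2) (by norm_num)

theorem int_sq {f : ℝ → ℝ} (hf : Continuous f) (hc : HasCompactSupport f) :
    Integrable (fun x => f x ^ 2) :=
  Continuous.integrable_of_hasCompactSupport (f := fun x => f x ^ 2) (hf.pow 2) (cs_sq hc)

/-- sharp Wirtinger inequality on `(-1,1)` -/
theorem wirtinger (v : ℝ → ℝ) (hv : ContDiff ℝ 1 v) (hc : HasCompactSupport v)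
    (hs : tsupport v ⊆ Ioo (-1) 1) : (Real.pi ^ 2 / 4) * ∫ x, v x ^ 2 ≤ ∫ x, deriv v x ^ 2 := by
  set T : ℝ → ℝ := fun x => (Real.pi / 2) * Real.tan (Real.pi / 2 * x) with hT
  have hcos : ∀ x ∈ Ioo (-1:ℝ) 1, Real.cos (Real.pi / 2 * x) ≠ 0 := by
    intro x hx
    refine (Real.cos_pos_of_mem_Ioo ⟨?_, ?_⟩).ne'
    · nlinarith [Real.pi_pos, hx.1]
    · nlinarith [Real.pi_pos, hx.2]
  have hTd : ∀ x ∈ Ioo (-1:ℝ) 1, HasDerivAt T (Real.pi ^ 2 / 4 + T x ^ 2) x := by
    intro x hx
    have h1 := (Real.hasDerivAt_tan (hcos x hx)).comp x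
      ((hasDerivAt_id x).const_mul (Real.pi / 2))
    have h2 := h1.const_mul (Real.pi / 2)
    refine h2.congr_deriv ?_
    simp only [hT, id_eq, mul_one]
    rw [Real.tan_eq_sin_div_cos]
    have h3 := hcos x hx
    have h4 := Real.sin_sq_add_cos_sq (Real.pi / 2 * x)
    generalize Real.cos (Real.pi / 2 * x) = cc at h3 h4 ⊢
    generalize Real.sin (Real.pi / 2 * x) = ss at h4 ⊢
    have h5 : (1:ℝ) / cc ^ 2 = 1 + (ss / cc) ^ 2 := by
      field_simp
      linarith
    rw [h5]; ring
  have hTc : ∀ x ∈ Ioo (-1:ℝ) 1, ContDiffAt ℝ 1 T x := by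
    intro x hx
    have := (Real.contDiffAt_tan (n := 1)).2 (hcos x hx)
    exact contDiffAt_const.mul (this.comp x (contDiffAt_const.mul contDiffAt_id))
  set F : ℝ → ℝ := fun x => v x ^ 2 * T x with hF
  have hF0 : ∀ x, x ∉ tsupport v → F x = 0 := by
    intro x hx
    simp [hF, image_eq_zero_of_notMem_tsupport hx]
  have hFc : ContDiff ℝ 1 F := by
    refine contDiff_of_local (isClosed_tsupport v) hF0 ?_
    intro x hx
    exact (hv.contDiffAt.pow 2).mul (hTc x (hs hx))
  have hFs : HasCompactSupport F := HasCompactSupport.intro hc hF0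
  have hz := int_deriv_zero hFc hFs
  have hdv : ∀ x, HasDerivAt v (deriv v x) x := fun x => (hv.differentiable (by norm_num) x).hasDerivAt
  have hi1 : Integrable (fun x => v x ^ 2) := int_sq hv.continuous hc
  have hi2 : Integrable (fun x => deriv v x ^ 2) := int_sq (contDiff_deriv_cont hv) hc.deriv
  have hi3 : Integrable (deriv F) := (contDiff_deriv_cont hFc).integrable_of_hasCompactSupport hFs.deriv
  have hpt : ∀ x, (Real.pi ^ 2 / 4) * v x ^ 2 - deriv F x ≤ deriv v x ^ 2 := by
    intro x
    by_cases hx : x ∈ tsupport v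
    · have h1 : HasDerivAt F (2 * v x * deriv v x * T x + v x ^ 2 * (Real.pi ^ 2 / 4 + T x ^ 2)) x := by
        have := ((hdv x).pow 2).mul (hTd x (hs hx))
        refine this.congr_deriv ?_
        simp only [Nat.cast_ofNat, Nat.add_one_sub_one, pow_one, Pi.pow_apply]
      rw [h1.deriv]
      generalize T x = tt
      generalize deriv v x = dd
      generalize v x = vv
      have := sq_nonneg (dd + vv * tt)
      have e : Real.pi ^ 2 / 4 * vv ^ 2 - (2 * vv * dd * tt + vv ^ 2 * (Real.pi ^ 2 / 4 + tt ^ 2)) =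
        dd ^ 2 - (dd + vv * tt) ^ 2 := by ring
      rw [e]; linarith
    · have h1 : v x = 0 := image_eq_zero_of_notMem_tsupport hx
      have h2 : deriv F x = 0 := by
        have : F =ᶠ[𝓝 x] fun _ => 0 := by
          filter_upwards [(isClosed_tsupport v).isOpen_compl.mem_nhds hx] with y hy using hF0 y hy
        rw [this.deriv_eq]; simp
      rw [h1, h2]
      nlinarith [sq_nonneg (deriv v x)]
  have h9 : ∫ x, ((Real.pi ^ 2 / 4) * v x ^ 2 - deriv F x) ≤ ∫ x, deriv v x ^ 2 :=
    integral_mono ((hi1.const_mul (Real.pi ^ 2 / 4)).sub hi3) hi2 hpt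
  rw [integral_sub (hi1.const_mul _) hi3, hz, integral_const_mul] at h9
  linarith

/-- from the family of Young inequalities to Cauchy-Schwarz -/
theorem young_to_cs {A B C : ℝ} (hA : 0 ≤ A) (hB : 0 ≤ B) (hC : 0 ≤ C)
    (h : ∀ s : ℝ, 0 < s → A ≤ (s / 2) * B + C / (2 * s)) : A ^ 2 ≤ B * C := by
  rcases hA.eq_or_lt with rfl | hA
  · have := mul_nonneg hB hC
    simpa using this
  rcases hB.eq_or_lt with rfl | hB
  · exfalso
    have := h ((C + 1) / A) (by positivity)
    have h2 : C / (2 * ((C + 1) / A)) < A := by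
      rw [div_lt_iff₀ (by positivity)]
      field_simp
      nlinarith
    linarith
  · have := h (A / B) (by positivity)
    have h2 : A / B / 2 * B = A / 2 := by field_simp
    rw [h2] at this
    have h3 : A / 2 ≤ C / (2 * (A / B)) := by linarith
    rw [le_div_iff₀ (by positivity)] at h3
    have h4 : A / 2 * (2 * (A / B)) = A ^ 2 / B := by field_simp
    rw [h4, div_le_iff₀ hB] at h3
    linarith

theorem dual_bound {α : Type*} [MeasurableSpace α] (μ : Measure α) (R : Set α) (hR : MeasurableSet R)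
    (S G q : α → ℝ) (hS0 : ∀ z, z ∉ R → S z = 0) (hq : ∀ z, 0 ≤ q z) (hG : ∀ z ∈ R, 0 ≤ G z)
    (hb : ∀ z ∈ R, S z ^ 2 ≤ G z * q z) (hGi : IntegrableOn G R μ) (hqi : Integrable q μ) :
    (∫ z, S z ∂μ) ^ 2 ≤ (∫ z in R, G z ∂μ) * ∫ z, q z ∂μ := by
  rw [← sq_abs]
  refine young_to_cs (abs_nonneg _) (setIntegral_nonneg hR hG) (integral_nonneg hq) ?_
  intro s hs
  have hpt : ∀ z, |S z| ≤ (s / 2) * R.indicator G z + q z / (2 * s) := by
    intro z
    by_cases hz : z ∈ R
    · rw [indicator_of_mem hz]
      refine abs_le_of_sq_le_sq ?_ (by have := hG z hz; have := hq z; positivity)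
      refine (hb z hz).trans ?_
      have h1 : ((s / 2) * G z + q z / (2 * s)) ^ 2 - G z * q z = ((s / 2) * G z - q z / (2 * s)) ^ 2 := by
        generalize G z = g
        generalize q z = r
        field_simp; ring
      have h2 := sq_nonneg ((s / 2) * G z - q z / (2 * s))
      linarith
    · rw [indicator_of_notMem hz, hS0 z hz]
      have := hq z
      simp only [abs_zero, mul_zero, zero_add]
      positivity
  have hi : Integrable (fun z => (s / 2) * R.indicator G z + q z / (2 * s)) μ :=
    ((hGi.integrable_indicator hR).const_mul _).add (hqi.div_const _)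
  calc |∫ z, S z ∂μ| ≤ ∫ z, |S z| ∂μ := abs_integral_le_integral_abs
    _ ≤ ∫ z, ((s / 2) * R.indicator G z + q z / (2 * s)) ∂μ :=
        integral_mono_of_nonneg (Eventually.of_forall fun z => abs_nonneg _) hi
          (Eventually.of_forall hpt)
    _ = _ := by
        rw [integral_add ((hGi.integrable_indicator hR).const_mul _) (hqi.div_const _),
          integral_const_mul, integral_indicator hR, integral_div]

/-- `∫ (ψ v)' = 0` -/
theorem slice_zero (v : ℝ → ℝ) (hv : ContDiff ℝ 1 v) (hc : HasCompactSupport v) :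
    (∫ x, deriv v x = 0) ∧ (∫ x, (v x + x * deriv v x) = 0) := by
  refine ⟨int_deriv_zero hv hc, ?_⟩
  have h1 : ContDiff ℝ 1 (fun x => x * v x) := contDiff_id.mul hv
  have h2 : HasCompactSupport (fun x => x * v x) := hc.mul_left
  have h3 := int_deriv_zero h1 h2
  rw [← h3]
  congr 1
  funext x
  have := ((hasDerivAt_id x).mul (hv.differentiable (by norm_num) x).hasDerivAt).deriv
  have e : (fun x => x * v x) = (id * v) := rfl
  rw [e, this]
  simp

theorem half_zero (v : ℝ → ℝ) (hv : ContDiff ℝ 1 v) (hc : HasCompactSupport v) (a : ℝ) :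
    ∫ x in Ioi a, (v x + (x - a) * deriv v x) = 0 := by
  have h1 : ContDiff ℝ 1 (fun x => (x - a) * v x) := (contDiff_id.sub contDiff_const).mul hv
  have h2 : HasCompactSupport (fun x => (x - a) * v x) := hc.mul_left
  have h3 := HasCompactSupport.integral_Ioi_deriv_eq h1 h2 a
  simp only [sub_self, zero_mul, neg_zero] at h3
  rw [← h3]
  congr 1
  funext x
  have := (((hasDerivAt_id x).sub_const a).mul (hv.differentiable (by norm_num) x).hasDerivAt).deriv
  have e : (fun x => (x - a) * v x) = ((fun x => id x - a) * v) := rfl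
  rw [e, this]
  simp

/-- if `v` vanishes at `x₀ ∈ [0,1/3]`, its mean is controlled with a better constant. -/
theorem pinned (v : ℝ → ℝ) (hv : ContDiff ℝ 1 v) (hc : HasCompactSupport v)
    (hs : tsupport v ⊆ Ioo (-1) 1) (x0 : ℝ) (h0 : 0 ≤ x0) (h1 : x0 ≤ 1 / 3) (hz : v x0 = 0) :
    (∫ x, v x) ^ 2 ≤ (2 / 9) * ∫ x, deriv v x ^ 2 := by
  set w : ℝ → ℝ := fun x => if x ≤ x0 then x - (x0 - 1) / 2 else x - (x0 + 1) / 2 with hw
  have hvi : Integrable v := hv.continuous.integrable_of_hasCompactSupport hc
  have hdi : Integrable (deriv v) := (contDiff_deriv_cont hv).integrable_of_hasCompactSupport hc.deriv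
  have hxi : Integrable (fun x => x * deriv v x) :=
    (continuous_id.mul (contDiff_deriv_cont hv)).integrable_of_hasCompactSupport hc.deriv.mul_left
  have key : ∀ c : ℝ, (∫ x in Ioi x0, (v x + (x - c) * deriv v x) = 0) ∧
      (∫ x in Iic x0, (v x + (x - c) * deriv v x) = 0) := by
    intro c
    have g1 : ContDiff ℝ 1 (fun x => (x - c) * v x) := (contDiff_id.sub contDiff_const).mul hv
    have g2 : HasCompactSupport (fun x => (x - c) * v x) := hc.mul_left
    have g3 := HasCompactSupport.integral_Ioi_deriv_eq g1 g2 x0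
    have g4 := HasCompactSupport.integral_Iic_deriv_eq g1 g2 x0
    rw [hz] at g3 g4
    have e1 : deriv (fun x => (x - c) * v x) = fun x => v x + (x - c) * deriv v x := by
      funext x
      have := (((hasDerivAt_id x).sub_const c).mul (hv.differentiable (by norm_num) x).hasDerivAt).deriv
      have e : (fun x => (x - c) * v x) = ((fun x => id x - c) * v) := rfl
      rw [e, this]
      simp
    rw [e1] at g3 g4
    simp only [mul_zero, neg_zero] at g3 g4
    exact ⟨g3, g4⟩
  have hwm : Measurable w := by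
    refine Measurable.ite measurableSet_Iic ?_ ?_ <;> fun_prop
  have hA1 : IntegrableOn (fun x => w x * deriv v x) (Iic x0) := by
    have : IntegrableOn (fun x => x * deriv v x - (x0 - 1) / 2 * deriv v x) (Iic x0) :=
      (hxi.sub (hdi.const_mul _)).integrableOn
    refine this.congr_fun ?_ measurableSet_Iic
    intro x hx
    simp only [hw, if_pos (mem_Iic.1 hx)]
    ring
  have hA2 : IntegrableOn (fun x => w x * deriv v x) (Ioi x0) := by
    have : IntegrableOn (fun x => x * deriv v x - (x0 + 1) / 2 * deriv v x) (Ioi x0) :=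
      (hxi.sub (hdi.const_mul _)).integrableOn
    refine this.congr_fun ?_ measurableSet_Ioi
    intro x hx
    simp only [hw, if_neg (not_le.2 (mem_Ioi.1 hx))]
    ring
  have hsum : ∫ x, v x = ∫ x, -(w x * deriv v x) := by
    have hA : Integrable (fun x => w x * deriv v x) := by
      have := hA1.union hA2
      rwa [Iic_union_Ioi, integrableOn_univ] at this
    rw [← intervalIntegral.integral_Iic_add_Ioi (b := x0) hvi.integrableOn hvi.integrableOn,
      integral_neg, ← intervalIntegral.integral_Iic_add_Ioi (b := x0) hA1 hA2]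
    have e1 : ∫ x in Iic x0, v x = - ∫ x in Iic x0, w x * deriv v x := by
      have h2 := (key ((x0 - 1) / 2)).2
      have h3 : ∫ x in Iic x0, (v x + (x - (x0 - 1) / 2) * deriv v x) =
          (∫ x in Iic x0, v x) + ∫ x in Iic x0, w x * deriv v x := by
        rw [← integral_add hvi.integrableOn hA1]
        refine setIntegral_congr_fun measurableSet_Iic ?_
        intro x hx
        simp only [hw, if_pos (mem_Iic.1 hx)]
      linarith
    have e2 : ∫ x in Ioi x0, v x = - ∫ x in Ioi x0, w x * deriv v x := by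
      have h2 := (key ((x0 + 1) / 2)).1
      have h3 : ∫ x in Ioi x0, (v x + (x - (x0 + 1) / 2) * deriv v x) =
          (∫ x in Ioi x0, v x) + ∫ x in Ioi x0, w x * deriv v x := by
        rw [← integral_add hvi.integrableOn hA2]
        refine setIntegral_congr_fun measurableSet_Ioi ?_
        intro x hx
        simp only [hw, if_neg (not_le.2 (mem_Ioi.1 hx))]
      linarith
    rw [e1, e2]; ring
  rw [hsum]
  have hw2i : IntegrableOn (fun x => w x ^ 2) (Icc (-1) 1) := by
    refine Measure.integrableOn_of_bounded (M := 16) (by simp) (hwm.pow_const 2).aestronglyMeasurable ?_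
    filter_upwards [ae_restrict_mem measurableSet_Icc] with x hx
    have : |w x| ≤ 4 := by
      simp only [hw]
      split_ifs <;> rw [abs_le] <;> constructor <;> linarith [hx.1, hx.2]
    rw [Real.norm_eq_abs, abs_pow]
    nlinarith [abs_nonneg (w x)]
  have hdb := dual_bound volume (Icc (-1:ℝ) 1) measurableSet_Icc (fun x => -(w x * deriv v x))
    (fun x => w x ^ 2) (fun x => deriv v x ^ 2) (by
      intro x hx
      have h2 : x ∉ tsupport (deriv v) := by
        intro h
        have := hs (tsupport_deriv_subset h)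
        exact hx (Ioo_subset_Icc_self this)
      simp [image_eq_zero_of_notMem_tsupport h2]) (fun x => sq_nonneg _) (fun x _ => sq_nonneg _)
    (fun x _ => by
      have e : (-(w x * deriv v x)) ^ 2 = w x ^ 2 * deriv v x ^ 2 := by ring
      exact e.le) hw2i
    (int_sq (contDiff_deriv_cont hv) hc.deriv)
  refine hdb.trans ?_
  refine mul_le_mul_of_nonneg_right ?_ (integral_nonneg fun x => sq_nonneg _)
  -- compute the integral
  have hsplit : ∫ x in Icc (-1:ℝ) 1, w x ^ 2 = (∫ x in (-1:ℝ)..x0, (x - (x0 - 1) / 2) ^ 2) +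
      ∫ x in x0..1, (x - (x0 + 1) / 2) ^ 2 := by
    rw [integral_Icc_eq_integral_Ioc, ← intervalIntegral.integral_of_le (by norm_num)]
    have i1 : IntervalIntegrable (fun x => w x ^ 2) volume (-1) x0 := by
      rw [intervalIntegrable_iff_integrableOn_Icc_of_le (by linarith)]
      exact hw2i.mono_set (Icc_subset_Icc_right (by linarith))
    have i2 : IntervalIntegrable (fun x => w x ^ 2) volume x0 1 := by
      rw [intervalIntegrable_iff_integrableOn_Icc_of_le (by linarith)]
      exact hw2i.mono_set (Icc_subset_Icc_left (by linarith))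
    rw [← intervalIntegral.integral_add_adjacent_intervals i1 i2]
    congr 1
    · refine intervalIntegral.integral_congr ?_
      intro x hx
      rw [uIcc_of_le (by linarith)] at hx
      simp only [hw, if_pos hx.2]
    · rw [intervalIntegral.integral_of_le (by linarith), intervalIntegral.integral_of_le (by linarith)]
      refine setIntegral_congr_fun measurableSet_Ioc ?_
      intro x hx
      simp only [hw, if_neg (not_le.2 hx.1)]
  rw [hsplit]
  have c1 : ∫ x in (-1:ℝ)..x0, (x - (x0 - 1) / 2) ^ 2 = (x0 + 1) ^ 3 / 12 := by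
    rw [intervalIntegral.integral_comp_sub_right (fun x => x ^ 2) ((x0 - 1) / 2), integral_pow]
    ring
  have c2 : ∫ x in x0..1, (x - (x0 + 1) / 2) ^ 2 = (1 - x0) ^ 3 / 12 := by
    rw [intervalIntegral.integral_comp_sub_right (fun x => x ^ 2) ((x0 + 1) / 2), integral_pow]
    ring
  rw [c1, c2]
  nlinarith

end Pool.Agent.R223.Sem
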