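import Mathlib
import Pool.Agent.R223.Sem.OneD

set_option autoImplicit false
open MeasureTheory Filter Topology Metric Set

namespace Pool.Agent.R223.Sem


theorem St_deriv_zero (t : ℝ) (ht : t ≤ 0 ∨ 1 ≤ t) : deriv Real.smoothTransition t = 0 := by
  have hc : Continuous (deriv Real.smoothTransition) := (Real.smoothTransition.contDiff (n := 1)).continuous_deriv (by norm_num)
  have h0 : ∀ t : ℝ, t < 0 → deriv Real.smoothTransition t = 0 := by
    intro t ht
    have : Real.smoothTransition =ᶠ[𝓝 t] fun _ => 0 := by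
      filter_upwards [Iio_mem_nhds ht] with y hy using Real.smoothTransition.zero_of_nonpos (le_of_lt hy)
    rw [this.deriv_eq]; simp
  have h1 : ∀ t : ℝ, 1 < t → deriv Real.smoothTransition t = 0 := by
    intro t ht
    have : Real.smoothTransition =ᶠ[𝓝 t] fun _ => 1 := by
      filter_upwards [Ioi_mem_nhds ht] with y hy using Real.smoothTransition.one_of_one_le (le_of_lt hy)
    rw [this.deriv_eq]; simp
  have hcl : IsClosed {t : ℝ | deriv Real.smoothTransition t = 0} := isClosed_eq hc continuous_const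
  rcases ht with ht | ht
  · have : Iic (0:ℝ) ⊆ {t : ℝ | deriv Real.smoothTransition t = 0} := by
      rw [← closure_Iio]
      exact hcl.closure_subset_iff.2 fun t ht => h0 t ht
    exact this ht
  · have : Ici (1:ℝ) ⊆ {t : ℝ | deriv Real.smoothTransition t = 0} := by
      rw [← closure_Ioi]
      exact hcl.closure_subset_iff.2 fun t ht => h1 t ht
    exact this ht

theorem St_deriv_bound : ∃ M : ℝ, 0 ≤ M ∧ ∀ t : ℝ, |deriv Real.smoothTransition t| ≤ M := by
  have hc : Continuous (deriv Real.smoothTransition) := (Real.smoothTransition.contDiff (n := 1)).continuous_deriv (by norm_num)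
  obtain ⟨M, hM⟩ := (isCompact_Icc (a := (0:ℝ)) (b := 1)).exists_bound_of_continuousOn hc.continuousOn
  refine ⟨max M 0, le_max_right _ _, fun t => ?_⟩
  by_cases ht : t ∈ Icc (0:ℝ) 1
  · exact (hM t ht).trans (le_max_left _ _)
  · rw [St_deriv_zero t ?_]
    · simp
    · by_contra h
      push Not at h
      exact ht ⟨h.1.le, h.2.le⟩

/-- the truncated function -/
noncomputable def trunc (g : ℝ → ℝ) (n : ℕ) (x : ℝ) : ℝ := g x * Real.smoothTransition ((1 - x ^ 2) * (n + 1) - 1)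

theorem trunc_smooth (g : ℝ → ℝ) (hg : ContDiff ℝ (⊤ : ℕ∞) g) (n : ℕ) : ContDiff ℝ (⊤ : ℕ∞) (trunc g n) := by
  unfold trunc
  refine hg.mul (Real.smoothTransition.contDiff.comp ?_)
  fun_prop

theorem trunc_zero (g : ℝ → ℝ) (n : ℕ) (x : ℝ) (hx : 1 ≤ (x ^ 2) + 1 / (n + 1)) : trunc g n x = 0 := by
  unfold trunc
  rw [Real.smoothTransition.zero_of_nonpos, mul_zero]
  have h : (0:ℝ) < n + 1 := by positivity
  have h2 : (1 - x ^ 2) ≤ 1 / (n + 1) := by linarith
  have h3 := mul_le_mul_of_nonneg_right h2 h.le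
  rw [one_div, inv_mul_cancel₀ h.ne'] at h3
  linarith

theorem trunc_tsupport (g : ℝ → ℝ) (n : ℕ) : tsupport (trunc g n) ⊆ {x : ℝ | x ^ 2 + 1 / (n + 1) ≤ 1} := by
  refine closure_minimal ?_ (isClosed_le (by fun_prop) continuous_const)
  intro x hx
  by_contra h
  simp only [mem_ofPred_eq, not_le] at h
  exact hx (trunc_zero g n x h.le)

theorem trunc_tsupport' (g : ℝ → ℝ) (n : ℕ) : tsupport (trunc g n) ⊆ Ioo (-1) 1 := by
  intro x hx
  have := trunc_tsupport g n hx
  simp only [mem_ofPred_eq] at this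
  have h : (0:ℝ) < 1 / (n + 1) := by positivity
  constructor <;> nlinarith

theorem trunc_compact (g : ℝ → ℝ) (n : ℕ) : HasCompactSupport (trunc g n) := by
  refine HasCompactSupport.of_support_subset_isCompact (isCompact_Icc (a := (-1:ℝ)) (b := 1)) ?_
  intro x hx
  exact Ioo_subset_Icc_self (trunc_tsupport' g n (subset_tsupport _ hx))

theorem theta_large (x : ℝ) (hx : x ∈ Ioo (-1:ℝ) 1) : ∀ᶠ n : ℕ in atTop, 1 ≤ (1 - x ^ 2) * (n + 1) - 1 := by
  have h1 : 0 < 1 - x ^ 2 := by nlinarith [hx.1, hx.2]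
  have : Tendsto (fun n : ℕ => (1 - x ^ 2) * ((n:ℝ) + 1) - 1) atTop atTop := by
    refine tendsto_atTop_add_const_right _ _ ?_
    exact ((tendsto_natCast_atTop_atTop (R := ℝ)).atTop_add tendsto_const_nhds).const_mul_atTop h1
  exact this.eventually_ge_atTop 1

theorem trunc_lim (g : ℝ → ℝ) (x : ℝ) :
    Tendsto (fun n => trunc g n x) atTop (𝓝 ((Ioo (-1:ℝ) 1).indicator g x)) := by
  by_cases hx : x ∈ Ioo (-1:ℝ) 1
  · rw [indicator_of_mem hx]
    refine tendsto_const_nhds.congr' ?_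
    filter_upwards [theta_large x hx] with n hn
    unfold trunc
    rw [Real.smoothTransition.one_of_one_le hn, mul_one]
  · rw [indicator_of_notMem hx]
    refine tendsto_const_nhds.congr ?_
    intro n
    rw [image_eq_zero_of_notMem_tsupport (fun h => hx (trunc_tsupport' g n h))]

theorem trunc_abs (g : ℝ → ℝ) (C : ℝ) (hC : ∀ x ∈ Ioo (-1:ℝ) 1, |g x| ≤ C) (n : ℕ) (x : ℝ) :
    |trunc g n x| ≤ (Ioo (-1:ℝ) 1).indicator (fun _ => C) x := by
  by_cases hx : x ∈ Ioo (-1:ℝ) 1
  · rw [indicator_of_mem hx]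
    unfold trunc
    rw [abs_mul, abs_of_nonneg (Real.smoothTransition.nonneg _)]
    have h1 := Real.smoothTransition.le_one ((1 - x ^ 2) * (n + 1) - 1)
    have h0 := Real.smoothTransition.nonneg ((1 - x ^ 2) * (n + 1) - 1)
    calc |g x| * Real.smoothTransition ((1 - x ^ 2) * (n + 1) - 1) ≤ |g x| * 1 := mul_le_mul_of_nonneg_left h1 (abs_nonneg _)
      _ ≤ C := by rw [mul_one]; exact hC x hx
  · rw [indicator_of_notMem hx, image_eq_zero_of_notMem_tsupport (fun h => hx (trunc_tsupport' g n h))]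
    simp

theorem ind_int (C : ℝ) : Integrable ((Ioo (-1:ℝ) 1).indicator (fun _ : ℝ => C)) := by
  rw [integrable_indicator_iff measurableSet_Ioo]
  exact integrableOn_const (by simp)

theorem bounded_Ioo (g : ℝ → ℝ) (hg : Continuous g) : ∃ C, 0 ≤ C ∧ ∀ x ∈ Ioo (-1:ℝ) 1, |g x| ≤ C := by
  obtain ⟨M, hM⟩ := (isCompact_Icc (a := (-1:ℝ)) (b := 1)).exists_bound_of_continuousOn hg.continuousOn
  exact ⟨max M 0, le_max_right _ _, fun x hx => (hM x (Ioo_subset_Icc_self hx)).trans (le_max_left _ _)⟩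

theorem trunc_int_lim (g : ℝ → ℝ) (hg : ContDiff ℝ (⊤ : ℕ∞) g) :
    Tendsto (fun n => ∫ x, trunc g n x) atTop (𝓝 (∫ x in Ioo (-1:ℝ) 1, g x)) := by
  obtain ⟨C, hC0, hC⟩ := bounded_Ioo g hg.continuous
  rw [← integral_indicator measurableSet_Ioo]
  refine tendsto_integral_of_dominated_convergence ((Ioo (-1:ℝ) 1).indicator (fun _ => C)) ?_ (ind_int C) ?_ ?_
  · intro n; exact (trunc_smooth g hg n).continuous.aestronglyMeasurable
  · intro n; exact Eventually.of_forall fun x => trunc_abs g C hC n x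
  · exact Eventually.of_forall fun x => trunc_lim g x

theorem trunc_sq_lim (g : ℝ → ℝ) (hg : ContDiff ℝ (⊤ : ℕ∞) g) :
    Tendsto (fun n => ∫ x, trunc g n x ^ 2) atTop (𝓝 (∫ x in Ioo (-1:ℝ) 1, g x ^ 2)) := by
  obtain ⟨C, hC0, hC⟩ := bounded_Ioo g hg.continuous
  rw [← integral_indicator measurableSet_Ioo]
  refine tendsto_integral_of_dominated_convergence ((Ioo (-1:ℝ) 1).indicator (fun _ => C ^ 2)) ?_ (ind_int _) ?_ ?_
  · intro n; exact ((trunc_smooth g hg n).continuous.pow 2).aestronglyMeasurable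
  · intro n
    refine Eventually.of_forall fun x => ?_
    have := trunc_abs g C hC n x
    by_cases hx : x ∈ Ioo (-1:ℝ) 1
    · rw [indicator_of_mem hx] at this ⊢
      rw [Real.norm_eq_abs, abs_pow]
      exact pow_le_pow_left₀ (abs_nonneg _) this 2
    · rw [indicator_of_notMem hx] at this ⊢
      rw [abs_nonpos_iff.1 this]; simp
  · refine Eventually.of_forall fun x => ?_
    have h := (trunc_lim g x).pow 2
    by_cases hx : x ∈ Ioo (-1:ℝ) 1
    · rw [indicator_of_mem hx] at h ⊢; exact h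
    · rw [indicator_of_notMem hx] at h ⊢; simpa using h

theorem trunc_deriv (g : ℝ → ℝ) (hg : ContDiff ℝ (⊤ : ℕ∞) g) (n : ℕ) (x : ℝ) :
    deriv (trunc g n) x = deriv g x * Real.smoothTransition ((1 - x ^ 2) * (n + 1) - 1) +
      g x * (deriv Real.smoothTransition ((1 - x ^ 2) * (n + 1) - 1) * (-(2 * x) * (n + 1))) := by
  have h1 : HasDerivAt g (deriv g x) x := (hg.differentiable (by simp) x).hasDerivAt
  have h2 : HasDerivAt Real.smoothTransition (deriv Real.smoothTransition ((1 - x ^ 2) * (n + 1) - 1)) ((1 - x ^ 2) * (n + 1) - 1) :=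
    ((Real.smoothTransition.contDiff (n := 1)).differentiable (by norm_num) _).hasDerivAt
  have h3 : HasDerivAt (fun x : ℝ => (1 - x ^ 2) * ((n:ℝ) + 1) - 1) (-(2 * x) * (n + 1)) x := by
    have := ((((hasDerivAt_id x).pow 2).const_sub 1).mul_const ((n:ℝ) + 1)).sub_const 1
    refine this.congr_deriv ?_
    simp
  have h4 := h1.mul (h2.comp x h3)
  have e : trunc g n = g * (Real.smoothTransition ∘ fun x : ℝ => (1 - x ^ 2) * ((n:ℝ) + 1) - 1) := by
    funext x; rfl
  rw [e, h4.deriv]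
  rfl

theorem trunc_dsq_lim (g : ℝ → ℝ) (hg : ContDiff ℝ (⊤ : ℕ∞) g) (C : ℝ) (hC0 : 0 ≤ C)
    (hC : ∀ x ∈ Ioo (-1:ℝ) 1, |g x| ≤ C * (1 - x ^ 2)) :
    Tendsto (fun n => ∫ x, deriv (trunc g n) x ^ 2) atTop (𝓝 (∫ x in Ioo (-1:ℝ) 1, deriv g x ^ 2)) := by
  obtain ⟨D, hD0, hD⟩ := bounded_Ioo (deriv g) (hg.continuous_deriv (by simp))
  obtain ⟨M, hM0, hM⟩ := St_deriv_bound
  have hsm : ∀ n, Continuous (deriv (trunc g n)) := fun n => (trunc_smooth g hg n).continuous_deriv (by simp)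
  have hb : ∀ n x, |deriv (trunc g n) x| ≤ (Ioo (-1:ℝ) 1).indicator (fun _ => D + 4 * C * M) x := by
    intro n x
    by_cases hx : x ∈ Ioo (-1:ℝ) 1
    · rw [indicator_of_mem hx, trunc_deriv g hg n x]
      refine (abs_add_le _ _).trans (add_le_add ?_ ?_)
      · rw [abs_mul, abs_of_nonneg (Real.smoothTransition.nonneg _)]
        calc |deriv g x| * Real.smoothTransition ((1 - x ^ 2) * (n + 1) - 1) ≤ |deriv g x| * 1 :=
              mul_le_mul_of_nonneg_left (Real.smoothTransition.le_one _) (abs_nonneg _)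
          _ ≤ D := by rw [mul_one]; exact hD x hx
      · by_cases ht : (1 - x ^ 2) * (n + 1) - 1 ≤ 1
        · have hn : (0:ℝ) < n + 1 := by positivity
          have h1 : |g x| * (n + 1) ≤ 2 * C := by
            have := mul_le_mul_of_nonneg_right (hC x hx) hn.le
            refine this.trans ?_
            have h2 : (1 - x ^ 2) * (n + 1) ≤ 2 := by linarith
            nlinarith
          have h3 : |x| ≤ 1 := by rw [abs_le]; exact ⟨hx.1.le, hx.2.le⟩
          have h4 := hM ((1 - x ^ 2) * (n + 1) - 1)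
          rw [abs_mul, abs_mul, abs_mul, abs_neg, abs_mul, abs_of_pos hn]
          have e : |g x| * (|deriv Real.smoothTransition ((1 - x ^ 2) * (↑n + 1) - 1)| * (|(2:ℝ)| * |x| * (↑n + 1))) =
            (|g x| * (n + 1)) * |deriv Real.smoothTransition ((1 - x ^ 2) * (↑n + 1) - 1)| * (2 * |x|) := by
            rw [abs_of_pos (by norm_num : (0:ℝ) < 2)]; ring
          rw [e]
          calc (|g x| * (n + 1)) * |deriv Real.smoothTransition ((1 - x ^ 2) * (↑n + 1) - 1)| * (2 * |x|)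
              ≤ (2 * C) * M * (2 * 1) := by
                refine mul_le_mul (mul_le_mul h1 h4 (abs_nonneg _) (by positivity)) (by linarith) (by positivity) (by positivity)
            _ = 4 * C * M := by ring
        · rw [St_deriv_zero _ (Or.inr (not_le.1 ht).le)]
          simp only [zero_mul, mul_zero, abs_zero]
          positivity
    · rw [indicator_of_notMem hx, image_eq_zero_of_notMem_tsupport
        (fun h => hx (trunc_tsupport' g n (tsupport_deriv_subset h)))]
      simp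
  have hl : ∀ x, Tendsto (fun n => deriv (trunc g n) x) atTop (𝓝 ((Ioo (-1:ℝ) 1).indicator (deriv g) x)) := by
    intro x
    by_cases hx : x ∈ Ioo (-1:ℝ) 1
    · rw [indicator_of_mem hx]
      refine tendsto_const_nhds.congr' ?_
      filter_upwards [theta_large x hx] with n hn
      rw [trunc_deriv g hg n x, St_deriv_zero _ (Or.inr hn), Real.smoothTransition.one_of_one_le hn]
      simp
    · rw [indicator_of_notMem hx]
      refine tendsto_const_nhds.congr ?_
      intro n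
      rw [image_eq_zero_of_notMem_tsupport
        (fun h => hx (trunc_tsupport' g n (tsupport_deriv_subset h)))]
  rw [← integral_indicator measurableSet_Ioo]
  refine tendsto_integral_of_dominated_convergence
    ((Ioo (-1:ℝ) 1).indicator (fun _ => (D + 4 * C * M) ^ 2)) ?_ (ind_int _) ?_ ?_
  · intro n; exact ((hsm n).pow 2).aestronglyMeasurable
  · intro n
    refine Eventually.of_forall fun x => ?_
    have := hb n x
    by_cases hx : x ∈ Ioo (-1:ℝ) 1
    · rw [indicator_of_mem hx] at this ⊢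
      rw [Real.norm_eq_abs, abs_pow]
      exact pow_le_pow_left₀ (abs_nonneg _) this 2
    · rw [indicator_of_notMem hx] at this ⊢
      rw [abs_nonpos_iff.1 this]; simp
  · refine Eventually.of_forall fun x => ?_
    have h := (hl x).pow 2
    by_cases hx : x ∈ Ioo (-1:ℝ) 1
    · rw [indicator_of_mem hx] at h ⊢; exact h
    · rw [indicator_of_notMem hx] at h ⊢; simpa using h

/-- near-optimal functions for the Dirichlet eigenvalue of `(-1,1)` -/
theorem exists_eig (ε : ℝ) (hε : 0 < ε) : ∃ s : ℝ → ℝ, ContDiff ℝ (⊤ : ℕ∞) s ∧ HasCompactSupport s ∧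
    tsupport s ⊆ Ioo (-1) 1 ∧ 0 < ∫ x, s x ^ 2 ∧
    ∫ x, deriv s x ^ 2 ≤ (Real.pi ^ 2 / 4 + ε) * ∫ x, s x ^ 2 := by
  set g : ℝ → ℝ := fun x => Real.cos (Real.pi / 2 * x) with hg
  have hgs : ContDiff ℝ (⊤ : ℕ∞) g := by
    exact Real.contDiff_cos.comp (contDiff_const.mul contDiff_id)
  have hgd : ∀ x, deriv g x = -(Real.pi / 2) * Real.sin (Real.pi / 2 * x) := by
    intro x
    have := (Real.hasDerivAt_cos (Real.pi / 2 * x)).comp x ((hasDerivAt_id x).const_mul (Real.pi / 2))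
    have h3 : HasDerivAt g (-Real.sin (Real.pi / 2 * x) * (Real.pi / 2 * 1)) x := this
    rw [h3.deriv]; ring
  have hbd : ∀ x ∈ Ioo (-1:ℝ) 1, |g x| ≤ (Real.pi / 2) * (1 - x ^ 2) := by
    intro x hx
    have hpi := Real.pi_pos
    have h1 : |x| < 1 := abs_lt.2 hx
    have h2 : g x = Real.sin (Real.pi / 2 * (1 - |x|)) := by
      have e : Real.pi / 2 * (1 - |x|) = Real.pi / 2 - Real.pi / 2 * |x| := by ring
      rw [e, Real.sin_pi_div_two_sub]
      simp only [hg]
      rcases abs_choice x with h | h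
      · rw [h]
      · rw [h, mul_neg, Real.cos_neg]
    have h3 : 0 ≤ Real.pi / 2 * (1 - |x|) := by
      have : 0 ≤ 1 - |x| := by linarith
      positivity
    rw [h2]
    have h4 := Real.abs_sin_le_abs (x := Real.pi / 2 * (1 - |x|))
    rw [abs_of_nonneg h3] at h4
    refine h4.trans ?_
    refine mul_le_mul_of_nonneg_left ?_ (by positivity)
    have : x ^ 2 = |x| ^ 2 := (sq_abs x).symm
    rw [this]
    nlinarith [abs_nonneg x]
  have l1 := trunc_sq_lim g hgs
  have l2 := trunc_dsq_lim g hgs (Real.pi / 2) (by positivity) hbd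
  have v1 : ∫ x in Ioo (-1:ℝ) 1, g x ^ 2 = 1 := by
    rw [← integral_Ioc_eq_integral_Ioo, ← intervalIntegral.integral_of_le (by norm_num)]
    simp only [hg]
    rw [intervalIntegral.integral_comp_mul_left (fun x => Real.cos x ^ 2) (by positivity), integral_cos_sq]
    simp only [mul_one, mul_neg, Real.cos_pi_div_two, Real.sin_pi_div_two, Real.cos_neg, Real.sin_neg, smul_eq_mul]
    have := Real.pi_pos
    field_simp
    ring
  have v2 : ∫ x in Ioo (-1:ℝ) 1, deriv g x ^ 2 = Real.pi ^ 2 / 4 := by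
    rw [← integral_Ioc_eq_integral_Ioo, ← intervalIntegral.integral_of_le (by norm_num)]
    simp only [hgd]
    have e : (fun x => (-(Real.pi / 2) * Real.sin (Real.pi / 2 * x)) ^ 2) =
      fun x => (Real.pi ^ 2 / 4) * (Real.sin (Real.pi / 2 * x) ^ 2) := by
      funext x; ring
    rw [e, intervalIntegral.integral_const_mul,
      intervalIntegral.integral_comp_mul_left (fun x => Real.sin x ^ 2) (by positivity), integral_sin_sq]
    simp only [mul_one, mul_neg, Real.cos_pi_div_two, Real.sin_pi_div_two, Real.cos_neg, Real.sin_neg, smul_eq_mul]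
    have := Real.pi_pos
    field_simp
    ring
  rw [v1] at l1
  rw [v2] at l2
  have l3 := l2.sub ((l1.const_mul (Real.pi ^ 2 / 4 + ε)))
  have l4 : Real.pi ^ 2 / 4 - (Real.pi ^ 2 / 4 + ε) * 1 < 0 := by linarith
  obtain ⟨n, hn1, hn2⟩ := ((l3.eventually_lt_const l4).and (l1.eventually_const_lt one_pos)).exists
  exact ⟨trunc g n, trunc_smooth g hgs n, trunc_compact g n, trunc_tsupport' g n, hn2, by linarith⟩

/-- near-optimal functions for the torsion -/
theorem exists_tor (ε : ℝ) (hε : 0 < ε) : ∃ s ψ : ℝ → ℝ,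
    (ContDiff ℝ (⊤ : ℕ∞) s ∧ HasCompactSupport s ∧ tsupport s ⊆ Ioo (-1) 1) ∧
    (ContDiff ℝ (⊤ : ℕ∞) ψ ∧ HasCompactSupport ψ ∧ tsupport ψ ⊆ Ioo (-1) 1) ∧
    0 < ∫ x, s x ∧ 0 < ∫ x, ψ x ∧ 0 < ∫ x, deriv s x ^ 2 ∧ 0 < ∫ x, ψ x ^ 2 ∧
    (4 / 3 - ε) * ((∫ x, deriv s x ^ 2) * ∫ x, ψ x ^ 2) ≤ ((∫ x, s x) * ∫ x, ψ x) ^ 2 := by
  set g : ℝ → ℝ := fun x => (1 - x ^ 2) / 2 with hg
  have hgs : ContDiff ℝ (⊤ : ℕ∞) g := by
    simp only [hg]; fun_prop
  have hgd : ∀ x, deriv g x = -x := by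
    intro x
    have := (((hasDerivAt_id x).pow 2).const_sub 1).div_const 2
    have h3 : HasDerivAt g (-((2:ℕ) * id x ^ (2 - 1) * 1) / 2) x := this
    rw [h3.deriv]; simp; ring
  have hbd : ∀ x ∈ Ioo (-1:ℝ) 1, |g x| ≤ (1 / 2) * (1 - x ^ 2) := by
    intro x hx
    simp only [hg]
    rw [abs_of_nonneg]
    · linarith
    · nlinarith [hx.1, hx.2]
  have hos : ContDiff ℝ (⊤ : ℕ∞) (fun _ : ℝ => (1:ℝ)) := contDiff_const
  have l1 := trunc_int_lim g hgs
  have l2 := trunc_dsq_lim g hgs (1 / 2) (by positivity) hbd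
  have l3 := trunc_int_lim _ hos
  have l4 := trunc_sq_lim _ hos
  have v1 : ∫ x in Ioo (-1:ℝ) 1, g x = 2 / 3 := by
    rw [← integral_Ioc_eq_integral_Ioo, ← intervalIntegral.integral_of_le (by norm_num)]
    simp only [hg]
    rw [intervalIntegral.integral_div, intervalIntegral.integral_sub (by simp) (by simp)]
    simp; norm_num
  have v2 : ∫ x in Ioo (-1:ℝ) 1, deriv g x ^ 2 = 2 / 3 := by
    rw [← integral_Ioc_eq_integral_Ioo, ← intervalIntegral.integral_of_le (by norm_num)]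
    simp only [hgd, neg_sq]
    rw [integral_pow]; norm_num
  have v3 : ∫ x in Ioo (-1:ℝ) 1, (1:ℝ) = 2 := by
    rw [← integral_Ioc_eq_integral_Ioo, ← intervalIntegral.integral_of_le (by norm_num)]
    simp; norm_num
  have v4 : ∫ x in Ioo (-1:ℝ) 1, (1:ℝ) ^ 2 = 2 := by
    rw [← integral_Ioc_eq_integral_Ioo, ← intervalIntegral.integral_of_le (by norm_num)]
    simp; norm_num
  rw [v1] at l1
  rw [v2] at l2
  rw [v3] at l3
  rw [v4] at l4
  have l5 := ((l1.mul l3).pow 2).sub ((l2.mul l4).const_mul (4 / 3 - ε))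
  have l6 : 0 < ((2 / 3 : ℝ) * 2) ^ 2 - (4 / 3 - ε) * (2 / 3 * 2) := by
    have : ((2 / 3 : ℝ) * 2) ^ 2 - (4 / 3 - ε) * (2 / 3 * 2) = ε * (4 / 3) := by ring
    rw [this]; positivity
  obtain ⟨n, h5, h1, h2, h3, h4⟩ := ((l5.eventually_const_lt l6).and
    ((l1.eventually_const_lt (by norm_num : (0:ℝ) < 2 / 3)).and
    ((l2.eventually_const_lt (by norm_num : (0:ℝ) < 2 / 3)).and
    ((l3.eventually_const_lt (by norm_num : (0:ℝ) < 2)).and
    (l4.eventually_const_lt (by norm_num : (0:ℝ) < 2)))))).exists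
  exact ⟨trunc g n, trunc (fun _ => 1) n, ⟨trunc_smooth g hgs n, trunc_compact g n, trunc_tsupport' g n⟩,
    ⟨trunc_smooth _ hos n, trunc_compact _ n, trunc_tsupport' _ n⟩, h1, h3, h2, h4, by linarith⟩

end Pool.Agent.R223.Sem
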