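import Mathlib

set_option autoImplicit false
open MeasureTheory Filter Topology Metric Set Pointwise

namespace Pool.Agent.R223.Sem

/-- the parity digits -/
def par (c : ℕ → Fin 4) : ℕ → Fin 4 := fun i => ⟨(c i).val % 2, by omega⟩

noncomputable def Dg (c : ℕ → Fin 4) : ℝ := Real.ofDigits c
noncomputable def Wg (c : ℕ → Fin 4) : ℝ := Real.ofDigits (par c)

theorem continuous_par : Continuous par := by
  refine continuous_pi fun i => ?_
  exact (continuous_of_discreteTopology (f := fun a : Fin 4 => (⟨a.val % 2, by omega⟩ : Fin 4))).comp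
    (continuous_apply i)

theorem continuous_Dg : Continuous Dg := Real.continuous_ofDigits
theorem continuous_Wg : Continuous Wg := Real.continuous_ofDigits.comp continuous_par

theorem Dg_mem (c : ℕ → Fin 4) : 0 ≤ Dg c ∧ Dg c ≤ 1 := ⟨Real.ofDigits_nonneg c, Real.ofDigits_le_one c⟩

theorem Wg_mem (c : ℕ → Fin 4) : 0 ≤ Wg c ∧ Wg c ≤ 1 / 3 := by
  refine ⟨Real.ofDigits_nonneg _, ?_⟩
  have h1 : HasSum (fun i : ℕ => ((1:ℝ) / 4) ^ (i + 1)) (1 / 3) := by
    have h := (hasSum_geometric_of_lt_one (r := (1:ℝ)/4) (by norm_num) (by norm_num)).mul_left (1/4)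
    have e : (1/4 : ℝ) * (1 - 1/4)⁻¹ = 1/3 := by norm_num
    rw [e] at h
    refine h.congr_fun ?_ |> id
    intro i
    rw [pow_succ]; ring
  have h2 : Summable (Real.ofDigitsTerm (par c)) := Real.summable_ofDigitsTerm
  unfold Wg Real.ofDigits
  refine (h2.tsum_le_tsum ?_ h1.summable).trans_eq h1.tsum_eq
  intro i
  unfold Real.ofDigitsTerm
  have : ((par c i : Fin 4) : ℕ) ≤ 1 := by
    show (c i).val % 2 ≤ 1
    omega
  have h3 : (((par c i : Fin 4) : ℕ) : ℝ) ≤ 1 := by exact_mod_cast this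
  push_cast
  rw [one_div, inv_pow]
  have h4 : (0:ℝ) < ((4:ℝ) ^ (i+1))⁻¹ := by positivity
  nlinarith

theorem surj_Dg : ∀ y : ℝ, 0 ≤ y → y ≤ 1 → ∃ c, Dg c = y := by
  intro y h0 h1
  obtain ⟨c, -, hc⟩ := Real.ofDigits_SurjOn (b := 4) (by norm_num) (show y ∈ Icc (0:ℝ) 1 from ⟨h0, h1⟩)
  exact ⟨c, hc⟩

/-- weight of a digit -/
noncomputable def wt (s : ℝ) (a : Fin 4) : ℝ := (a.val : ℝ) - s * ((a.val % 2 : ℕ) : ℝ)

noncomputable def head (s : ℝ) (n : ℕ) (w : Fin n → Fin 4) : ℝ :=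
  ∑ i : Fin n, wt s (w i) * ((4:ℝ) ^ ((i : ℕ) + 1))⁻¹

theorem split (s : ℝ) (n : ℕ) (c : ℕ → Fin 4) :
    Dg c - s * Wg c = head s n (fun i => c i) +
      ((4:ℝ) ^ n)⁻¹ * (Dg (fun i => c (i + n)) - s * Wg (fun i => c (i + n))) := by
  have h1 := Real.ofDigits_eq_sum_add_ofDigits c n
  have h2 := Real.ofDigits_eq_sum_add_ofDigits (par c) n
  unfold Dg Wg
  rw [h1, h2]
  have h3 : par (fun i => c (i + n)) = fun i => par c (i + n) := rfl
  rw [h3]
  have h4 : head s n (fun i => c i) = (∑ i ∈ Finset.range n, Real.ofDigitsTerm c i) -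
      s * ∑ i ∈ Finset.range n, Real.ofDigitsTerm (par c) i := by
    rw [Finset.mul_sum, ← Finset.sum_sub_distrib, Finset.sum_range]
    unfold head
    refine Finset.sum_congr rfl fun i _ => ?_
    unfold Real.ofDigitsTerm wt par
    push_cast
    ring
  rw [h4]
  push_cast
  ring

noncomputable def sk (k : ℕ) : ℝ := -3 / (4 ^ (k + 1) - 1)

/-- the two coinciding strings -/
def str1 (k : ℕ) : Fin (k + 1) → Fin 4 := fun i => if i = 0 then 1 else 3
def str2 (k : ℕ) : Fin (k + 1) → Fin 4 := fun i => if i = 0 then 2 else 0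

theorem pow4_gt (k : ℕ) : (1:ℝ) < 4 ^ (k + 1) := one_lt_pow₀ (by norm_num) (by omega)

theorem geo (k : ℕ) : ∑ i ∈ Finset.range k, ((4:ℝ) ^ (i + 2))⁻¹ = (1 - ((4:ℝ) ^ k)⁻¹) / 12 := by
  induction k with
  | zero => simp
  | succ n ih =>
    rw [Finset.sum_range_succ, ih]
    have h : (0:ℝ) < 4 ^ n := by positivity
    field_simp
    ring

theorem coincide (k : ℕ) : head (sk k) (k + 1) (str1 k) = head (sk k) (k + 1) (str2 k) := by
  unfold head
  rw [Fin.sum_univ_succ, Fin.sum_univ_succ]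
  have e1 : ∀ i : Fin k, wt (sk k) (str1 k i.succ) * ((4:ℝ) ^ (((i.succ : Fin (k+1)) : ℕ) + 1))⁻¹ =
      (3 - sk k) * ((4:ℝ) ^ ((i : ℕ) + 2))⁻¹ := by
    intro i
    have : str1 k i.succ = 3 := by simp [str1, Fin.succ_ne_zero]
    rw [this]
    have h3 : wt (sk k) 3 = 3 - sk k := by
      unfold wt; norm_num
    rw [h3]
    simp [Fin.val_succ]
  have e2 : ∀ i : Fin k, wt (sk k) (str2 k i.succ) * ((4:ℝ) ^ (((i.succ : Fin (k+1)) : ℕ) + 1))⁻¹ = 0 := by
    intro i
    have : str2 k i.succ = 0 := by simp [str2, Fin.succ_ne_zero]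
    rw [this]
    have h3 : wt (sk k) 0 = 0 := by
      unfold wt; norm_num
    rw [h3]
    simp
  rw [Finset.sum_congr rfl (fun i _ => e1 i), Finset.sum_congr rfl (fun i _ => e2 i), ← Finset.mul_sum,
    Finset.sum_const_zero]
  rw [← Finset.sum_range (fun i => ((4:ℝ) ^ (i + 2))⁻¹), geo]
  have h1 : wt (sk k) (str1 k 0) = 1 - sk k := by unfold wt str1; norm_num
  have h2 : wt (sk k) (str2 k 0) = 2 := by unfold wt str2; norm_num
  rw [h1, h2]
  unfold sk
  have h := pow4_gt k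
  have h' : (4:ℝ) ^ (k+1) - 1 ≠ 0 := by linarith
  have h4 : (4:ℝ) ^ (k+1) = 4 * 4 ^ k := by rw [pow_succ]; ring
  have h5 : (0:ℝ) < 4 ^ k := by positivity
  rw [h4] at h' ⊢
  simp only [Fin.val_zero, zero_add, pow_one]
  field_simp
  ring

theorem str_ne (k : ℕ) : str1 k ≠ str2 k := by
  intro h
  have := congrFun h 0
  simp [str1, str2] at this

/-- the set of values of `D - s W` -/
noncomputable def Nset (s : ℝ) : Set ℝ := range (fun c => Dg c - s * Wg c)

theorem Nset_compact (s : ℝ) : IsCompact (Nset s) :=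
  isCompact_range (continuous_Dg.sub (continuous_const.mul continuous_Wg))

theorem Nset_null (k : ℕ) : volume (Nset (sk k)) = 0 := by
  classical
  set s := sk k
  set n := k + 1
  set N := Nset s
  let S : Finset ℝ := Finset.univ.image (head s n)
  have hcard : S.card + 1 ≤ 4 ^ n := by
    have h1 : S.card < (Finset.univ : Finset (Fin n → Fin 4)).card := by
      refine lt_of_le_of_ne Finset.card_image_le ?_
      intro h
      rw [Finset.card_image_iff] at h
      exact str_ne k (h (Finset.mem_coe.2 (Finset.mem_univ _)) (Finset.mem_coe.2 (Finset.mem_univ _)) (coincide k))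
    have h2 : (Finset.univ : Finset (Fin n → Fin 4)).card = 4 ^ n := by
      simp
    omega
  have hsub : N ⊆ ⋃ r ∈ S, (fun x => r + x) '' ((fun x => ((4:ℝ) ^ n)⁻¹ * x) '' N) := by
    rintro _ ⟨c, rfl⟩
    simp only [mem_iUnion]
    refine ⟨head s n (fun i => c i), Finset.mem_image_of_mem _ (Finset.mem_univ _), ?_⟩
    exact ⟨_, ⟨_, ⟨fun i => c (i + n), rfl⟩, rfl⟩, (split s n c).symm⟩
  have hfin : volume N ≠ ⊤ := (Nset_compact s).measure_lt_top.ne
  have hm : ∀ r : ℝ, volume ((fun x => r + x) '' ((fun x => ((4:ℝ) ^ n)⁻¹ * x) '' N)) =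
      ENNReal.ofReal (((4:ℝ) ^ n)⁻¹) * volume N := by
    intro r
    rw [Set.image_add_left, measure_preimage_add]
    have : (fun x => ((4:ℝ) ^ n)⁻¹ * x) '' N = ((4:ℝ) ^ n)⁻¹ • N := rfl
    rw [this, Measure.addHaar_smul]
    simp
  have h1 : volume N ≤ S.card * (ENNReal.ofReal (((4:ℝ) ^ n)⁻¹) * volume N) := by
    calc volume N ≤ volume (⋃ r ∈ S, (fun x => r + x) '' ((fun x => ((4:ℝ) ^ n)⁻¹ * x) '' N)) := measure_mono hsub
      _ ≤ ∑ r ∈ S, volume ((fun x => r + x) '' ((fun x => ((4:ℝ) ^ n)⁻¹ * x) '' N)) :=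
        measure_biUnion_finset_le _ _
      _ = ∑ r ∈ S, (ENNReal.ofReal (((4:ℝ) ^ n)⁻¹) * volume N) := Finset.sum_congr rfl (fun r _ => hm r)
      _ = _ := by rw [Finset.sum_const, nsmul_eq_mul]
  by_contra hne
  have hpos : 0 < (volume N).toReal := ENNReal.toReal_pos hne hfin
  have h2 : (volume N).toReal ≤ (S.card : ℝ) * (((4:ℝ) ^ n)⁻¹ * (volume N).toReal) := by
    have h3 := ENNReal.toReal_mono (by
      refine ENNReal.mul_ne_top (ENNReal.natCast_ne_top _) (ENNReal.mul_ne_top ENNReal.ofReal_ne_top hfin)) h1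
    rw [ENNReal.toReal_mul, ENNReal.toReal_mul, ENNReal.toReal_natCast,
      ENNReal.toReal_ofReal (by positivity)] at h3
    exact h3
  have h4 : (S.card : ℝ) + 1 ≤ 4 ^ n := by exact_mod_cast hcard
  have h5 : (0:ℝ) < 4 ^ n := by positivity
  have h6 : (S.card : ℝ) * (((4:ℝ) ^ n)⁻¹ * (volume N).toReal) < (volume N).toReal := by
    have h7 : (S.card : ℝ) * ((4:ℝ) ^ n)⁻¹ < 1 := by
      rw [← div_eq_mul_inv, div_lt_one h5]; linarith
    nlinarith
  linarith

theorem sk_neg (k : ℕ) : sk k < 0 := by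
  unfold sk
  have := pow4_gt k
  exact div_neg_of_neg_of_pos (by norm_num) (by linarith)

theorem sk_bound (k : ℕ) : |sk k| ≤ 1 := by
  unfold sk
  have h : (4:ℝ) ≤ 4 ^ (k + 1) := by
    rw [pow_succ]
    have : (1:ℝ) ≤ 4 ^ k := one_le_pow₀ (by norm_num)
    linarith
  rw [abs_div, abs_of_pos (by linarith : (0:ℝ) < 4 ^ (k+1) - 1), div_le_one (by linarith)]
  norm_num
  linarith

theorem sk_tendsto : Tendsto sk atTop (𝓝 0) := by
  unfold sk
  refine Tendsto.const_div_atTop ?_ _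
  have h1 : Tendsto (fun k : ℕ => (4:ℝ) ^ (k + 1)) atTop atTop :=
    (tendsto_pow_atTop_atTop_of_one_lt (by norm_num : (1:ℝ) < 4)).comp (tendsto_add_atTop_nat 1)
  exact h1.atTop_add (tendsto_const_nhds (x := (-1:ℝ)))

end Pool.Agent.R223.Sem
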