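import Mathlib
import Pool.Agent.R223.Sem.OneD

set_option autoImplicit false
open MeasureTheory Filter Topology Metric Set

namespace Pool.Agent.R223.Sem

abbrev P2 := ℝ × ℝ

/-- smooth compactly supported functions in the coordinate plane -/
def Test (Ω : Set P2) (u : P2 → ℝ) : Prop :=
  ContDiff ℝ (⊤ : ℕ∞) u ∧ HasCompactSupport u ∧ tsupport u ⊆ Ω

noncomputable def dX (u : P2 → ℝ) (z : P2) : ℝ := fderiv ℝ u z (1, 0)
noncomputable def dY (u : P2 → ℝ) (z : P2) : ℝ := fderiv ℝ u z (0, 1)

variable {Ω : Set P2} {u : P2 → ℝ}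

theorem Test.diff (h : Test Ω u) : Differentiable ℝ u := h.1.differentiable (by simp)

theorem Test.cont (h : Test Ω u) : Continuous u := h.1.continuous

theorem Test.cfd (h : Test Ω u) : Continuous (fderiv ℝ u) := h.1.continuous_fderiv (by simp)

theorem Test.cdX (h : Test Ω u) : Continuous (dX u) := h.cfd.clm_apply continuous_const
theorem Test.cdY (h : Test Ω u) : Continuous (dY u) := h.cfd.clm_apply continuous_const

theorem Test.sdX (h : Test Ω u) : HasCompactSupport (dX u) := by
  refine (h.2.1.fderiv ℝ).mono' ?_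
  intro z hz
  by_contra h2
  apply hz
  unfold dX
  rw [image_eq_zero_of_notMem_tsupport h2]; simp

theorem Test.sdY (h : Test Ω u) : HasCompactSupport (dY u) := by
  refine (h.2.1.fderiv ℝ).mono' ?_
  intro z hz
  by_contra h2
  apply hz
  unfold dY
  rw [image_eq_zero_of_notMem_tsupport h2]; simp

theorem dX_zero {z : P2} (hz : z ∉ tsupport u) : dX u z = 0 := by
  unfold dX
  have : fderiv ℝ u z = 0 := by
    by_contra h
    exact hz (support_fderiv_subset ℝ h)
  rw [this]; simp

theorem dY_zero {z : P2} (hz : z ∉ tsupport u) : dY u z = 0 := by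
  unfold dY
  have : fderiv ℝ u z = 0 := by
    by_contra h
    exact hz (support_fderiv_subset ℝ h)
  rw [this]; simp

theorem Test.iu (h : Test Ω u) : Integrable u := h.cont.integrable_of_hasCompactSupport h.2.1
theorem Test.iX (h : Test Ω u) : Integrable (dX u) := h.cdX.integrable_of_hasCompactSupport h.sdX
theorem Test.iY (h : Test Ω u) : Integrable (dY u) := h.cdY.integrable_of_hasCompactSupport h.sdY

theorem int_mul_cont {k : P2 → ℝ} (φ : P2 → ℝ) (hφ : Continuous φ) (hk : Continuous k)
    (hks : HasCompactSupport k) : Integrable (fun z => φ z * k z) :=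
  (hφ.mul hk).integrable_of_hasCompactSupport hks.mul_left

theorem int_sq2 {k : P2 → ℝ} (hk : Continuous k) (hks : HasCompactSupport k) :
    Integrable (fun z => k z ^ 2) :=
  Continuous.integrable_of_hasCompactSupport (f := fun z => k z ^ 2) (hk.pow 2) (cs_sq hks)

/-- derivative along a line -/
theorem slice_hasDeriv (h : Test Ω u) (a b p q : ℝ) (x : ℝ) :
    HasDerivAt (fun x => u (a + p * x, b + q * x)) (p * dX u (a + p * x, b + q * x) + q * dY u (a + p * x, b + q * x)) x := by
  have h1 : HasFDerivAt u (fderiv ℝ u (a + p * x, b + q * x)) (a + p * x, b + q * x) :=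
    (h.diff _).hasFDerivAt
  have h2 : HasDerivAt (fun x : ℝ => (a + p * x, b + q * x)) (p, q) x := by
    have e1 : HasDerivAt (fun x : ℝ => a + p * x) p x := by
      simpa using ((hasDerivAt_id x).const_mul p).const_add a
    have e2 : HasDerivAt (fun x : ℝ => b + q * x) q x := by
      simpa using ((hasDerivAt_id x).const_mul q).const_add b
    exact e1.prodMk e2
  have h3 := h1.comp_hasDerivAt x h2
  refine h3.congr_deriv ?_
  have e : ((p, q) : P2) = p • ((1, 0) : P2) + q • ((0, 1) : P2) := by simp
  rw [e, map_add, map_smul, map_smul]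
  rfl

theorem slice_contDiff (h : Test Ω u) (a b p q : ℝ) : ContDiff ℝ 1 (fun x => u (a + p * x, b + q * x)) :=
  (h.1.of_le (by exact_mod_cast le_top)).comp (by fun_prop)

theorem slice_tsupport (u : P2 → ℝ) (a b p q : ℝ) :
    tsupport (fun x => u (a + p * x, b + q * x)) ⊆ (fun x => (a + p * x, b + q * x)) ⁻¹' tsupport u := by
  exact tsupport_comp_subset_preimage u (f := fun x : ℝ => (a + p * x, b + q * x)) (by fun_prop)

theorem slice_compact (h : Test Ω u) (a b p q : ℝ) (hpq : p ≠ 0 ∨ q ≠ 0) :
    HasCompactSupport (fun x => u (a + p * x, b + q * x)) := by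
  have hc : IsCompact (tsupport u) := h.2.1
  rcases hpq with hp | hq
  · have h1 : IsCompact ((fun z : P2 => (z.1 - a) / p) '' tsupport u) := hc.image (by fun_prop)
    refine HasCompactSupport.of_support_subset_isCompact h1 ?_
    intro x hx
    refine ⟨(a + p * x, b + q * x), slice_tsupport u a b p q (subset_tsupport _ hx), ?_⟩
    simp only
    field_simp
    ring
  · have h1 : IsCompact ((fun z : P2 => (z.2 - b) / q) '' tsupport u) := hc.image (by fun_prop)
    refine HasCompactSupport.of_support_subset_isCompact h1 ?_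
    intro x hx
    refine ⟨(a + p * x, b + q * x), slice_tsupport u a b p q (subset_tsupport _ hx), ?_⟩
    simp only
    field_simp
    ring

/-- horizontal slices -/
theorem hor (h : Test Ω u) (y : ℝ) : ContDiff ℝ 1 (fun x => u (x, y)) ∧
    HasCompactSupport (fun x => u (x, y)) ∧ (∀ x, deriv (fun x => u (x, y)) x = dX u (x, y)) ∧
    tsupport (fun x => u (x, y)) ⊆ (fun x => (x, y)) ⁻¹' tsupport u := by
  have e : (fun x => u (x, y)) = fun x => u (0 + 1 * x, y + 0 * x) := by funext x; simp
  refine ⟨?_, ?_, ?_, ?_⟩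
  · rw [e]; exact slice_contDiff h 0 y 1 0
  · rw [e]; exact slice_compact h 0 y 1 0 (Or.inl one_ne_zero)
  · intro x
    rw [e, (slice_hasDeriv h 0 y 1 0 x).deriv]; simp
  · rw [e]
    refine (slice_tsupport u 0 y 1 0).trans ?_
    intro x hx; simpa using hx

/-- vertical slices -/
theorem ver (h : Test Ω u) (x : ℝ) : ContDiff ℝ 1 (fun y => u (x, y)) ∧
    HasCompactSupport (fun y => u (x, y)) ∧ (∀ y, deriv (fun y => u (x, y)) y = dY u (x, y)) := by
  have e : (fun y => u (x, y)) = fun y => u (x + 0 * y, 0 + 1 * y) := by funext x; simp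
  refine ⟨?_, ?_, ?_⟩
  · rw [e]; exact slice_contDiff h x 0 0 1
  · rw [e]; exact slice_compact h x 0 0 1 (Or.inr one_ne_zero)
  · intro y
    rw [e, (slice_hasDeriv h x 0 0 1 y).deriv]; simp

/-- slanted slices -/
theorem sla (h : Test Ω u) (t c : ℝ) : ContDiff ℝ 1 (fun x => u (x, c + t * x)) ∧
    HasCompactSupport (fun x => u (x, c + t * x)) ∧
    (∀ x, deriv (fun x => u (x, c + t * x)) x = dX u (x, c + t * x) + t * dY u (x, c + t * x)) ∧
    tsupport (fun x => u (x, c + t * x)) ⊆ (fun x => (x, c + t * x)) ⁻¹' tsupport u := by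
  have e : (fun x => u (x, c + t * x)) = fun x => u (0 + 1 * x, c + t * x) := by funext x; simp
  refine ⟨?_, ?_, ?_, ?_⟩
  · rw [e]; exact slice_contDiff h 0 c 1 t
  · rw [e]; exact slice_compact h 0 c 1 t (Or.inl one_ne_zero)
  · intro x
    rw [e, (slice_hasDeriv h 0 c 1 t x).deriv]; simp
  · rw [e]
    refine (slice_tsupport u 0 c 1 t).trans ?_
    intro x hx; simpa using hx

theorem fub_x (F : P2 → ℝ) (h : ∀ y, ∫ x, F (x, y) = 0) : ∫ z, F z = 0 := by
  by_cases hF : Integrable F
  · rw [Measure.volume_eq_prod] at hF ⊢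
    rw [integral_prod_symm F hF]
    simp [h]
  · exact integral_undef hF

theorem fub_y (F : P2 → ℝ) (h : ∀ x, ∫ y, F (x, y) = 0) : ∫ z, F z = 0 := by
  by_cases hF : Integrable F
  · rw [Measure.volume_eq_prod] at hF ⊢
    rw [integral_prod F hF]
    simp [h]
  · exact integral_undef hF

/-- the shear `(x,c) ↦ (x, c + t x)` -/
def shear (t : ℝ) (z : P2) : P2 := (z.1, z.2 + t * z.1)

theorem shear_mp (t : ℝ) : MeasurePreserving (shear t) (volume : Measure P2) volume := by
  have h := (MeasurePreserving.id (volume : Measure ℝ)).skew_product (μc := (volume : Measure ℝ))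
    (μd := (volume : Measure ℝ)) (g := fun x y => y + t * x) (by fun_prop)
    (Eventually.of_forall fun x => (measurePreserving_add_right (volume : Measure ℝ) (t * x)).map_eq)
  exact h

def shearHomeo (t : ℝ) : P2 ≃ₜ P2 where
  toFun := shear t
  invFun := shear (-t)
  left_inv z := by simp [shear]
  right_inv z := by simp [shear]
  continuous_toFun := by unfold shear; fun_prop
  continuous_invFun := by unfold shear; fun_prop

theorem shear_int (t : ℝ) (F : P2 → ℝ) : ∫ z, F (shear t z) = ∫ z, F z :=
  (shear_mp t).integral_comp (shearHomeo t).measurableEmbedding F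

theorem fub_shear (t : ℝ) (F : P2 → ℝ) (h : ∀ c, ∫ x, F (x, c + t * x) = 0) : ∫ z, F z = 0 := by
  rw [← shear_int t F]
  exact fub_x _ h

theorem shear_compact (t : ℝ) (F : P2 → ℝ) (hF : HasCompactSupport F) :
    HasCompactSupport (fun z => F (shear t z)) :=
  hF.comp_homeomorph (shearHomeo t)

/-- iterated integral along slanted lines -/
theorem shear_iter (t : ℝ) (F : P2 → ℝ) (hF : Continuous F) (hc : HasCompactSupport F) :
    ∫ z, F z = ∫ c, ∫ x, F (x, c + t * x) := by
  have h1 : Integrable (fun z => F (shear t z)) :=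
    Continuous.integrable_of_hasCompactSupport (hF.comp (shearHomeo t).continuous) (shear_compact t F hc)
  rw [← shear_int t F]
  rw [Measure.volume_eq_prod] at h1 ⊢
  rw [integral_prod_symm _ h1]
  rfl

theorem shear_inner_int (t : ℝ) (F : P2 → ℝ) (hF : Continuous F) (hc : HasCompactSupport F) :
    Integrable (fun c => ∫ x, F (x, c + t * x)) := by
  have h1 : Integrable (fun z => F (shear t z)) :=
    Continuous.integrable_of_hasCompactSupport (hF.comp (shearHomeo t).continuous) (shear_compact t F hc)
  rw [Measure.volume_eq_prod] at h1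
  exact h1.integral_prod_right

end Pool.Agent.R223.Sem
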