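import Mathlib
import Pool.Agent.R223.Sem.Plane

set_option autoImplicit false
open MeasureTheory Filter Topology Metric Set

namespace Pool.Agent.R223.Sem

/-- seminorm on the coordinate plane of Euclidean operator norm one -/
structure IsH (H : P2 → ℝ) : Prop where
  smul : ∀ (t : ℝ) (ξ : P2), H (t • ξ) = |t| * H ξ
  add : ∀ ξ η : P2, H (ξ + η) ≤ H ξ + H η
  le : ∀ ξ : P2, H ξ ≤ Real.sqrt (ξ.1 ^ 2 + ξ.2 ^ 2)
  att : ∃ ξ : P2, ξ.1 ^ 2 + ξ.2 ^ 2 = 1 ∧ H ξ = 1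

variable {H : P2 → ℝ}

theorem IsH.zero (h : IsH H) : H 0 = 0 := by
  have := h.smul 0 0
  simpa using this

theorem IsH.neg (h : IsH H) (ξ : P2) : H (-ξ) = H ξ := by
  have := h.smul (-1) ξ
  simpa using this

theorem IsH.nonneg (h : IsH H) (ξ : P2) : 0 ≤ H ξ := by
  have := h.add ξ (-ξ)
  rw [add_neg_cancel, h.zero, h.neg] at this
  linarith

theorem IsH.cont (h : IsH H) : Continuous H := by
  have key : ∀ ξ η : P2, |H ξ - H η| ≤ Real.sqrt ((ξ.1 - η.1) ^ 2 + (ξ.2 - η.2) ^ 2) := by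
    intro ξ η
    have h1 := h.add (ξ - η) η
    have h2 := h.add (η - ξ) ξ
    have h3 : H (η - ξ) = H (ξ - η) := by rw [← neg_sub, h.neg]
    have h4 := h.le (ξ - η)
    rw [sub_add_cancel] at h1 h2
    simp only [Prod.fst_sub, Prod.snd_sub] at h4
    rw [abs_le]; constructor <;> linarith
  rw [continuous_iff_continuousAt]
  intro η
  rw [ContinuousAt, tendsto_iff_norm_sub_tendsto_zero]
  refine squeeze_zero (fun _ => norm_nonneg _) (fun ξ => key ξ η) ?_
  have : Continuous fun ξ : P2 => Real.sqrt ((ξ.1 - η.1) ^ 2 + (ξ.2 - η.2) ^ 2) := by fun_prop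
  have h2 := this.tendsto η
  simpa using h2

/-- Hahn–Banach -/
theorem IsH.functional (h : IsH H) (ξ₀ : P2) : ∃ b1 b2 : ℝ, b1 * ξ₀.1 + b2 * ξ₀.2 = H ξ₀ ∧
    ∀ ξ : P2, |b1 * ξ.1 + b2 * ξ.2| ≤ H ξ := by
  by_cases h0 : ξ₀ = 0
  · refine ⟨0, 0, by rw [h0, h.zero]; simp, fun ξ => ?_⟩
    simpa using h.nonneg ξ
  · let f : P2 →ₗ.[ℝ] ℝ := LinearPMap.mkSpanSingleton ξ₀ (H ξ₀) h0
    obtain ⟨g, hg1, hg2⟩ := exists_extension_of_le_sublinear f H
      (fun c hc x => by rw [h.smul, abs_of_pos hc]) h.add (by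
        rintro ⟨x, hx⟩
        obtain ⟨c, rfl⟩ := Submodule.mem_span_singleton.1 hx
        show LinearPMap.mkSpanSingleton ξ₀ (H ξ₀) h0 ⟨c • ξ₀, hx⟩ ≤ H (c • ξ₀)
        have e : LinearPMap.mkSpanSingleton ξ₀ (H ξ₀) h0 ⟨c • ξ₀, hx⟩ = c • H ξ₀ :=
          LinearPMap.mkSpanSingleton'_apply ..
        rw [e, h.smul, smul_eq_mul]
        exact mul_le_mul_of_nonneg_right (le_abs_self c) (h.nonneg _))
    have hrep : ∀ ξ : P2, g ξ = g (1, 0) * ξ.1 + g (0, 1) * ξ.2 := by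
      intro ξ
      have e : ξ = ξ.1 • ((1, 0) : P2) + ξ.2 • ((0, 1) : P2) := by
        ext <;> simp
      conv_lhs => rw [e]
      rw [map_add, map_smul, map_smul, smul_eq_mul, smul_eq_mul]
      ring
    refine ⟨g (1, 0), g (0, 1), ?_, ?_⟩
    · rw [← hrep]
      have := hg1 ⟨ξ₀, Submodule.mem_span_singleton_self ξ₀⟩
      rw [this]
      exact LinearPMap.mkSpanSingleton_apply ..
    · intro ξ
      rw [← hrep, abs_le]
      refine ⟨?_, hg2 ξ⟩
      have := hg2 (-ξ)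
      rw [map_neg, h.neg] at this
      linarith

/-- direction of norm one -/
theorem IsH.dir (h : IsH H) : ∃ a p : ℝ, a ^ 2 + p ^ 2 = 1 ∧ 0 ≤ a ∧ ∀ ξ : P2, |a * ξ.1 + p * ξ.2| ≤ H ξ := by
  obtain ⟨e, he, hHe⟩ := h.att
  obtain ⟨b1, b2, hb, hb2⟩ := h.functional e
  have h1 : b1 ^ 2 + b2 ^ 2 ≤ 1 := by
    have h2 := hb2 (b1, b2)
    have h3 := h.le (b1, b2)
    simp only at h2 h3
    have h4 : b1 ^ 2 + b2 ^ 2 ≤ Real.sqrt (b1 ^ 2 + b2 ^ 2) := by
      have := le_abs_self (b1 * b1 + b2 * b2)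
      nlinarith
    have h5 := Real.sq_sqrt (by positivity : 0 ≤ b1 ^ 2 + b2 ^ 2)
    have h6 := Real.sqrt_nonneg (b1 ^ 2 + b2 ^ 2)
    by_contra hcon
    push Not at hcon
    have h7 : 1 < Real.sqrt (b1 ^ 2 + b2 ^ 2) := by
      rw [Real.lt_sqrt (by norm_num)]; linarith
    nlinarith
  rw [hHe] at hb
  have h2 : (b1 - e.1) ^ 2 + (b2 - e.2) ^ 2 ≤ 0 := by nlinarith
  have h3 : b1 = e.1 := by nlinarith [sq_nonneg (b1 - e.1), sq_nonneg (b2 - e.2)]
  have h4 : b2 = e.2 := by nlinarith [sq_nonneg (b1 - e.1), sq_nonneg (b2 - e.2)]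
  rcases le_total 0 b1 with hs | hs
  · exact ⟨b1, b2, by rw [h3, h4]; exact he, hs, hb2⟩
  · refine ⟨-b1, -b2, by rw [h3, h4]; nlinarith, by linarith, fun ξ => ?_⟩
    have := hb2 ξ
    have e : -b1 * ξ.1 + -b2 * ξ.2 = -(b1 * ξ.1 + b2 * ξ.2) := by ring
    rw [e, abs_neg]; exact this

theorem IsH.vert (h : IsH H) : ∃ b1 : ℝ, |b1| ≤ 1 ∧ ∀ ξ : P2, |b1 * ξ.1 + H (0, 1) * ξ.2| ≤ H ξ := by
  obtain ⟨b1, b2, hb, hb2⟩ := h.functional (0, 1)
  simp only [mul_zero, zero_add, mul_one] at hb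
  rw [hb] at hb2
  refine ⟨b1, ?_, hb2⟩
  have h1 := hb2 (1, 0)
  have h2 := h.le (1, 0)
  simp only [mul_one, mul_zero, add_zero] at h1
  have h3 : Real.sqrt (((1:ℝ), (0:ℝ)).1 ^ 2 + ((1:ℝ), (0:ℝ)).2 ^ 2) = 1 := by simp
  rw [h3] at h2
  exact h1.trans h2

theorem IsH.h_le_one (h : IsH H) : H (0, 1) ≤ 1 := by
  have := h.le (0, 1)
  have h3 : Real.sqrt (((0:ℝ), (1:ℝ)).1 ^ 2 + ((0:ℝ), (1:ℝ)).2 ^ 2) = 1 := by simp
  rw [h3] at this
  exact this

noncomputable def En (H : P2 → ℝ) (u : P2 → ℝ) : ℝ := ∫ z, H (dX u z, dY u z) ^ 2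

variable {Ω : Set P2} {u : P2 → ℝ}

theorem IsH.int_en (h : IsH H) (hu : Test Ω u) : Integrable (fun z => H (dX u z, dY u z) ^ 2) := by
  have h1 : Continuous (fun z => H (dX u z, dY u z)) := h.cont.comp (hu.cdX.prodMk hu.cdY)
  have h2 : HasCompactSupport (fun z => H (dX u z, dY u z)) := by
    refine HasCompactSupport.intro hu.2.1 ?_
    intro z hz
    rw [dX_zero hz, dY_zero hz]
    exact h.zero
  exact int_sq2 h1 h2

/-- the rectangle -/
def Rect : Set P2 := Ioo (-1 : ℝ) 1 ×ˢ Ioo (-(1 / 20) : ℝ) (1 / 20)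

theorem Rect_meas : MeasurableSet Rect := measurableSet_Ioo.prod measurableSet_Ioo

theorem prod_strip (φ : ℝ → ℝ) (c d : ℝ) (hcd : c ≤ d) :
    ∫ z in (Ioo (-1 : ℝ) 1 ×ˢ Ioo c d : Set P2), φ z.1 = (∫ x in (-1:ℝ)..1, φ x) * (d - c) := by
  have := setIntegral_prod_mul (μ := (volume : Measure ℝ)) (ν := (volume : Measure ℝ)) φ (fun _ : ℝ => (1:ℝ)) (Ioo (-1) 1) (Ioo c d)
  simp only [mul_one] at this
  rw [Measure.volume_eq_prod, this, ← integral_Ioc_eq_integral_Ioo, ← intervalIntegral.integral_of_le (by norm_num)]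
  congr 1
  simp [hcd]

theorem int_strip (φ : ℝ → ℝ) (hφ : Continuous φ) (c d : ℝ) :
    IntegrableOn (fun z : P2 => φ z.1) (Ioo (-1 : ℝ) 1 ×ˢ Ioo c d) := by
  have h1 : IntegrableOn (fun z : P2 => φ z.1) (Icc (-1 : ℝ) 1 ×ˢ Icc c d) :=
    (hφ.comp continuous_fst).continuousOn.integrableOn_compact (isCompact_Icc.prod isCompact_Icc)
  exact h1.mono_set (Set.prod_mono Ioo_subset_Icc_self Ioo_subset_Icc_self)

theorem vanish_off {R : Set P2} (hu : Test R u) {z : P2} (hz : z ∉ R) : dX u z = 0 ∧ dY u z = 0 :=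
  ⟨dX_zero (fun h => hz (hu.2.2 h)), dY_zero (fun h => hz (hu.2.2 h))⟩

/-- basic identities -/
theorem id_x (hu : Test Ω u) : (∫ z, (u z + z.1 * dX u z) = 0) ∧ (∫ z : P2, z.1 * dY u z = 0) := by
  constructor
  · refine fub_x _ fun y => ?_
    obtain ⟨h1, h2, h3, -⟩ := hor hu y
    have := (slice_zero _ h1 h2).2
    simpa [h3] using this
  · refine fub_y _ fun x => ?_
    obtain ⟨h1, h2, h3⟩ := ver hu x
    have := (slice_zero _ h1 h2).1
    simp only [h3] at this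
    rw [integral_const_mul, this, mul_zero]

theorem id_y (hu : Test Ω u) : (∫ z, (u z + z.2 * dY u z) = 0) ∧ (∫ z : P2, z.2 * dX u z = 0) := by
  constructor
  · refine fub_y _ fun x => ?_
    obtain ⟨h1, h2, h3⟩ := ver hu x
    have := (slice_zero _ h1 h2).2
    simpa [h3] using this
  · refine fub_x _ fun y => ?_
    obtain ⟨h1, h2, h3, -⟩ := hor hu y
    have := (slice_zero _ h1 h2).1
    simp only [h3] at this
    rw [integral_const_mul, this, mul_zero]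

theorem int_xX (hu : Test Ω u) : Integrable (fun z : P2 => z.1 * dX u z) :=
  int_mul_cont _ continuous_fst hu.cdX hu.sdX
theorem int_xY (hu : Test Ω u) : Integrable (fun z : P2 => z.1 * dY u z) :=
  int_mul_cont _ continuous_fst hu.cdY hu.sdY
theorem int_yX (hu : Test Ω u) : Integrable (fun z : P2 => z.2 * dX u z) :=
  int_mul_cont _ continuous_snd hu.cdX hu.sdX
theorem int_yY (hu : Test Ω u) : Integrable (fun z : P2 => z.2 * dY u z) :=
  int_mul_cont _ continuous_snd hu.cdY hu.sdY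

/-- `∫ u = ∫ -(x/a) (a u_x + p u_y)` -/
theorem id_A (hu : Test Ω u) (a p : ℝ) (ha : a ≠ 0) :
    ∫ z, u z = ∫ z : P2, -(z.1 / a) * (a * dX u z + p * dY u z) := by
  have h1 := (id_x hu).1
  have h2 := (id_x hu).2
  rw [integral_add hu.iu (int_xX hu)] at h1
  have e : (fun z : P2 => -(z.1 / a) * (a * dX u z + p * dY u z)) =
      fun z => (-1) * (z.1 * dX u z) + (-(p / a)) * (z.1 * dY u z) := by
    funext z; field_simp; ring
  rw [e, integral_add ((int_xX hu).const_mul _) ((int_xY hu).const_mul _), integral_const_mul,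
    integral_const_mul, h2]
  linarith

theorem id_B (hu : Test Ω u) (a p : ℝ) (hp : p ≠ 0) :
    ∫ z, u z = ∫ z : P2, -(z.2 / p) * (a * dX u z + p * dY u z) := by
  have h1 := (id_y hu).1
  have h2 := (id_y hu).2
  rw [integral_add hu.iu (int_yY hu)] at h1
  have e : (fun z : P2 => -(z.2 / p) * (a * dX u z + p * dY u z)) =
      fun z => (-1) * (z.2 * dY u z) + (-(a / p)) * (z.2 * dX u z) := by
    funext z; field_simp; ring
  rw [e, integral_add ((int_yY hu).const_mul _) ((int_yX hu).const_mul _), integral_const_mul,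
    integral_const_mul, h2]
  linarith

/-- the basic bound -/
theorem T_base (h : IsH H) (hu : Test Rect u) (a p : ℝ) (ha : 0 < a)
    (hap : ∀ ξ : P2, |a * ξ.1 + p * ξ.2| ≤ H ξ) : (∫ z, u z) ^ 2 ≤ (1 / (15 * a ^ 2)) * En H u := by
  rw [id_A hu a p ha.ne']
  have hG : ∫ z in Rect, (z.1 / a) ^ 2 = 1 / (15 * a ^ 2) := by
    have := prod_strip (fun x => (x / a) ^ 2) (-(1/20)) (1/20) (by norm_num)
    unfold Rect
    rw [this]
    simp only [div_pow]
    rw [intervalIntegral.integral_div, integral_pow]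
    field_simp
    norm_num
  rw [← hG]
  refine dual_bound volume Rect Rect_meas _ (fun z => (z.1 / a) ^ 2) _ ?_ ?_ ?_ ?_ ?_ (h.int_en hu)
  · intro z hz
    obtain ⟨h1, h2⟩ := vanish_off hu hz
    rw [h1, h2]; simp
  · intro z; positivity
  · intro z _; positivity
  · intro z _
    rw [mul_pow, neg_sq]
    refine mul_le_mul_of_nonneg_left ?_ (by positivity)
    have := hap (dX u z, dY u z)
    rw [← sq_abs]
    exact pow_le_pow_left₀ (abs_nonneg _) this 2
  · exact int_strip (fun x => (x / a) ^ 2) (by fun_prop) _ _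

/-- case 1: steep direction -/
theorem T_steep (h : IsH H) (hu : Test Rect u) (a p : ℝ) (hp : (3 / 40) ^ 2 ≤ p ^ 2)
    (hap : ∀ ξ : P2, |a * ξ.1 + p * ξ.2| ≤ H ξ) : (∫ z, u z) ^ 2 ≤ (1 / 15) * (1 - H (0, 1) / 4) * En H u := by
  have hp0 : p ≠ 0 := by rintro rfl; norm_num at hp
  have hE : 0 ≤ En H u := integral_nonneg fun z => sq_nonneg _
  have hG : ∫ z in Rect, (z.2 / p) ^ 2 ≤ (1 / 15) * (4 / 9) := by
    have := setIntegral_prod_mul (μ := (volume : Measure ℝ)) (ν := (volume : Measure ℝ))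
      (fun _ : ℝ => (1:ℝ)) (fun y : ℝ => (y / p) ^ 2) (Ioo (-1) 1) (Ioo (-(1/20)) (1/20))
    simp only [one_mul] at this
    unfold Rect
    rw [Measure.volume_eq_prod, this, ← integral_Ioc_eq_integral_Ioo, ← integral_Ioc_eq_integral_Ioo,
      ← intervalIntegral.integral_of_le (by norm_num), ← intervalIntegral.integral_of_le (by norm_num)]
    simp only [div_pow]
    rw [intervalIntegral.integral_div, integral_pow]
    have hp2 : 0 < p ^ 2 := by positivity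
    have e : (∫ x in (-1:ℝ)..1, (1:ℝ)) * (((1 / 20) ^ (2 + 1) - (-(1 / 20)) ^ (2 + 1)) / ((2:ℕ) + 1) / p ^ 2) =
      (1 / 6000) / p ^ 2 := by
      simp; ring
    rw [e, div_le_iff₀ hp2]
    nlinarith
  rw [id_B hu a p hp0]
  have hd := dual_bound volume Rect Rect_meas (fun z : P2 => -(z.2 / p) * (a * dX u z + p * dY u z))
    (fun z => (z.2 / p) ^ 2) (fun z => H (dX u z, dY u z) ^ 2) ?_ ?_ ?_ ?_ ?_ (h.int_en hu)
  · refine hd.trans (mul_le_mul_of_nonneg_right ?_ hE)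
    have := h.h_le_one
    linarith
  · intro z hz
    obtain ⟨h1, h2⟩ := vanish_off hu hz
    simp only [h1, h2]; simp
  · intro z; positivity
  · intro z _; positivity
  · intro z _
    rw [mul_pow, neg_sq]
    refine mul_le_mul_of_nonneg_left ?_ (by positivity)
    have := hap (dX u z, dY u z)
    rw [← sq_abs]
    exact pow_le_pow_left₀ (abs_nonneg _) this 2
  · have h1 : IntegrableOn (fun z : P2 => (z.2 / p) ^ 2) (Icc (-1 : ℝ) 1 ×ˢ Icc (-(1/20)) (1/20)) := by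
      refine ContinuousOn.integrableOn_compact (isCompact_Icc.prod isCompact_Icc) ?_
      fun_prop
    exact h1.mono_set (Set.prod_mono Ioo_subset_Icc_self Ioo_subset_Icc_self)

end Pool.Agent.R223.Sem
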