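import Mathlib
import Pool.Agent.R223.Sem.TBound

set_option autoImplicit false
open MeasureTheory Filter Topology Metric Set

namespace Pool.Agent.R223.Sem

variable {H : P2 → ℝ} {Ω : Set P2} {u : P2 → ℝ}

theorem sq_le_of (_h : IsH H) (α β : ℝ) (hab : ∀ ξ : P2, |α * ξ.1 + β * ξ.2| ≤ H ξ) (c g : ℝ)
    (hc : c ^ 2 ≤ g) (ξ : P2) : (c * (α * ξ.1 + β * ξ.2)) ^ 2 ≤ g * H ξ ^ 2 := by
  have h1 := hab ξ
  have h2 : (α * ξ.1 + β * ξ.2) ^ 2 ≤ H ξ ^ 2 := by
    rw [← sq_abs]
    exact pow_le_pow_left₀ (abs_nonneg _) h1 2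
  rw [mul_pow]
  exact mul_le_mul hc h2 (sq_nonneg _) ((sq_nonneg c).trans hc)

theorem intK (θ a r : ℝ) (hr : 0 ≤ r) :
    ∫ y in (-1:ℝ)..1, (2 * θ * y / a + θ ^ 2) * max 0 (-(r * y)) = r * (-(2 * θ / (3 * a)) + θ ^ 2 / 2) := by
  have hc : Continuous fun y : ℝ => (2 * θ * y / a + θ ^ 2) * max 0 (-(r * y)) := by fun_prop
  rw [← intervalIntegral.integral_add_adjacent_intervals (b := 0) (hc.intervalIntegrable _ _)
    (hc.intervalIntegrable _ _)]
  have e1 : ∫ y in (-1:ℝ)..0, (2 * θ * y / a + θ ^ 2) * max 0 (-(r * y)) =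
      ∫ y in (-1:ℝ)..0, ((-(r * (2 * θ / a))) * y ^ 2 + (-(r * θ ^ 2)) * y) := by
    refine intervalIntegral.integral_congr ?_
    intro y hy
    rw [uIcc_of_le (by norm_num)] at hy
    simp only
    rw [max_eq_right (by nlinarith [hy.2])]
    ring
  have e2 : ∫ y in (0:ℝ)..1, (2 * θ * y / a + θ ^ 2) * max 0 (-(r * y)) = ∫ y in (0:ℝ)..1, (0:ℝ) := by
    refine intervalIntegral.integral_congr ?_
    intro y hy
    rw [uIcc_of_le (by norm_num)] at hy
    simp only
    rw [max_eq_left (by nlinarith [hy.1]), mul_zero]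
  rw [e1, e2, intervalIntegral.integral_add (Continuous.intervalIntegrable (by fun_prop) _ _)
    (Continuous.intervalIntegrable (by fun_prop) _ _), intervalIntegral.integral_const_mul,
    intervalIntegral.integral_const_mul, integral_pow, integral_id]
  simp
  ring

theorem intK' (θ a t σ : ℝ) (hσ : σ = 1 ∨ σ = -1) (ht : 0 ≤ σ * t) :
    ∫ x in (-1:ℝ)..1, (2 * θ * σ * x / a + θ ^ 2) * max 0 (-(t * x)) =
      (σ * t) * (-(2 * θ / (3 * a)) + θ ^ 2 / 2) := by
  rcases hσ with rfl | rfl
  · have := intK θ a t (by linarith)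
    rw [one_mul, ← this]
    refine intervalIntegral.integral_congr fun x _ => ?_
    ring_nf
  · have := intK θ a (-t) (by linarith)
    rw [neg_one_mul, ← this]
    have h2 := intervalIntegral.integral_comp_neg (a := (-1:ℝ)) (b := 1)
      (fun y => (2 * θ * y / a + θ ^ 2) * max 0 (-(-t * y)))
    rw [neg_neg] at h2
    rw [← h2]
    refine intervalIntegral.integral_congr fun x _ => ?_
    ring_nf

/-- case 2: the slanted direction dominates -/
theorem T_slant (h : IsH H) (hu : Test Rect u) (a p : ℝ) (ha : 0 < a) (hn : a ^ 2 + p ^ 2 = 1)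
    (hp : p ^ 2 ≤ (3 / 40) ^ 2) (hph : H (0, 1) < 2 * |p|)
    (hap : ∀ ξ : P2, |a * ξ.1 + p * ξ.2| ≤ H ξ) : (∫ z, u z) ^ 2 ≤ (1 / 15) * (1 - H (0, 1) / 4) * En H u := by
  have hE : 0 ≤ En H u := integral_nonneg fun z => sq_nonneg _
  have hh0 : 0 ≤ H (0, 1) := h.nonneg _
  have hp0 : 0 < |p| := by linarith
  have hpne : p ≠ 0 := abs_pos.1 hp0
  obtain ⟨σ, hσ, hσp⟩ : ∃ σ : ℝ, (σ = 1 ∨ σ = -1) ∧ σ * p = |p| := by
    rcases le_total 0 p with h0 | h0
    · exact ⟨1, Or.inl rfl, by rw [abs_of_nonneg h0]; ring⟩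
    · exact ⟨-1, Or.inr rfl, by rw [abs_of_nonpos h0]; ring⟩
  have hσ2 : σ ^ 2 = 1 := by rcases hσ with rfl | rfl <;> norm_num
  set t := p / a with ht
  have hσt : σ * t = |p| / a := by rw [ht, ← hσp]; ring
  have htp : 0 ≤ σ * t := by rw [hσt]; positivity
  have ht1 : |t| ≤ 1 / 10 := by
    rw [ht, abs_div, abs_of_pos ha, div_le_iff₀ ha]
    have h1 : p ^ 2 = |p| ^ 2 := (sq_abs p).symm
    have h2 : |p| ≤ 3 / 40 := by
      rw [h1] at hp
      exact le_of_sq_le_sq hp (by norm_num) |> fun h => h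
    nlinarith
  set θ := 2 / (3 * a) with hθ
  set P : Set P2 := {z | 1 / 20 < z.2 - t * z.1} with hP
  have hPm : MeasurableSet P := measurableSet_lt measurable_const (by fun_prop)
  -- the correction has zero integral
  have hz : ∫ z, P.indicator (fun z => a * dX u z + p * dY u z) z = 0 := by
    refine fub_shear t _ fun c => ?_
    obtain ⟨h1, h2, h3, -⟩ := sla hu t c
    have h4 := (slice_zero _ h1 h2).1
    simp only [h3] at h4
    by_cases hc : 1 / 20 < c
    · have e : ∀ x, P.indicator (fun z => a * dX u z + p * dY u z) (x, c + t * x) =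
          a * (dX u (x, c + t * x) + t * dY u (x, c + t * x)) := by
        intro x
        rw [indicator_of_mem]
        · rw [ht]; field_simp
        · simp only [hP, mem_ofPred_eq]; linarith
      simp only [e]
      rw [integral_const_mul, h4, mul_zero]
    · have e : ∀ x, P.indicator (fun z => a * dX u z + p * dY u z) (x, c + t * x) = 0 := by
        intro x
        rw [indicator_of_notMem]
        simp only [hP, mem_ofPred_eq]; linarith
      simp only [e, integral_zero]
  have hei : Integrable (fun z => a * dX u z + p * dY u z) := (hu.iX.const_mul a).add (hu.iY.const_mul p)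
  have hxi : Integrable (fun z : P2 => -(z.1 / a) * (a * dX u z + p * dY u z)) :=
    int_mul_cont _ (by fun_prop) ((continuous_const.mul hu.cdX).add (continuous_const.mul hu.cdY))
      ((hu.sdX.mul_left (f := fun _ => a)).add (hu.sdY.mul_left (f := fun _ => p)))
  have hid : ∫ z, u z = ∫ z : P2, (-(z.1 / a) + -(θ * σ) * P.indicator (fun _ => 1) z) *
      (a * dX u z + p * dY u z) := by
    have e : (fun z : P2 => (-(z.1 / a) + -(θ * σ) * P.indicator (fun _ => 1) z) *
      (a * dX u z + p * dY u z)) = fun z => -(z.1 / a) * (a * dX u z + p * dY u z) +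
        -(θ * σ) * P.indicator (fun z => a * dX u z + p * dY u z) z := by
      funext z
      by_cases hz : z ∈ P
      · rw [indicator_of_mem hz, indicator_of_mem hz]; ring
      · rw [indicator_of_notMem hz, indicator_of_notMem hz]; ring
    rw [e, integral_add hxi ((hei.indicator hPm).const_mul _), integral_const_mul, hz, ← id_A hu a p ha.ne']
    ring
  rw [hid]
  -- the weight
  have hGeq : ∀ z : P2, (-(z.1 / a) + -(θ * σ) * P.indicator (fun _ => (1:ℝ)) z) ^ 2 =
      (z.1 / a) ^ 2 + P.indicator (fun z => 2 * θ * σ * z.1 / a + θ ^ 2) z := by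
    intro z
    by_cases hz : z ∈ P
    · rw [indicator_of_mem hz, indicator_of_mem hz]
      have : (-(z.1 / a) + -(θ * σ) * 1) ^ 2 = (z.1 / a) ^ 2 + (2 * θ * σ * z.1 / a + θ ^ 2 * σ ^ 2) := by ring
      rw [this, hσ2, mul_one]
    · rw [indicator_of_notMem hz, indicator_of_notMem hz]; ring
  have hi1 : IntegrableOn (fun z : P2 => (z.1 / a) ^ 2) Rect := int_strip (fun x => (x / a) ^ 2) (by fun_prop) _ _
  have hi2' : IntegrableOn (fun z : P2 => 2 * θ * σ * z.1 / a + θ ^ 2) Rect :=
    int_strip (fun x => 2 * θ * σ * x / a + θ ^ 2) (by fun_prop) _ _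
  have hi2 : IntegrableOn (P.indicator (fun z : P2 => 2 * θ * σ * z.1 / a + θ ^ 2)) Rect := hi2'.indicator hPm
  have hA : ∫ z in Rect, (z.1 / a) ^ 2 = 1 / (15 * a ^ 2) := by
    have := prod_strip (fun x => (x / a) ^ 2) (-(1/20)) (1/20) (by norm_num)
    unfold Rect
    rw [this]
    simp only [div_pow]
    rw [intervalIntegral.integral_div, integral_pow]
    field_simp
    norm_num
  have hB : ∫ z in Rect, P.indicator (fun z : P2 => 2 * θ * σ * z.1 / a + θ ^ 2) z =
      (σ * t) * (-(2 * θ / (3 * a)) + θ ^ 2 / 2) := by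
    rw [← intK' θ a t σ hσ htp]
    unfold Rect at hi2 ⊢
    rw [Measure.volume_eq_prod] at hi2 ⊢
    rw [setIntegral_prod _ hi2, intervalIntegral.integral_of_le (by norm_num), integral_Ioc_eq_integral_Ioo]
    refine setIntegral_congr_fun measurableSet_Ioo ?_
    intro x hx
    simp only
    have e : ∀ y : ℝ, P.indicator (fun z : P2 => 2 * θ * σ * z.1 / a + θ ^ 2) (x, y) =
        (Ioi (1 / 20 + t * x)).indicator (fun _ => 2 * θ * σ * x / a + θ ^ 2) y := by
      intro y
      by_cases hy : 1 / 20 < y - t * x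
      · rw [indicator_of_mem, indicator_of_mem]
        · simp only [mem_Ioi]; linarith
        · simpa only [hP, mem_ofPred_eq] using hy
      · rw [indicator_of_notMem, indicator_of_notMem]
        · simp only [mem_Ioi]; linarith
        · simpa only [hP, mem_ofPred_eq] using hy
    simp only [e]
    rw [integral_indicator measurableSet_Ioi, Measure.restrict_restrict measurableSet_Ioi, setIntegral_const,
      smul_eq_mul, mul_comm]
    congr 1
    have htx : |t * x| ≤ 1 / 10 := by
      rw [abs_mul]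
      have : |x| ≤ 1 := abs_le.2 ⟨hx.1.le, hx.2.le⟩
      nlinarith [abs_nonneg t, abs_nonneg x]
    rw [abs_le] at htx
    by_cases hc : 0 ≤ t * x
    · have : Ioi (1 / 20 + t * x) ∩ Ioo (-(1 / 20)) (1 / 20) = ∅ := by
        ext y; simp only [mem_inter_iff, mem_Ioi, mem_Ioo, mem_empty_iff_false, iff_false]
        intro h; linarith [h.1, h.2.2]
      rw [this, max_eq_left (by linarith)]; simp
    · have : Ioi (1 / 20 + t * x) ∩ Ioo (-(1 / 20)) (1 / 20) = Ioo (1 / 20 + t * x) (1 / 20) := by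
        ext y; simp only [mem_inter_iff, mem_Ioi, mem_Ioo]
        constructor
        · intro h; exact ⟨h.1, h.2.2⟩
        · intro h; exact ⟨h.1, by linarith, h.2⟩
      rw [this, max_eq_right (by linarith), Measure.real, Real.volume_Ioo, ENNReal.toReal_ofReal (by linarith)]
      ring
  have hG : ∫ z in Rect, (-(z.1 / a) + -(θ * σ) * P.indicator (fun _ => (1:ℝ)) z) ^ 2 ≤
      (1 / 15) * (1 - H (0, 1) / 4) := by
    simp only [hGeq]
    rw [integral_add hi1 hi2, hA, hB, hσt]
    have e : 1 / (15 * a ^ 2) + |p| / a * (-(2 * θ / (3 * a)) + θ ^ 2 / 2) =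
        (1 / 15 - (2 / 9) * (|p| / a)) / a ^ 2 := by
      rw [hθ]; field_simp; ring
    rw [e, div_le_iff₀ (by positivity)]
    have h1 : p ^ 2 = |p| ^ 2 := (sq_abs p).symm
    have h2 : |p| ≤ 3 / 40 := by
      rw [h1] at hp
      exact le_of_sq_le_sq hp (by norm_num)
    have h3 : a ≤ 1 := by nlinarith
    have h4 : |p| ≤ |p| / a := by
      rw [le_div_iff₀ ha]; nlinarith
    have h5 : a ^ 2 = 1 - |p| ^ 2 := by rw [← h1]; linarith
    rw [h5]
    nlinarith
  have hd := dual_bound volume Rect Rect_meas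
    (fun z : P2 => (-(z.1 / a) + -(θ * σ) * P.indicator (fun _ => (1:ℝ)) z) * (a * dX u z + p * dY u z))
    (fun z => (-(z.1 / a) + -(θ * σ) * P.indicator (fun _ => (1:ℝ)) z) ^ 2)
    (fun z => H (dX u z, dY u z) ^ 2) ?_ ?_ ?_ ?_ ?_ (h.int_en hu)
  · exact hd.trans (mul_le_mul_of_nonneg_right hG hE)
  · intro z hz
    obtain ⟨h1, h2⟩ := vanish_off hu hz
    simp only [h1, h2]; simp
  · intro z; positivity
  · intro z _; positivity
  · intro z _
    exact sq_le_of h a p hap _ _ le_rfl (dX u z, dY u z)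
  · simp only [hGeq]
    exact hi1.add hi2

end Pool.Agent.R223.Sem
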