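import Mathlib
import Pool.Agent.R223.Sem.TBound2

set_option autoImplicit false
open MeasureTheory Filter Topology Metric Set

namespace Pool.Agent.R223.Sem

variable {H : P2 → ℝ} {Ω : Set P2} {u : P2 → ℝ}

/-- identities on the strip `{y > y₀}` -/
theorem strip_ids (hu : Test Ω u) (y0 : ℝ) :
    (∫ z, {z : P2 | y0 < z.2}.indicator (fun z => u z + z.1 * dX u z) z = 0) ∧
    (∫ z, {z : P2 | y0 < z.2}.indicator (fun z => (z.2 - y0) * dX u z) z = 0) ∧
    (∫ z, {z : P2 | y0 < z.2}.indicator (fun z => u z + (z.2 - y0) * dY u z) z = 0) := by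
  refine ⟨fub_x _ fun y => ?_, fub_x _ fun y => ?_, fub_y _ fun x => ?_⟩
  · obtain ⟨h1, h2, h3, -⟩ := hor hu y
    have h4 := (slice_zero _ h1 h2).2
    simp only [h3] at h4
    by_cases hy : y0 < y
    · have e : ∀ x, {z : P2 | y0 < z.2}.indicator (fun z => u z + z.1 * dX u z) (x, y) =
          u (x, y) + x * dX u (x, y) := fun x => indicator_of_mem (by exact hy) _
      simp only [e]; exact h4
    · have e : ∀ x, {z : P2 | y0 < z.2}.indicator (fun z => u z + z.1 * dX u z) (x, y) = 0 :=
        fun x => indicator_of_notMem (by exact hy) _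
      simp only [e, integral_zero]
  · obtain ⟨h1, h2, h3, -⟩ := hor hu y
    have h4 := (slice_zero _ h1 h2).1
    simp only [h3] at h4
    by_cases hy : y0 < y
    · have e : ∀ x, {z : P2 | y0 < z.2}.indicator (fun z => (z.2 - y0) * dX u z) (x, y) =
          (y - y0) * dX u (x, y) := fun x => indicator_of_mem (by exact hy) _
      simp only [e]
      rw [integral_const_mul, h4, mul_zero]
    · have e : ∀ x, {z : P2 | y0 < z.2}.indicator (fun z => (z.2 - y0) * dX u z) (x, y) = 0 :=
        fun x => indicator_of_notMem (by exact hy) _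
      simp only [e, integral_zero]
  · obtain ⟨h1, h2, h3⟩ := ver hu x
    have h4 := half_zero _ h1 h2 y0
    simp only [h3] at h4
    have e : ∀ y, {z : P2 | y0 < z.2}.indicator (fun z => u z + (z.2 - y0) * dY u z) (x, y) =
        (Ioi y0).indicator (fun y => u (x, y) + (y - y0) * dY u (x, y)) y := by
      intro y
      by_cases hy : y0 < y
      · rw [indicator_of_mem (by exact hy), indicator_of_mem (by exact hy)]
      · rw [indicator_of_notMem (by exact hy), indicator_of_notMem (by exact hy)]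
    simp only [e]
    rw [integral_indicator measurableSet_Ioi]
    exact h4

/-- case 3: the boundary layer -/
theorem T_layer (h : IsH H) (hu : Test Rect u) (a p b : ℝ) (ha : 0 < a) (hn : a ^ 2 + p ^ 2 = 1)
    (hp : p ^ 2 ≤ (3 / 40) ^ 2) (hh : 0 < H (0, 1)) (hph : 2 * |p| ≤ H (0, 1)) (hb : |b| ≤ 1)
    (hap : ∀ ξ : P2, |a * ξ.1 + p * ξ.2| ≤ H ξ)
    (hbh : ∀ ξ : P2, |b * ξ.1 + H (0, 1) * ξ.2| ≤ H ξ) :
    (∫ z, u z) ^ 2 ≤ (1 / 15) * (1 - H (0, 1) / 4) * En H u := by
  have hE : 0 ≤ En H u := integral_nonneg fun z => sq_nonneg _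
  have hh1 := h.h_le_one
  set η := H (0, 1) with hη
  set y0 : ℝ := 1 / 20 - η / 10 with hy0
  set L : Set P2 := {z | y0 < z.2} with hL
  have hLm : MeasurableSet L := measurableSet_lt measurable_const measurable_snd
  set g : ℝ := -(p / (η * a)) with hg
  set C : ℝ := (1 + b * g) / η with hC
  have hg1 : |g| ≤ 1 / (2 * a) := by
    rw [hg, abs_neg, abs_div, abs_of_pos (by positivity : 0 < η * a), div_le_div_iff₀ (by positivity) (by positivity)]
    nlinarith
  have hCη : C * η = 1 + b * g := by rw [hC]; field_simp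
  have hbg : |b * g| ≤ 1 / (2 * a) := by
    rw [abs_mul]
    calc |b| * |g| ≤ 1 * |g| := mul_le_mul_of_nonneg_right hb (abs_nonneg _)
      _ ≤ _ := by rw [one_mul]; exact hg1
  obtain ⟨s1, s2, s3⟩ := strip_ids hu y0
  rw [← hL] at s1 s2 s3
  have i1 : Integrable (L.indicator (fun z => u z + z.1 * dX u z)) := (hu.iu.add (int_xX hu)).indicator hLm
  have i2 : Integrable (L.indicator (fun z : P2 => (z.2 - y0) * dX u z)) :=
    (int_mul_cont _ (by fun_prop) hu.cdX hu.sdX).indicator hLm
  have i3' : Integrable (fun z : P2 => (z.2 - y0) * dY u z) := int_mul_cont _ (by fun_prop) hu.cdY hu.sdY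
  have i3 : Integrable (L.indicator (fun z : P2 => u z + (z.2 - y0) * dY u z)) := (hu.iu.add i3').indicator hLm
  have hxi : Integrable (fun z : P2 => -(z.1 / a) * (a * dX u z + p * dY u z)) :=
    int_mul_cont _ (by fun_prop) ((continuous_const.mul hu.cdX).add (continuous_const.mul hu.cdY))
      ((hu.sdX.mul_left (f := fun _ => a)).add (hu.sdY.mul_left (f := fun _ => p)))
  -- the field
  set S : P2 → ℝ := fun z => if z ∈ L then (-C * (z.2 - y0) + z.1 * g) * (b * dX u z + η * dY u z)
    else -(z.1 / a) * (a * dX u z + p * dY u z) with hS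
  have hSeq : ∀ z, S z = -(z.1 / a) * (a * dX u z + p * dY u z) +
      ((1 + b * g) * L.indicator (fun z => u z + z.1 * dX u z) z +
       (-(C * b)) * L.indicator (fun z : P2 => (z.2 - y0) * dX u z) z +
       (-(C * η)) * L.indicator (fun z : P2 => u z + (z.2 - y0) * dY u z) z) := by
    intro z
    have hgη : g * η = -(p / a) := by rw [hg]; field_simp
    by_cases hz : z ∈ L
    · simp only [hS, if_pos hz, indicator_of_mem hz]
      have e1 : (-C * (z.2 - y0) + z.1 * g) * (b * dX u z + η * dY u z) =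
        -(C * b) * ((z.2 - y0) * dX u z) - (C * η) * ((z.2 - y0) * dY u z) + (b * g) * (z.1 * dX u z) +
          (g * η) * (z.1 * dY u z) := by ring
      have e2 : -(z.1 / a) * (a * dX u z + p * dY u z) = -(z.1 * dX u z) - (p / a) * (z.1 * dY u z) := by
        field_simp; ring
      rw [e1, e2, hgη, hCη]
      ring
    · simp only [hS, if_neg hz, indicator_of_notMem hz]
      ring
  have hid : ∫ z, u z = ∫ z, S z := by
    simp only [hSeq]
    have j1 : Integrable (fun z => (1 + b * g) * L.indicator (fun z => u z + z.1 * dX u z) z) :=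
      i1.const_mul _
    have j2 : Integrable (fun z => (-(C * b)) * L.indicator (fun z : P2 => (z.2 - y0) * dX u z) z) :=
      i2.const_mul _
    have j3 : Integrable (fun z => (-(C * η)) * L.indicator (fun z : P2 => u z + (z.2 - y0) * dY u z) z) :=
      i3.const_mul _
    have j12 : Integrable (fun z => (1 + b * g) * L.indicator (fun z => u z + z.1 * dX u z) z +
      (-(C * b)) * L.indicator (fun z : P2 => (z.2 - y0) * dX u z) z) := j1.add j2
    have j123 : Integrable (fun z => (1 + b * g) * L.indicator (fun z => u z + z.1 * dX u z) z +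
      (-(C * b)) * L.indicator (fun z : P2 => (z.2 - y0) * dX u z) z +
      (-(C * η)) * L.indicator (fun z : P2 => u z + (z.2 - y0) * dY u z) z) := j12.add j3
    rw [integral_add hxi j123, integral_add j12 j3, integral_add j1 j2, integral_const_mul,
      integral_const_mul, integral_const_mul, s1, s2, s3, ← id_A hu a p ha.ne']
    ring
  rw [hid]
  -- the weight
  set G : P2 → ℝ := fun z => z.1 ^ 2 / a ^ 2 + (L.indicator (fun z => (-(z.1 ^ 2 / 2) + 9 / 200) / a ^ 2) z) with hG
  have hi1 : IntegrableOn (fun z : P2 => z.1 ^ 2 / a ^ 2) Rect :=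
    int_strip (fun x => x ^ 2 / a ^ 2) (by fun_prop) _ _
  have hi2' : IntegrableOn (fun z : P2 => (-(z.1 ^ 2 / 2) + 9 / 200) / a ^ 2) Rect :=
    int_strip (fun x => (-(x ^ 2 / 2) + 9 / 200) / a ^ 2) (by fun_prop) _ _
  have hi2 : IntegrableOn (L.indicator (fun z : P2 => (-(z.1 ^ 2 / 2) + 9 / 200) / a ^ 2)) Rect :=
    hi2'.indicator hLm
  have hA : ∫ z in Rect, z.1 ^ 2 / a ^ 2 = 1 / (15 * a ^ 2) := by
    have := prod_strip (fun x => x ^ 2 / a ^ 2) (-(1/20)) (1/20) (by norm_num)
    unfold Rect
    rw [this, intervalIntegral.integral_div, integral_pow]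
    field_simp
    norm_num
  have hB : ∫ z in Rect, L.indicator (fun z : P2 => (-(z.1 ^ 2 / 2) + 9 / 200) / a ^ 2) z =
      -((73 / 300) * (η / 10)) / a ^ 2 := by
    rw [integral_indicator hLm, Measure.restrict_restrict hLm]
    have e : L ∩ Rect = Ioo (-1 : ℝ) 1 ×ˢ Ioo y0 (1 / 20) := by
      ext z
      simp only [hL, Rect, mem_inter_iff, mem_ofPred_eq, mem_prod, mem_Ioo]
      constructor
      · intro hz; exact ⟨hz.2.1, hz.1, hz.2.2.2⟩
      · intro hz; refine ⟨hz.2.1, hz.1, ?_, hz.2.2⟩
        have := hz.2.1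
        rw [hy0] at this
        linarith
    rw [e]
    have := prod_strip (fun x => (-(x ^ 2 / 2) + 9 / 200) / a ^ 2) y0 (1/20) (by rw [hy0]; linarith)
    rw [this, intervalIntegral.integral_div, intervalIntegral.integral_add
      (Continuous.intervalIntegrable (by fun_prop) _ _) (Continuous.intervalIntegrable (by fun_prop) _ _),
      intervalIntegral.integral_neg, intervalIntegral.integral_div, integral_pow]
    simp only [intervalIntegral.integral_const, smul_eq_mul]
    rw [hy0]
    field_simp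
    norm_num
    ring
  have hGint : ∫ z in Rect, G z ≤ (1 / 15) * (1 - η / 4) := by
    simp only [hG]
    rw [integral_add hi1 hi2, hA, hB]
    have e : 1 / (15 * a ^ 2) + -((73 / 300) * (η / 10)) / a ^ 2 = (1 / 15 - 73 * η / 3000) / a ^ 2 := by
      field_simp; ring
    rw [e, div_le_iff₀ (by positivity)]
    have h1 : p ^ 2 = |p| ^ 2 := (sq_abs p).symm
    have h2 : |p| ≤ 3 / 40 := by
      rw [h1] at hp
      exact le_of_sq_le_sq hp (by norm_num)
    have h5 : a ^ 2 = 1 - |p| ^ 2 := by rw [← h1]; linarith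
    rw [h5]
    nlinarith [abs_nonneg p]
  have hd := dual_bound volume Rect Rect_meas S G (fun z => H (dX u z, dY u z) ^ 2) ?_ ?_ ?_ ?_ ?_ (h.int_en hu)
  · exact hd.trans (mul_le_mul_of_nonneg_right hGint hE)
  · intro z hz
    obtain ⟨h1, h2⟩ := vanish_off hu hz
    simp only [hS, h1, h2]; simp
  · intro z; positivity
  · intro z _
    simp only [hG]
    by_cases hz : z ∈ L
    · rw [indicator_of_mem hz]
      have : z.1 ^ 2 / a ^ 2 + (-(z.1 ^ 2 / 2) + 9 / 200) / a ^ 2 = (z.1 ^ 2 / 2 + 9 / 200) / a ^ 2 := by ring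
      rw [this]; positivity
    · rw [indicator_of_notMem hz]; positivity
  · intro z hzR
    by_cases hz : z ∈ L
    · simp only [hS, hG, if_pos hz, indicator_of_mem hz]
      refine sq_le_of h b η hbh _ _ ?_ (dX u z, dY u z)
      have e : z.1 ^ 2 / a ^ 2 + (-(z.1 ^ 2 / 2) + 9 / 200) / a ^ 2 = (z.1 ^ 2 / 2 + 9 / 200) / a ^ 2 := by ring
      rw [e]
      have k1 : (-C * (z.2 - y0) + z.1 * g) ^ 2 ≤ 2 * (C * (z.2 - y0)) ^ 2 + 2 * (z.1 * g) ^ 2 := by
        nlinarith [sq_nonneg (C * (z.2 - y0) + z.1 * g)]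
      have k2 : (z.1 * g) ^ 2 ≤ z.1 ^ 2 / (4 * a ^ 2) := by
        rw [mul_pow]
        have : g ^ 2 ≤ (1 / (2 * a)) ^ 2 := by
          rw [← sq_abs]; exact pow_le_pow_left₀ (abs_nonneg _) hg1 2
        have e3 : (1 / (2 * a)) ^ 2 = 1 / (4 * a ^ 2) := by field_simp; norm_num
        rw [e3] at this
        calc z.1 ^ 2 * g ^ 2 ≤ z.1 ^ 2 * (1 / (4 * a ^ 2)) := mul_le_mul_of_nonneg_left this (sq_nonneg _)
          _ = _ := by ring
      have k3 : (C * (z.2 - y0)) ^ 2 ≤ 9 / (400 * a ^ 2) := by
        have hzy : 0 < z.2 - y0 ∧ z.2 - y0 ≤ η / 10 := by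
          have h1 : y0 < z.2 := hz
          have h2 : z.2 < 1 / 20 := hzR.2.2
          rw [hy0] at h1 ⊢
          constructor <;> linarith
        have q1 : |C * (z.2 - y0)| ≤ (3 / 2 / a) / 10 := by
          rw [abs_mul, abs_of_pos hzy.1]
          have : |C| * (z.2 - y0) ≤ |C| * (η / 10) := mul_le_mul_of_nonneg_left hzy.2 (abs_nonneg _)
          refine this.trans ?_
          have e4 : |C| * (η / 10) = |C * η| / 10 := by rw [abs_mul, abs_of_pos hh]; ring
          rw [e4, hCη]
          refine div_le_div_of_nonneg_right ?_ (by norm_num)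
          refine (abs_add_le _ _).trans ?_
          rw [abs_one]
          have h3 : a ≤ 1 := by nlinarith
          have h4 : (1:ℝ) ≤ 1 / a := by rw [le_div_iff₀ ha]; linarith
          have e5 : (3:ℝ) / 2 / a = 1 / a + 1 / (2 * a) := by field_simp; norm_num
          rw [e5]; linarith
        rw [← sq_abs]
        refine (pow_le_pow_left₀ (abs_nonneg _) q1 2).trans_eq ?_
        field_simp
        norm_num
      have e6 : (z.1 ^ 2 / 2 + 9 / 200) / a ^ 2 = 2 * (9 / (400 * a ^ 2)) + 2 * (z.1 ^ 2 / (4 * a ^ 2)) := by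
        field_simp; ring
      rw [e6]; linarith
    · simp only [hS, hG, if_neg hz, indicator_of_notMem hz, add_zero]
      refine sq_le_of h a p hap _ _ ?_ (dX u z, dY u z)
      rw [neg_sq, div_pow]
  · exact hi1.add hi2

/-- the torsion bound, linear gain in `H(e₂)` -/
theorem T_main (h : IsH H) (hu : Test Rect u) :
    (∫ z, u z) ^ 2 ≤ (1 / 15) * (1 - H (0, 1) / 4) * En H u := by
  obtain ⟨a, p, hn, ha, hap⟩ := h.dir
  obtain ⟨b, hb, hbh⟩ := h.vert
  by_cases hp : (3 / 40) ^ 2 ≤ p ^ 2
  · exact T_steep h hu a p hp hap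
  · push Not at hp
    have ha' : 0 < a := by
      rcases ha.eq_or_lt with h0 | h0
      · rw [← h0] at hn; nlinarith
      · exact h0
    by_cases hph : H (0, 1) < 2 * |p|
    · exact T_slant h hu a p ha' hn hp.le hph hap
    · push Not at hph
      rcases (h.nonneg (0, 1)).eq_or_lt with h0 | h0
      · have hp0 : p = 0 := by
          rw [← h0] at hph
          have := abs_nonneg p
          exact abs_eq_zero.1 (by linarith)
        rw [hp0] at hn
        have := T_base h hu a p ha' hap
        have e : a ^ 2 = 1 := by linarith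
        rw [e] at this
        rw [← h0]
        simpa using this
      · exact T_layer h hu a p b ha' hn hp.le h0 hph hb hap hbh

end Pool.Agent.R223.Sem
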