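import Mathlib
import Pool.Agent.R223.Sem.TBound3
import Pool.Agent.R223.Sem.Cantor
import Pool.Agent.R223.Sem.Approx

set_option autoImplicit false
open MeasureTheory Filter Topology Metric Set

namespace Pool.Agent.R223.Sem

/-- the obstacle -/
noncomputable def Kset : Set P2 := range (fun c : ℕ → Fin 4 => ((Wg c, (1 / 40) * Dg c) : P2))

noncomputable def Om : Set P2 := Rect \ Kset

theorem Kset_compact : IsCompact Kset :=
  isCompact_range (continuous_Wg.prodMk (continuous_const.mul continuous_Dg))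

theorem Om_open : IsOpen Om := (isOpen_Ioo.prod isOpen_Ioo).sdiff Kset_compact.isClosed

theorem Om_sub : Om ⊆ Rect := sdiff_subset

variable {u : P2 → ℝ}

theorem Test.mono {A B : Set P2} (hu : Test A u) (h : A ⊆ B) : Test B u := ⟨hu.1, hu.2.1, hu.2.2.trans h⟩

theorem base1d (v : ℝ → ℝ) (hv : ContDiff ℝ 1 v) (hc : HasCompactSupport v)
    (hs : tsupport v ⊆ Ioo (-1) 1) : (∫ x, v x) ^ 2 ≤ (2 / 3) * ∫ x, deriv v x ^ 2 := by
  have hvi : Integrable v := hv.continuous.integrable_of_hasCompactSupport hc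
  have hxi : Integrable (fun x => x * deriv v x) :=
    (continuous_id.mul (contDiff_deriv_cont hv)).integrable_of_hasCompactSupport hc.deriv.mul_left
  have h1 := (slice_zero v hv hc).2
  rw [integral_add hvi hxi] at h1
  have h2 : ∫ x, v x = ∫ x, (-x) * deriv v x := by
    have e : (fun x => (-x) * deriv v x) = fun x => -(x * deriv v x) := by funext x; ring
    rw [e, integral_neg]; linarith
  rw [h2]
  have hI : ∫ x in Icc (-1:ℝ) 1, x ^ 2 = 2 / 3 := by
    rw [integral_Icc_eq_integral_Ioc, ← intervalIntegral.integral_of_le (by norm_num), integral_pow]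
    norm_num
  rw [← hI]
  refine dual_bound volume (Icc (-1:ℝ) 1) measurableSet_Icc _ (fun x => x ^ 2)
    (fun x => deriv v x ^ 2) ?_ (fun x => sq_nonneg _) (fun x _ => sq_nonneg _) ?_ ?_
    (int_sq (contDiff_deriv_cont hv) hc.deriv)
  · intro x hx
    have h2 : x ∉ tsupport (deriv v) := fun h => hx (Ioo_subset_Icc_self (hs (tsupport_deriv_subset h)))
    simp [image_eq_zero_of_notMem_tsupport h2]
  · intro x _
    have e : ((-x) * deriv v x) ^ 2 = x ^ 2 * deriv v x ^ 2 := by ring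
    exact e.le
  · exact (continuous_pow 2).continuousOn.integrableOn_compact isCompact_Icc

theorem slice_in_rect (hu : Test Rect u) (y : ℝ) : tsupport (fun x => u (x, y)) ⊆ Ioo (-1) 1 := by
  obtain ⟨-, -, -, h⟩ := hor hu y
  intro x hx
  exact (hu.2.2 (h hx)).1

/-- the obstacle makes the torsion in the horizontal direction strictly smaller -/
theorem T_pinned (hu : Test Om u) : (∫ z, u z) ^ 2 ≤ (1 / 18) * ∫ z, dX u z ^ 2 := by
  classical
  have huR : Test Rect u := hu.mono Om_sub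
  set M : ℝ → ℝ := fun y => if y ∈ Icc (0:ℝ) (1 / 40) then 2 / 9 else 2 / 3 with hM
  have hiu : Integrable u (volume.prod volume) := by rw [← Measure.volume_eq_prod]; exact hu.iu
  have hiq : Integrable (fun z => dX u z ^ 2) (volume.prod volume) := by
    rw [← Measure.volume_eq_prod]; exact int_sq2 hu.cdX hu.sdX
  have e1 : ∫ z, u z = ∫ y, ∫ x, u (x, y) := by
    rw [Measure.volume_eq_prod, integral_prod_symm _ hiu]
  have e2 : ∫ z, dX u z ^ 2 = ∫ y, ∫ x, dX u (x, y) ^ 2 := by
    rw [Measure.volume_eq_prod, integral_prod_symm _ hiq]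
  have hMm : Measurable M := Measurable.ite measurableSet_Icc measurable_const measurable_const
  have hMb : ∀ y, 0 ≤ M y ∧ M y ≤ 2 / 3 := by
    intro y; simp only [hM]; split_ifs <;> norm_num
  have hMi : IntegrableOn M (Ioo (-(1 / 20)) (1 / 20)) := by
    refine Measure.integrableOn_of_bounded (M := 2 / 3) (by simp) hMm.aestronglyMeasurable ?_
    refine Eventually.of_forall fun y => ?_
    rw [Real.norm_eq_abs, abs_of_nonneg (hMb y).1]; exact (hMb y).2
  have hMint : ∫ y in Ioo (-(1 / 20) : ℝ) (1 / 20), M y = 1 / 18 := by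
    rw [← integral_Ioc_eq_integral_Ioo]
    have hMi' : IntegrableOn M (Ioc (-(1 / 20)) (1 / 20)) := by
      refine Measure.integrableOn_of_bounded (M := 2 / 3) (by simp) hMm.aestronglyMeasurable ?_
      refine Eventually.of_forall fun y => ?_
      rw [Real.norm_eq_abs, abs_of_nonneg (hMb y).1]; exact (hMb y).2
    have eM : ∀ y, M y = 2 / 3 + (Icc (0:ℝ) (1 / 40)).indicator (fun _ => -(4 / 9)) y := by
      intro y
      by_cases hy : y ∈ Icc (0:ℝ) (1 / 40)
      · simp only [hM, if_pos hy, indicator_of_mem hy]; norm_num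
      · simp only [hM, if_neg hy, indicator_of_notMem hy]; norm_num
    simp only [eM]
    have q1 : IntegrableOn (fun _ : ℝ => (2 / 3 : ℝ)) (Ioc (-(1 / 20)) (1 / 20)) :=
      integrableOn_const (by simp)
    have q2 : IntegrableOn ((Icc (0:ℝ) (1 / 40)).indicator (fun _ : ℝ => (-(4 / 9) : ℝ))) (Ioc (-(1 / 20)) (1 / 20)) :=
      IntegrableOn.indicator (integrableOn_const (by simp)) measurableSet_Icc
    rw [integral_add q1 q2,
      integral_indicator measurableSet_Icc, Measure.restrict_restrict measurableSet_Icc]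
    have e3 : Icc (0:ℝ) (1 / 40) ∩ Ioc (-(1 / 20)) (1 / 20) = Icc (0:ℝ) (1 / 40) := by
      rw [inter_eq_left]
      intro y hy; constructor <;> linarith [hy.1, hy.2]
    rw [e3, setIntegral_const, setIntegral_const, Measure.real, Measure.real, Real.volume_Ioc, Real.volume_Icc,
      ENNReal.toReal_ofReal (by norm_num), ENNReal.toReal_ofReal (by norm_num)]
    norm_num
  rw [e1, e2, ← hMint]
  refine dual_bound volume (Ioo (-(1 / 20) : ℝ) (1 / 20)) measurableSet_Ioo (fun y => ∫ x, u (x, y)) M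
    (fun y => ∫ x, dX u (x, y) ^ 2) ?_ (fun y => integral_nonneg fun x => sq_nonneg _)
    (fun y _ => (hMb y).1) ?_ hMi hiq.integral_prod_right
  · intro y hy
    have : ∀ x, u (x, y) = 0 := by
      intro x
      refine image_eq_zero_of_notMem_tsupport fun h => hy ?_
      exact (huR.2.2 h).2
    simp [this]
  · intro y _
    obtain ⟨h1, h2, h3, -⟩ := hor hu y
    have h4 := slice_in_rect huR y
    by_cases hy : y ∈ Icc (0:ℝ) (1 / 40)
    · simp only [hM, if_pos hy]
      obtain ⟨c, hc⟩ := surj_Dg (40 * y) (by linarith [hy.1]) (by linarith [hy.2])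
      have hK : ((Wg c, y) : P2) ∈ Kset := ⟨c, by
        show ((Wg c, (1 / 40) * Dg c) : P2) = (Wg c, y)
        rw [hc]; congr 1; ring⟩
      have hz : u (Wg c, y) = 0 :=
        image_eq_zero_of_notMem_tsupport fun h => (hu.2.2 h).2 hK
      have := pinned _ h1 h2 h4 (Wg c) (Wg_mem c).1 (Wg_mem c).2 hz
      simpa only [h3] using this
    · simp only [hM, if_neg hy]
      have := base1d _ h1 h2 h4
      simpa only [h3] using this

/-- lower bound for the eigenvalue in direction `(a,p)` -/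
theorem lam_lower (hu : Test Rect u) (a p : ℝ) (ha : a ≠ 0) :
    a ^ 2 * (Real.pi ^ 2 / 4) * ∫ z, u z ^ 2 ≤ ∫ z, (a * dX u z + p * dY u z) ^ 2 := by
  set t := p / a with ht
  have hc1 : Continuous (fun z => dX u z + t * dY u z) := hu.cdX.add (continuous_const.mul hu.cdY)
  have hc2 : HasCompactSupport (fun z => dX u z + t * dY u z) :=
    hu.sdX.add (hu.sdY.mul_left (f := fun _ => t))
  have e1 : ∫ z, (a * dX u z + p * dY u z) ^ 2 = a ^ 2 * ∫ z, (dX u z + t * dY u z) ^ 2 := by
    rw [← integral_const_mul]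
    congr 1; funext z
    rw [ht]; field_simp
  rw [e1, mul_assoc]
  refine mul_le_mul_of_nonneg_left ?_ (sq_nonneg a)
  rw [shear_iter t (fun z => u z ^ 2) (hu.cont.pow 2) (cs_sq hu.2.1),
    shear_iter t (fun z => (dX u z + t * dY u z) ^ 2) (hc1.pow 2) (cs_sq hc2), ← integral_const_mul]
  refine integral_mono ((shear_inner_int t (fun z => u z ^ 2) (hu.cont.pow 2) (cs_sq hu.2.1)).const_mul _)
    (shear_inner_int t (fun z => (dX u z + t * dY u z) ^ 2) (hc1.pow 2) (cs_sq hc2)) ?_
  intro c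
  obtain ⟨h1, h2, h3, h4⟩ := sla hu t c
  have h5 : tsupport (fun x => u (x, c + t * x)) ⊆ Ioo (-1) 1 := by
    intro x hx
    exact (hu.2.2 (h4 hx)).1
  have := wirtinger _ h1 h2 h5
  simpa only [h3] using this

/-- product test functions -/
theorem prod_test (s ψ : ℝ → ℝ) (hs : ContDiff ℝ (⊤ : ℕ∞) s) (hs2 : HasCompactSupport s)
    (hψ : ContDiff ℝ (⊤ : ℕ∞) ψ) (hψ2 : HasCompactSupport ψ) (A : Set P2)
    (hA : tsupport s ×ˢ tsupport ψ ⊆ A) : Test A (fun z => s z.1 * ψ z.2) ∧
    (∀ z, dX (fun z : P2 => s z.1 * ψ z.2) z = deriv s z.1 * ψ z.2) ∧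
    (∀ z, dY (fun z : P2 => s z.1 * ψ z.2) z = s z.1 * deriv ψ z.2) := by
  have hsub : tsupport (fun z : P2 => s z.1 * ψ z.2) ⊆ tsupport s ×ˢ tsupport ψ := by
    refine closure_minimal ?_ ((isClosed_tsupport s).prod (isClosed_tsupport ψ))
    intro z hz
    refine ⟨subset_tsupport _ fun h => hz ?_, subset_tsupport _ fun h => hz ?_⟩
    · simp only [h, zero_mul]
    · simp only [h, mul_zero]
  have hf : ∀ z : P2, HasFDerivAt (fun z : P2 => s z.1 * ψ z.2)
      (s z.1 • (deriv ψ z.2 • ContinuousLinearMap.snd ℝ ℝ ℝ) +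
        ψ z.2 • (deriv s z.1 • ContinuousLinearMap.fst ℝ ℝ ℝ)) z := by
    intro z
    have h1 : HasFDerivAt (fun z : P2 => s z.1) (deriv s z.1 • ContinuousLinearMap.fst ℝ ℝ ℝ) z :=
      ((hs.differentiable (by simp) z.1).hasDerivAt).comp_hasFDerivAt z hasFDerivAt_fst
    have h2 : HasFDerivAt (fun z : P2 => ψ z.2) (deriv ψ z.2 • ContinuousLinearMap.snd ℝ ℝ ℝ) z :=
      ((hψ.differentiable (by simp) z.2).hasDerivAt).comp_hasFDerivAt z hasFDerivAt_snd
    exact h1.mul h2
  refine ⟨⟨(hs.comp contDiff_fst).mul (hψ.comp contDiff_snd), ?_, hsub.trans hA⟩, ?_, ?_⟩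
  · exact HasCompactSupport.of_support_subset_isCompact (IsCompact.prod hs2 hψ2)
      ((subset_tsupport _).trans hsub)
  · intro z
    unfold dX
    rw [(hf z).fderiv]
    simp; ring
  · intro z
    unfold dY
    rw [(hf z).fderiv]
    simp

theorem int_prod_fn (f g : ℝ → ℝ) : ∫ z : P2, f z.1 * g z.2 = (∫ x, f x) * ∫ y, g y := by
  rw [Measure.volume_eq_prod]; exact integral_prod_mul f g

/-- a fixed bump in the free strip -/
theorem exists_bump : ∃ ψ : ℝ → ℝ, ContDiff ℝ (⊤ : ℕ∞) ψ ∧ HasCompactSupport ψ ∧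
    tsupport ψ ⊆ Ioo (-(1 / 20)) 0 ∧ 0 < ∫ y, ψ y ^ 2 := by
  have f : {f : ContDiffBump (-(1 / 40) : ℝ) // f.rOut = 1 / 50} :=
    ⟨⟨1 / 100, 1 / 50, by norm_num, by norm_num⟩, rfl⟩
  refine ⟨f.1, f.1.contDiff, f.1.hasCompactSupport, ?_, ?_⟩
  · have h := f.1.tsupport_eq
    rw [f.2] at h
    rw [h]
    intro x hx
    rw [mem_closedBall, Real.dist_eq, abs_le] at hx
    constructor <;> linarith [hx.1, hx.2]
  · have h1 : f.1 (-(1 / 40)) = 1 := f.1.one_of_mem_closedBall (mem_closedBall_self f.1.rIn_pos.le)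
    have h2 : f.1 (-(1 / 40)) ^ 2 ≠ 0 := by rw [h1]; norm_num
    exact (f.1.continuous.pow 2).integral_pos_of_hasCompactSupport_nonneg_nonzero
      (cs_sq f.1.hasCompactSupport) (fun x => sq_nonneg _) (x := -(1 / 40)) h2

end Pool.Agent.R223.Sem
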