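import Mathlib
import Pool.Agent.R223.Sem.Dom

set_option autoImplicit false
open MeasureTheory Filter Topology Metric Set Pointwise
open scoped Manifold ContDiff

namespace Pool.Agent.R223.Sem

/-- the slopes -/
noncomputable def tau (k : ℕ) : ℝ := (1 / 40) * sk k

/-- projection of the obstacle along the slope -/
noncomputable def Pk (k : ℕ) : Set ℝ := (fun z : P2 => z.2 - tau k * z.1) '' Kset

theorem Pk_compact (k : ℕ) : IsCompact (Pk k) := Kset_compact.image (by fun_prop)

theorem Pk_null (k : ℕ) : volume (Pk k) = 0 := by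
  have e : Pk k = (fun x : ℝ => (1 / 40) * x) '' Nset (sk k) := by
    ext r
    simp only [Pk, Kset, Nset, mem_image, mem_range]
    constructor
    · rintro ⟨_, ⟨c, rfl⟩, rfl⟩
      refine ⟨_, ⟨c, rfl⟩, ?_⟩
      simp only [tau]; ring
    · rintro ⟨_, ⟨c, rfl⟩, rfl⟩
      refine ⟨_, ⟨c, rfl⟩, ?_⟩
      simp only [tau]; ring
  have e2 : (fun x : ℝ => (1 / 40) * x) '' Nset (sk k) = (1 / 40 : ℝ) • Nset (sk k) := rfl
  rw [e, e2, Measure.addHaar_smul, Nset_null]
  simp

theorem tau_tendsto : Tendsto tau atTop (𝓝 0) := by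
  have := sk_tendsto.const_mul (1 / 40)
  rw [mul_zero] at this
  exact this

theorem tau_bound (k : ℕ) : |tau k| ≤ 1 / 40 := by
  unfold tau
  rw [abs_mul, abs_of_pos (by norm_num : (0:ℝ) < 1 / 40)]
  nlinarith [sk_bound k]

/-- smooth cutoffs vanishing near a compact null set -/
theorem exists_cut (N : Set ℝ) (hN : IsCompact N) (h0 : volume N = 0) (ε : ℝ) (hε : 0 < ε) :
    ∃ (η : ℝ → ℝ) (U : Set ℝ), ContDiff ℝ (⊤ : ℕ∞) η ∧ (∀ c, 0 ≤ η c ∧ η c ≤ 1) ∧ IsOpen U ∧
      (volume U).toReal ≤ ε ∧ volume U ≠ ⊤ ∧ (∀ c, c ∉ U → η c = 1) ∧ Disjoint (tsupport η) N := by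
  obtain ⟨U, hNU, hU, hUv⟩ := Set.exists_isOpen_lt_of_lt N (ENNReal.ofReal ε) (by
    rw [h0]; exact ENNReal.ofReal_pos.2 hε)
  obtain ⟨f, hf1, hf2, hf3⟩ := exists_contMDiffMap_zero_one_nhds_of_isClosed (n := (⊤ : ℕ∞)) 𝓘(ℝ, ℝ)
    hN.isClosed hU.isClosed_compl (by
      rw [Set.disjoint_left]; intro x hx hx2; exact hx2 (hNU hx))
  refine ⟨f, U, ?_, fun c => hf3 c, hU, ?_, ?_, ?_, ?_⟩
  · exact f.contMDiff.contDiff
  · exact ENNReal.toReal_le_of_le_ofReal hε.le hUv.le
  · exact (hUv.trans_le le_top).ne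
  · intro c hc
    exact hf2.self_of_nhdsSet c hc
  · rw [Set.disjoint_left]
    intro x hx hxN
    have h1 : ∀ᶠ y in 𝓝 x, f y = 0 := (eventually_nhdsSet_iff_forall.1 hf1) x hxN
    exact (notMem_tsupport_iff_eventuallyEq.2 h1) hx

/-- test functions of the rectangle can be cut off near the obstacle at no cost -/
theorem cutoff (k : ℕ) (v : P2 → ℝ) (hv : Test Rect v) (ε : ℝ) (hε : 0 < ε) :
    ∃ u : P2 → ℝ, Test Om u ∧ (∫ z, v z) - ε ≤ ∫ z, u z ∧
      ∀ a : ℝ, ∫ z, (a * dX u z + (a * tau k) * dY u z) ^ 2 ≤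
        ∫ z, (a * dX v z + (a * tau k) * dY v z) ^ 2 := by
  obtain ⟨M, hM⟩ : ∃ M, ∀ z, |v z| ≤ M := by
    obtain ⟨M, hM⟩ := hv.2.1.exists_bound_of_continuous hv.cont
    exact ⟨M, hM⟩
  have hM0 : 0 ≤ M := (abs_nonneg _).trans (hM 0)
  obtain ⟨η, U, h1, h2, h3, h4, h4', h5, h6⟩ := exists_cut (Pk k) (Pk_compact k) (Pk_null k)
    (ε / (2 * (M + 1))) (by positivity)
  set t := tau k with ht
  set u : P2 → ℝ := fun z => η (z.2 - t * z.1) * v z with hu
  have hη : ContDiff ℝ (⊤ : ℕ∞) (fun z : P2 => η (z.2 - t * z.1)) := h1.comp (by fun_prop)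
  have hsub : tsupport u ⊆ tsupport v := by
    refine closure_mono ?_
    intro z hz hv0
    apply hz
    simp only [hu, hv0, mul_zero]
  have hsub2 : tsupport u ⊆ (fun z : P2 => z.2 - t * z.1) ⁻¹' tsupport η := by
    refine closure_minimal ?_ ((isClosed_tsupport η).preimage (by fun_prop))
    intro z hz
    refine subset_tsupport _ fun h => hz ?_
    simp only [hu, h, zero_mul]
  have huT : Test Om u := by
    refine ⟨hη.mul hv.1, ?_, ?_⟩
    · exact HasCompactSupport.of_support_subset_isCompact hv.2.1 ((subset_tsupport _).trans hsub)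
    · intro z hz
      refine ⟨hv.2.2 (hsub hz), fun hzK => ?_⟩
      exact Set.disjoint_left.1 h6 (hsub2 hz) ⟨z, hzK, rfl⟩
  have hd : ∀ z, dX u z + t * dY u z = η (z.2 - t * z.1) * (dX v z + t * dY v z) := by
    intro z
    have g1 : HasFDerivAt (fun z : P2 => η (z.2 - t * z.1))
        (deriv η (z.2 - t * z.1) • (ContinuousLinearMap.snd ℝ ℝ ℝ - t • ContinuousLinearMap.fst ℝ ℝ ℝ)) z := by
      have e1 : HasFDerivAt (fun z : P2 => z.2 - t * z.1)
          (ContinuousLinearMap.snd ℝ ℝ ℝ - t • ContinuousLinearMap.fst ℝ ℝ ℝ) z :=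
        hasFDerivAt_snd.sub (hasFDerivAt_fst.const_mul t)
      exact ((h1.differentiable (by simp) _).hasDerivAt).comp_hasFDerivAt z e1
    have g2 : HasFDerivAt v (fderiv ℝ v z) z := (hv.diff z).hasFDerivAt
    have g3 := g1.mul g2
    have e : fderiv ℝ u z = _ := g3.fderiv
    unfold dX dY
    rw [e]
    simp
    ring
  refine ⟨u, huT, ?_, ?_⟩
  · -- the mass
    have hdiff : (∫ z, v z) - ∫ z, u z ≤ ε := by
      rw [← integral_sub hv.iu huT.iu]
      rw [← shear_int t (fun z => v z - u z)]
      have hpt : ∀ z : P2, v (shear t z) - u (shear t z) ≤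
          (Ioo (-1:ℝ) 1 ×ˢ U).indicator (fun _ => M) z := by
        intro z
        have e1 : (shear t z).2 - t * (shear t z).1 = z.2 := by simp [shear]
        have e2 : v (shear t z) - u (shear t z) = (1 - η z.2) * v (shear t z) := by
          simp only [hu, e1]; ring
        rw [e2]
        by_cases hz : z ∈ Ioo (-1:ℝ) 1 ×ˢ U
        · rw [indicator_of_mem hz]
          have := h2 z.2
          have h7 := hM (shear t z)
          have h8 := le_abs_self (v (shear t z))
          have h9 := abs_nonneg (v (shear t z))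
          nlinarith
        · rw [indicator_of_notMem hz]
          by_cases hzU : z.2 ∈ U
          · have hz1 : z.1 ∉ Ioo (-1:ℝ) 1 := fun h => hz ⟨h, hzU⟩
            have : v (shear t z) = 0 := by
              refine image_eq_zero_of_notMem_tsupport fun h => hz1 ?_
              exact (hv.2.2 h).1
            rw [this, mul_zero]
          · rw [h5 _ hzU]; simp
      have hmeas : MeasurableSet (Ioo (-1:ℝ) 1 ×ˢ U) := measurableSet_Ioo.prod h3.measurableSet
      have hvol : volume (Ioo (-1:ℝ) 1 ×ˢ U) = ENNReal.ofReal 2 * volume U := by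
        rw [Measure.volume_eq_prod, Measure.prod_prod, Real.volume_Ioo]
        norm_num
      have hfin : volume (Ioo (-1:ℝ) 1 ×ˢ U) ≠ ⊤ := by
        rw [hvol]; exact ENNReal.mul_ne_top ENNReal.ofReal_ne_top h4'
      have hi1 : Integrable (fun z => v (shear t z) - u (shear t z)) := by
        have c1 : Continuous fun z => v (shear t z) - u (shear t z) :=
          (hv.cont.comp (shearHomeo t).continuous).sub (huT.cont.comp (shearHomeo t).continuous)
        have c2 : HasCompactSupport fun z => v (shear t z) - u (shear t z) :=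
          (shear_compact t v hv.2.1).sub (shear_compact t u huT.2.1)
        exact c1.integrable_of_hasCompactSupport c2
      have hi2 : Integrable ((Ioo (-1:ℝ) 1 ×ˢ U).indicator (fun _ : P2 => M)) :=
        (integrable_indicator_iff hmeas).2 (integrableOn_const hfin)
      refine (integral_mono hi1 hi2 hpt).trans ?_
      rw [integral_indicator hmeas, setIntegral_const, Measure.real, hvol, ENNReal.toReal_mul,
        ENNReal.toReal_ofReal (by norm_num), smul_eq_mul]
      have h10 : (2 * (volume U).toReal) * M ≤ 2 * (ε / (2 * (M + 1))) * M := by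
        refine mul_le_mul_of_nonneg_right ?_ hM0
        linarith
      refine h10.trans ?_
      have e3 : 2 * (ε / (2 * (M + 1))) * M = ε * (M / (M + 1)) := by field_simp
      rw [e3]
      have : M / (M + 1) ≤ 1 := by rw [div_le_one (by positivity)]; linarith
      nlinarith
    linarith
  · intro a
    have e1 : ∀ z, (a * dX u z + (a * t) * dY u z) ^ 2 =
        (η (z.2 - t * z.1)) ^ 2 * (a * dX v z + (a * t) * dY v z) ^ 2 := by
      intro z
      have : a * dX u z + (a * t) * dY u z = a * (dX u z + t * dY u z) := by ring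
      rw [this, hd]; ring
    have c1 : Continuous (fun z => a * dX v z + (a * t) * dY v z) :=
      (continuous_const.mul hv.cdX).add (continuous_const.mul hv.cdY)
    have c2 : HasCompactSupport (fun z => a * dX v z + (a * t) * dY v z) :=
      (hv.sdX.mul_left (f := fun _ => a)).add (hv.sdY.mul_left (f := fun _ => a * t))
    have c3 : Continuous (fun z => a * dX u z + (a * t) * dY u z) :=
      (continuous_const.mul huT.cdX).add (continuous_const.mul huT.cdY)
    have c4 : HasCompactSupport (fun z => a * dX u z + (a * t) * dY u z) :=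
      (huT.sdX.mul_left (f := fun _ => a)).add (huT.sdY.mul_left (f := fun _ => a * t))
    refine integral_mono (int_sq2 c3 c4) (int_sq2 c1 c2) ?_
    intro z
    simp only [e1]
    have h7 := h2 (z.2 - t * z.1)
    have h8 : (η (z.2 - t * z.1)) ^ 2 ≤ 1 := by nlinarith
    calc _ ≤ 1 * (a * dX v z + (a * t) * dY v z) ^ 2 := mul_le_mul_of_nonneg_right h8 (sq_nonneg _)
      _ = _ := one_mul _

end Pool.Agent.R223.Sem
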