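import Mathlib
import Pool.Agent.R223.Sem.Cut

set_option autoImplicit false
open MeasureTheory Filter Topology Metric Set

namespace Pool.Agent.R223.Sem

/-- the part of the rectangle outside the box containing the obstacle -/
def Wset : Set P2 := Rect \ (Icc (0:ℝ) (1 / 3) ×ˢ Icc (0:ℝ) (1 / 40))

theorem Kset_box : Kset ⊆ Icc (0:ℝ) (1 / 3) ×ˢ Icc (0:ℝ) (1 / 40) := by
  rintro _ ⟨c, rfl⟩
  refine ⟨⟨(Wg_mem c).1, (Wg_mem c).2⟩, ⟨?_, ?_⟩⟩
  · have := (Dg_mem c).1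
    simp only; positivity
  · have := (Dg_mem c).2
    simp only; linarith

theorem Wset_sub : Wset ⊆ Om := by
  intro z hz
  exact ⟨hz.1, fun h => hz.2 (Kset_box h)⟩

theorem conv_prod (a b c d : ℝ) : IsPreconnected (Ioo a b ×ˢ Ioo c d : Set P2) :=
  ((convex_Ioo a b).prod (convex_Ioo c d)).isPreconnected

theorem Wset_pre : IsPreconnected Wset := by
  have e : Wset = ((Ioo (-1:ℝ) 1 ×ˢ Ioo (-(1/20):ℝ) 0 ∪ Ioo (-1:ℝ) 0 ×ˢ Ioo (-(1/20):ℝ) (1/20)) ∪
      Ioo (-1:ℝ) 1 ×ˢ Ioo (1/40:ℝ) (1/20)) ∪ Ioo (1/3:ℝ) 1 ×ˢ Ioo (-(1/20):ℝ) (1/20) := by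
    ext ⟨x, y⟩
    simp only [Wset, Rect, mem_diff, mem_prod, mem_Ioo, mem_Icc, mem_union]
    constructor
    · rintro ⟨⟨⟨h1, h2⟩, h3, h4⟩, h5⟩
      by_cases hx : x < 0
      · left; left; right; exact ⟨⟨h1, hx⟩, h3, h4⟩
      · by_cases hx2 : 1 / 3 < x
        · right; exact ⟨⟨hx2, h2⟩, h3, h4⟩
        · push Not at hx hx2
          by_cases hy : y < 0
          · left; left; left; exact ⟨⟨h1, h2⟩, h3, hy⟩
          · push Not at hy
            left; right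
            refine ⟨⟨h1, h2⟩, ?_, h4⟩
            by_contra hy2
            push Not at hy2
            exact h5 ⟨⟨hx, hx2⟩, hy, hy2⟩
    · rintro (((⟨⟨h1, h2⟩, h3, h4⟩ | ⟨⟨h1, h2⟩, h3, h4⟩) | ⟨⟨h1, h2⟩, h3, h4⟩) | ⟨⟨h1, h2⟩, h3, h4⟩)
      · exact ⟨⟨⟨h1, h2⟩, h3, by linarith⟩, fun h => by linarith [h.2.1]⟩
      · exact ⟨⟨⟨h1, by linarith⟩, h3, h4⟩, fun h => by linarith [h.1.1]⟩
      · exact ⟨⟨⟨h1, h2⟩, by linarith, h4⟩, fun h => by linarith [h.2.2]⟩
      · exact ⟨⟨⟨by linarith, h2⟩, h3, h4⟩, fun h => by linarith [h.1.2]⟩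
  rw [e]
  have A1 := conv_prod (-1) 1 (-(1/20)) 0
  have A2 := conv_prod (-1) 0 (-(1/20)) (1/20)
  have A3 := conv_prod (-1) 1 (1/40) (1/20)
  have A4 := conv_prod (1/3) 1 (-(1/20)) (1/20)
  have B1 := A1.union (x := ((-1/2, -1/40) : P2)) (by constructor <;> constructor <;> norm_num)
    (by constructor <;> constructor <;> norm_num) A2
  have B2 := B1.union (x := ((-1/2, 3/80) : P2)) (Or.inr (by constructor <;> constructor <;> norm_num))
    (by constructor <;> constructor <;> norm_num) A3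
  exact B2.union (x := ((1/2, 3/80) : P2)) (Or.inr (by constructor <;> constructor <;> norm_num))
    (by constructor <;> constructor <;> norm_num) A4

/-- points whose slanted line misses the obstacle -/
def Good : Set P2 := {z | z ∈ Rect ∧ (z ∈ Wset ∨ z.2 - tau 0 * z.1 ∉ Pk 0)}

theorem Good_sub : Good ⊆ Om := by
  rintro z ⟨hz, h | h⟩
  · exact Wset_sub h
  · exact ⟨hz, fun hK => h ⟨z, hK, rfl⟩⟩

theorem W_mem : ((-1/2, 0) : P2) ∈ Wset := by
  refine ⟨⟨⟨by norm_num, by norm_num⟩, ⟨by norm_num, by norm_num⟩⟩, fun h => ?_⟩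
  have := h.1.1
  norm_num at this

theorem Good_pre : IsPreconnected Good := by
  refine isPreconnected_of_forall ((-1/2, 0) : P2) ?_
  rintro z ⟨hzR, hz⟩
  by_cases hzW : z ∈ Wset
  · exact ⟨Wset, fun w hw => ⟨hw.1, Or.inl hw⟩, W_mem, hzW, Wset_pre⟩
  · have hzP : z.2 - tau 0 * z.1 ∉ Pk 0 := by
      rcases hz with h | h
      · exact absurd h hzW
      · exact h
    have hbox : z ∈ (Icc (0:ℝ) (1 / 3) ×ˢ Icc (0:ℝ) (1 / 40) : Set P2) := by
      by_contra h; exact hzW ⟨hzR, h⟩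
    -- the segment to the left
    set f : ℝ → P2 := fun s => (z.1 - s, z.2 - tau 0 * s) with hf
    have hb := abs_le.1 (tau_bound 0)
    refine ⟨Wset ∪ f '' Icc 0 (1 / 2), ?_, Or.inl W_mem, Or.inr ⟨0, by norm_num, by simp [hf]⟩, ?_⟩
    · rintro w (hw | ⟨s, hs, rfl⟩)
      · exact ⟨hw.1, Or.inl hw⟩
      · refine ⟨⟨⟨?_, ?_⟩, ⟨?_, ?_⟩⟩, Or.inr ?_⟩
        · simp only [hf]; linarith [hbox.1.1, hs.2]
        · simp only [hf]; linarith [hbox.1.2, hs.1]
        · simp only [hf]; nlinarith [hbox.2.1, hs.1, hs.2, hb.1, hb.2]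
        · simp only [hf]; nlinarith [hbox.2.2, hs.1, hs.2, hb.1, hb.2]
        · have e : (f s).2 - tau 0 * (f s).1 = z.2 - tau 0 * z.1 := by simp only [hf]; ring
          rw [e]; exact hzP
    · have hfc : Continuous f := by simp only [hf]; fun_prop
      have h1 : IsPreconnected (f '' Icc 0 (1 / 2)) := isPreconnected_Icc.image f hfc.continuousOn
      refine Wset_pre.union' ?_ h1
      refine ⟨f (1 / 2), ⟨⟨⟨?_, ?_⟩, ⟨?_, ?_⟩⟩, fun h => ?_⟩, ⟨1 / 2, by norm_num, rfl⟩⟩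
      · simp only [hf]; linarith [hbox.1.1]
      · simp only [hf]; linarith [hbox.1.2]
      · simp only [hf]; nlinarith [hbox.2.1, hb.1, hb.2]
      · simp only [hf]; nlinarith [hbox.2.2, hb.1, hb.2]
      · have := h.1.1
        simp only [hf] at this
        linarith [hbox.1.2]

theorem Om_closure : Om ⊆ closure Good := by
  intro z hz
  rw [Metric.mem_closure_iff]
  intro ε hε
  -- move vertically a little
  obtain ⟨δ, hδ, hball⟩ := Metric.isOpen_iff.1 Om_open z hz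
  set r := min δ ε with hr
  have hr0 : 0 < r := lt_min hδ hε
  obtain ⟨c, hc1, hc2⟩ : ∃ c ∈ Ioo (z.2 - tau 0 * z.1) (z.2 - tau 0 * z.1 + r), c ∉ Pk 0 := by
    by_contra hcon
    push Not at hcon
    have : volume (Ioo (z.2 - tau 0 * z.1) (z.2 - tau 0 * z.1 + r)) ≤ volume (Pk 0) := measure_mono hcon
    rw [Pk_null, Real.volume_Ioo] at this
    simp at this
    linarith
  have hd : dist z (z.1, c + tau 0 * z.1) < r := by
    rw [Prod.dist_eq]
    simp only [dist_self]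
    rw [max_lt_iff]
    refine ⟨hr0, ?_⟩
    rw [Real.dist_eq, abs_lt]
    constructor <;> linarith [hc1.1, hc1.2]
  refine ⟨(z.1, c + tau 0 * z.1), ⟨?_, Or.inr ?_⟩, hd.trans_le (min_le_right _ _)⟩
  · have : (z.1, c + tau 0 * z.1) ∈ ball z δ := by
      rw [mem_ball, dist_comm]; exact hd.trans_le (min_le_left _ _)
    exact (hball this).1
  · simpa using hc2

theorem Om_preconnected : IsPreconnected Om := Good_pre.subset_closure Good_sub Om_closure

theorem Om_nonempty : Om.Nonempty := ⟨_, Wset_sub W_mem⟩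

end Pool.Agent.R223.Sem
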