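import Mathlib
import Pool.Agent.R223.Sem.Conn

set_option autoImplicit false
open MeasureTheory Filter Topology Metric Set

namespace Pool.Agent.R223.Sem

noncomputable def lamP (h : P2 → ℝ) (A : Set P2) : ℝ :=
  sInf {r : ℝ | ∃ u : P2 → ℝ, Test A u ∧ u ≠ 0 ∧ r = En h u / ∫ z, u z ^ 2}

noncomputable def torP (h : P2 → ℝ) (A : Set P2) : ℝ :=
  sSup {r : ℝ | ∃ u : P2 → ℝ, Test A u ∧ u ≠ 0 ∧ r = (∫ z, u z) ^ 2 / En h u}

theorem En_nonneg (h : P2 → ℝ) (u : P2 → ℝ) : 0 ≤ En h u := integral_nonneg fun z => sq_nonneg _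

theorem lamP_nonneg (h : P2 → ℝ) (A : Set P2) : 0 ≤ lamP h A := by
  refine Real.sInf_nonneg ?_
  rintro r ⟨u, -, -, rfl⟩
  exact div_nonneg (En_nonneg h u) (integral_nonneg fun z => sq_nonneg _)

theorem torP_nonneg (h : P2 → ℝ) (A : Set P2) : 0 ≤ torP h A := by
  refine Real.sSup_nonneg ?_
  rintro r ⟨u, -, -, rfl⟩
  exact div_nonneg (sq_nonneg _) (En_nonneg h u)

theorem mass_pos {A : Set P2} {u : P2 → ℝ} (hu : Test A u) (h0 : u ≠ 0) : 0 < ∫ z, u z ^ 2 := by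
  obtain ⟨z, hz⟩ := Function.ne_iff.1 h0
  exact (hu.cont.pow 2).integral_pos_of_hasCompactSupport_nonneg_nonzero (cs_sq hu.2.1)
    (fun x => sq_nonneg _) (x := z) (pow_ne_zero 2 hz)

theorem exists_test : ∃ u : P2 → ℝ, Test Om u ∧ u ≠ 0 := by
  obtain ⟨s, s1, s2, s3, s4, -⟩ := exists_eig 1 one_pos
  obtain ⟨ψ, p1, p2, p3, p4⟩ := exists_bump
  have hA : tsupport s ×ˢ tsupport ψ ⊆ Om := by
    intro z hz
    refine Wset_sub ⟨⟨s3 hz.1, ?_⟩, fun h => ?_⟩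
    · have := p3 hz.2; exact ⟨this.1, by linarith [this.2]⟩
    · have := (p3 hz.2).2; linarith [h.2.1]
  obtain ⟨h1, -, -⟩ := prod_test s ψ s1 s2 p1 p2 Om hA
  refine ⟨_, h1, fun h0 => ?_⟩
  have e : ∫ z : P2, (s z.1 * ψ z.2) ^ 2 = (∫ x, s x ^ 2) * ∫ y, ψ y ^ 2 := by
    rw [← int_prod_fn]
    congr 1; funext z; ring
  have h2 : ∫ z : P2, (s z.1 * ψ z.2) ^ 2 = 0 := by
    have : ∀ z : P2, s z.1 * ψ z.2 = 0 := fun z => congrFun h0 z
    simp [this]
  rw [e] at h2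
  have := mul_pos s4 p4
  linarith

theorem torP_le (h : P2 → ℝ) (A : Set P2) (M : ℝ) (hM : 0 ≤ M)
    (hb : ∀ u, Test A u → (∫ z, u z) ^ 2 ≤ M * En h u) : torP h A ≤ M := by
  refine Real.sSup_le ?_ hM
  rintro r ⟨u, hu, -, rfl⟩
  rcases (En_nonneg h u).eq_or_lt with h0 | h0
  · rw [← h0, div_zero]; exact hM
  · rw [div_le_iff₀ h0]; exact hb u hu

theorem le_torP (h : P2 → ℝ) (A : Set P2) (M : ℝ) (hM : 0 ≤ M)
    (hb : ∀ u, Test A u → (∫ z, u z) ^ 2 ≤ M * En h u) (u : P2 → ℝ) (hu : Test A u) (h0 : u ≠ 0) :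
    (∫ z, u z) ^ 2 / En h u ≤ torP h A := by
  refine le_csSup ⟨M, ?_⟩ ⟨u, hu, h0, rfl⟩
  rintro r ⟨u, hu, -, rfl⟩
  rcases (En_nonneg h u).eq_or_lt with h0 | h0
  · rw [← h0, div_zero]; exact hM
  · rw [div_le_iff₀ h0]; exact hb u hu

theorem tor_bound (h : P2 → ℝ) (hh : IsH h) : torP h Om ≤ (1 / 15) * (1 - h (0, 1) / 4) := by
  have h1 := hh.h_le_one
  refine torP_le h Om _ (by linarith [h1]) fun u hu => T_main hh (hu.mono Om_sub)

/-- pointwise upper bound -/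
theorem IsH.upper {h : P2 → ℝ} (hh : IsH h) (ξ : P2) :
    h ξ ^ 2 ≤ (1 + h (0, 1)) * ξ.1 ^ 2 + (h (0, 1) + h (0, 1) ^ 2) * ξ.2 ^ 2 := by
  have e : ξ = ξ.1 • ((1, 0) : P2) + ξ.2 • ((0, 1) : P2) := by ext <;> simp
  have h1 := hh.add (ξ.1 • ((1, 0) : P2)) (ξ.2 • ((0, 1) : P2))
  rw [← e, hh.smul, hh.smul] at h1
  have h2 : h (1, 0) ≤ 1 := by
    have := hh.le (1, 0)
    have h3 : Real.sqrt (((1:ℝ), (0:ℝ)).1 ^ 2 + ((1:ℝ), (0:ℝ)).2 ^ 2) = 1 := by simp
    rw [h3] at this; exact this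
  have h3 := hh.nonneg (0, 1)
  have h4 : h ξ ≤ |ξ.1| + |ξ.2| * h (0, 1) := by
    have := mul_le_mul_of_nonneg_left h2 (abs_nonneg ξ.1)
    linarith
  have h5 : h ξ ^ 2 ≤ (|ξ.1| + |ξ.2| * h (0, 1)) ^ 2 := pow_le_pow_left₀ (hh.nonneg ξ) h4 2
  refine h5.trans ?_
  have e1 : ξ.1 ^ 2 = |ξ.1| ^ 2 := (sq_abs _).symm
  have e2 : ξ.2 ^ 2 = |ξ.2| ^ 2 := (sq_abs _).symm
  rw [e1, e2]
  nlinarith [mul_nonneg h3 (sq_nonneg (|ξ.1| - |ξ.2|))]

/-- upper bound of the eigenvalue through the free strip -/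
theorem lam_bound : ∃ A : ℝ, 0 ≤ A ∧ ∀ h : P2 → ℝ, IsH h →
    lamP h Om ≤ (1 + h (0, 1)) * (Real.pi ^ 2 / 4 + h (0, 1) * A) := by
  obtain ⟨ψ, p1, p2, p3, p4⟩ := exists_bump
  set A := (∫ y, deriv ψ y ^ 2) / ∫ y, ψ y ^ 2 with hA
  have hA0 : 0 ≤ A := div_nonneg (integral_nonneg fun y => sq_nonneg _) p4.le
  refine ⟨A, hA0, fun h hh => ?_⟩
  set η := h (0, 1) with hη
  have hη0 : 0 ≤ η := hh.nonneg _
  refine le_of_forall_pos_le_add fun ε hε => ?_
  obtain ⟨s, s1, s2, s3, s4, s5⟩ := exists_eig (ε / (1 + η)) (by positivity)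
  have hsub : tsupport s ×ˢ tsupport ψ ⊆ Om := by
    intro z hz
    refine Wset_sub ⟨⟨s3 hz.1, ?_⟩, fun h => ?_⟩
    · have := p3 hz.2; exact ⟨this.1, by linarith [this.2]⟩
    · have := (p3 hz.2).2; linarith [h.2.1]
  obtain ⟨hT, hX, hY⟩ := prod_test s ψ s1 s2 p1 p2 Om hsub
  have hs0 : Continuous s := s1.continuous
  have hp0 : Continuous ψ := p1.continuous
  have hds : Continuous (deriv s) := s1.continuous_deriv (by simp)
  have hdp : Continuous (deriv ψ) := p1.continuous_deriv (by simp)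
  have e1 : ∫ z : P2, (s z.1 * ψ z.2) ^ 2 = (∫ x, s x ^ 2) * ∫ y, ψ y ^ 2 := by
    rw [← int_prod_fn]; congr 1; funext z; ring
  have hne : (fun z : P2 => s z.1 * ψ z.2) ≠ 0 := by
    intro h0
    have h2 : ∫ z : P2, (s z.1 * ψ z.2) ^ 2 = 0 := by
      have : ∀ z : P2, s z.1 * ψ z.2 = 0 := fun z => congrFun h0 z
      simp [this]
    rw [e1] at h2
    have := mul_pos s4 p4
    linarith
  have iX : Integrable (fun z : P2 => deriv s z.1 ^ 2 * ψ z.2 ^ 2) := by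
    rw [Measure.volume_eq_prod]
    exact (int_sq hds s2.deriv).mul_prod (int_sq hp0 p2)
  have iY : Integrable (fun z : P2 => s z.1 ^ 2 * deriv ψ z.2 ^ 2) := by
    rw [Measure.volume_eq_prod]
    exact (int_sq hs0 s2).mul_prod (int_sq hdp p2.deriv)
  have e2 : En h (fun z : P2 => s z.1 * ψ z.2) ≤
      (1 + η) * ((∫ x, deriv s x ^ 2) * ∫ y, ψ y ^ 2) +
      (η + η ^ 2) * ((∫ x, s x ^ 2) * ∫ y, deriv ψ y ^ 2) := by
    rw [← int_prod_fn, ← int_prod_fn, ← integral_const_mul, ← integral_const_mul,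
      ← integral_add (iX.const_mul _) (iY.const_mul _)]
    refine integral_mono (hh.int_en hT) ((iX.const_mul _).add (iY.const_mul _)) ?_
    intro z
    have := hh.upper (dX (fun z : P2 => s z.1 * ψ z.2) z, dY (fun z : P2 => s z.1 * ψ z.2) z)
    simp only [hX, hY] at this ⊢
    refine this.trans_eq ?_
    ring
  have h3 : lamP h Om ≤ En h (fun z : P2 => s z.1 * ψ z.2) / ∫ z : P2, (s z.1 * ψ z.2) ^ 2 := by
    refine csInf_le ⟨0, ?_⟩ ⟨_, hT, hne, rfl⟩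
    rintro r ⟨u, -, -, rfl⟩
    exact div_nonneg (En_nonneg h u) (integral_nonneg fun z => sq_nonneg _)
  refine h3.trans ?_
  rw [e1, div_le_iff₀ (mul_pos s4 p4)]
  refine e2.trans ?_
  have e3 : ∫ y, deriv ψ y ^ 2 = A * ∫ y, ψ y ^ 2 := by
    rw [hA, div_mul_cancel₀ _ p4.ne']
  rw [e3]
  have h5 := mul_le_mul_of_nonneg_left s5 (by positivity : 0 ≤ (1 + η) * ∫ y, ψ y ^ 2)
  have e4 : (1 + η) * (ε / (1 + η)) = ε := by field_simp
  have e5 : (1 + η) * (Real.pi ^ 2 / 4 + ε / (1 + η)) = (1 + η) * (Real.pi ^ 2 / 4) + ε := by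
    rw [mul_add, e4]
  have h6 : (1 + η) * (∫ y, ψ y ^ 2) * ((Real.pi ^ 2 / 4 + ε / (1 + η)) * ∫ x, s x ^ 2) =
      ((1 + η) * (Real.pi ^ 2 / 4) + ε) * ((∫ x, s x ^ 2) * ∫ y, ψ y ^ 2) := by
    rw [← e5]; ring
  rw [h6] at h5
  nlinarith [h5]

/-- degenerate seminorms -/
noncomputable def dirH (a p : ℝ) (ξ : P2) : ℝ := |a * ξ.1 + p * ξ.2|

theorem dirH_isH (a p : ℝ) (hn : a ^ 2 + p ^ 2 = 1) : IsH (dirH a p) where
  smul t ξ := by
    unfold dirH
    rw [← abs_mul]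
    congr 1
    simp only [Prod.smul_fst, Prod.smul_snd, smul_eq_mul]; ring
  add ξ η := by
    unfold dirH
    refine le_trans (le_of_eq ?_) (abs_add_le _ _)
    congr 1
    simp only [Prod.fst_add, Prod.snd_add]; ring
  le ξ := by
    unfold dirH
    refine Real.abs_le_sqrt ?_
    have : (a * ξ.1 + p * ξ.2) ^ 2 + (a * ξ.2 - p * ξ.1) ^ 2 = (a ^ 2 + p ^ 2) * (ξ.1 ^ 2 + ξ.2 ^ 2) := by ring
    rw [hn, one_mul] at this
    nlinarith [sq_nonneg (a * ξ.2 - p * ξ.1)]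
  att := ⟨(a, p), hn, by
    unfold dirH
    have : a * a + p * p = 1 := by linarith
    simp only [this, abs_one]⟩

theorem En_dirH (a p : ℝ) (u : P2 → ℝ) : En (dirH a p) u = ∫ z, (a * dX u z + p * dY u z) ^ 2 := by
  unfold En dirH
  simp only [sq_abs]

theorem lam_dir (a p : ℝ) (ha : a ≠ 0) : a ^ 2 * (Real.pi ^ 2 / 4) ≤ lamP (dirH a p) Om := by
  obtain ⟨u, hu, h0⟩ := exists_test
  refine le_csInf ⟨_, u, hu, h0, rfl⟩ ?_
  rintro r ⟨u, hu, h0, rfl⟩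
  rw [le_div_iff₀ (mass_pos hu h0), En_dirH]
  exact lam_lower (hu.mono Om_sub) a p ha

/-- approach of the limit value along the slanted directions -/
theorem approach (ε : ℝ) (hε : 0 < ε) : ∃ a p : ℝ, a ^ 2 + p ^ 2 = 1 ∧
    Real.pi ^ 2 / 4 - ε ≤ lamP (dirH a p) Om ∧ 1 / 15 - ε ≤ torP (dirH a p) Om := by
  obtain ⟨s, ψ₀, ⟨s1, s2, s3⟩, ⟨p1, p2, p3⟩, s4, p4, s5, p5, h6⟩ := exists_tor ε hε
  -- rescale in the vertical direction
  set ψ : ℝ → ℝ := fun y => ψ₀ (20 * y) with hψ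
  have q1 : ContDiff ℝ (⊤ : ℕ∞) ψ := p1.comp (by fun_prop)
  have q2 : HasCompactSupport ψ := by
    have : IsCompact ((fun x : ℝ => x / 20) '' tsupport ψ₀) := IsCompact.image p2 (by fun_prop)
    refine HasCompactSupport.of_support_subset_isCompact this ?_
    intro y hy
    exact ⟨20 * y, subset_tsupport _ hy, by simp only; ring⟩
  have q3 : tsupport ψ ⊆ Ioo (-(1 / 20)) (1 / 20) := by
    have : tsupport ψ ⊆ (fun y : ℝ => 20 * y) ⁻¹' tsupport ψ₀ :=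
      tsupport_comp_subset_preimage ψ₀ (f := fun y : ℝ => 20 * y) (by fun_prop)
    intro y hy
    have := p3 (this hy)
    simp only [mem_Ioo] at this ⊢
    constructor <;> linarith [this.1, this.2]
  have q4 : ∫ y, ψ y = (1 / 20) * ∫ y, ψ₀ y := by
    have := Measure.integral_comp_mul_left ψ₀ (20:ℝ)
    rw [abs_of_pos (by norm_num)] at this
    simp only [smul_eq_mul] at this
    rw [this]; norm_num
  have q5 : ∫ y, ψ y ^ 2 = (1 / 20) * ∫ y, ψ₀ y ^ 2 := by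
    have := Measure.integral_comp_mul_left (fun y => ψ₀ y ^ 2) (20:ℝ)
    rw [abs_of_pos (by norm_num)] at this
    simp only [smul_eq_mul] at this
    rw [this]; norm_num
  have hsub : tsupport s ×ˢ tsupport ψ ⊆ Rect := fun z hz => ⟨s3 hz.1, q3 hz.2⟩
  obtain ⟨hT, hX, hY⟩ := prod_test s ψ s1 s2 q1 q2 Rect hsub
  set v : P2 → ℝ := fun z => s z.1 * ψ z.2 with hv
  set I := ∫ z, v z with hI
  have hIe : I = (∫ x, s x) * ((1 / 20) * ∫ y, ψ₀ y) := by
    rw [hI, ← q4, ← int_prod_fn]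
  have hI0 : 0 < I := by rw [hIe]; positivity
  set D := ∫ z, dX v z ^ 2 with hD
  have hDe : D = (∫ x, deriv s x ^ 2) * ((1 / 20) * ∫ y, ψ₀ y ^ 2) := by
    rw [hD, ← q5, ← int_prod_fn]
    congr 1; funext z; rw [hX]; ring
  have hD0 : 0 < D := by rw [hDe]; positivity
  have hratio : (1 / 15 - ε / 20) * D ≤ I ^ 2 := by
    rw [hDe, hIe]
    have e1 : (1 / 15 - ε / 20) * ((∫ x, deriv s x ^ 2) * ((1 / 20) * ∫ y, ψ₀ y ^ 2)) =
      (1 / 400) * ((4 / 3 - ε) * ((∫ x, deriv s x ^ 2) * ∫ y, ψ₀ y ^ 2)) := by ring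
    have e2 : ((∫ x, s x) * ((1 / 20) * ∫ y, ψ₀ y)) ^ 2 = (1 / 400) * ((∫ x, s x) * ∫ y, ψ₀ y) ^ 2 := by ring
    rw [e1, e2]; linarith
  -- limits along the slopes
  set α : ℕ → ℝ := fun k => (Real.sqrt (1 + tau k ^ 2))⁻¹ with hα
  have hα2 : ∀ k, α k ^ 2 = (1 + tau k ^ 2)⁻¹ := by
    intro k
    simp only [hα]
    rw [inv_pow, Real.sq_sqrt (by positivity)]
  have hα0 : ∀ k, 0 < α k := by intro k; simp only [hα]; positivity
  have lα : Tendsto (fun k => α k ^ 2) atTop (𝓝 1) := by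
    simp only [hα2]
    have h1 : Tendsto (fun k => 1 + tau k ^ 2) atTop (𝓝 (1 + 0 ^ 2)) := (tau_tendsto.pow 2).const_add 1
    have h2 := h1.inv₀ (by norm_num)
    simpa using h2
  set DXY := ∫ z, dX v z * dY v z with hDXY
  set DY := ∫ z, dY v z ^ 2 with hDY
  have iXX : Integrable (fun z => dX v z ^ 2) := int_sq2 hT.cdX hT.sdX
  have iYY : Integrable (fun z => dY v z ^ 2) := int_sq2 hT.cdY hT.sdY
  have iXY : Integrable (fun z => dX v z * dY v z) := int_mul_cont _ hT.cdX hT.cdY hT.sdY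
  have hexp : ∀ k, ∫ z, (α k * dX v z + (α k * tau k) * dY v z) ^ 2 =
      α k ^ 2 * (D + 2 * tau k * DXY + tau k ^ 2 * DY) := by
    intro k
    have e : (fun z => (α k * dX v z + (α k * tau k) * dY v z) ^ 2) = fun z =>
      α k ^ 2 * (dX v z ^ 2 + 2 * tau k * (dX v z * dY v z) + tau k ^ 2 * dY v z ^ 2) := by
      funext z; ring
    have i1 : Integrable (fun z => 2 * tau k * (dX v z * dY v z)) := iXY.const_mul _
    have i2 : Integrable (fun z => tau k ^ 2 * dY v z ^ 2) := iYY.const_mul _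
    have i3 : Integrable (fun z => dX v z ^ 2 + 2 * tau k * (dX v z * dY v z)) := iXX.add i1
    rw [e, integral_const_mul, integral_add i3 i2, integral_add iXX i1, integral_const_mul, integral_const_mul]
  have lE : Tendsto (fun k => α k ^ 2 * (D + 2 * tau k * DXY + tau k ^ 2 * DY)) atTop (𝓝 D) := by
    have h1 : Tendsto (fun k => D + 2 * tau k * DXY + tau k ^ 2 * DY) atTop
        (𝓝 (D + 2 * 0 * DXY + 0 ^ 2 * DY)) :=
      (((tau_tendsto.const_mul 2).mul_const DXY).const_add D).add ((tau_tendsto.pow 2).mul_const DY)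
    have h2 := lα.mul h1
    simpa using h2
  have g1 : ∀ᶠ k in atTop, (1 / 15 - ε) * (α k ^ 2 * (D + 2 * tau k * DXY + tau k ^ 2 * DY)) < I ^ 2 := by
    refine (lE.const_mul (1 / 15 - ε)).eventually_lt_const ?_
    nlinarith
  have g2 : ∀ᶠ k in atTop, Real.pi ^ 2 / 4 - ε < α k ^ 2 * (Real.pi ^ 2 / 4) := by
    refine (lα.mul_const (Real.pi ^ 2 / 4)).eventually_const_lt ?_
    linarith
  obtain ⟨k, hk1, hk2⟩ := (g1.and g2).exists
  have hn : α k ^ 2 + (α k * tau k) ^ 2 = 1 := by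
    have : α k ^ 2 + (α k * tau k) ^ 2 = α k ^ 2 * (1 + tau k ^ 2) := by ring
    rw [this, hα2, inv_mul_cancel₀ (by positivity)]
  refine ⟨α k, α k * tau k, hn, hk2.le.trans (lam_dir _ _ (hα0 k).ne'), ?_⟩
  set Ek := α k ^ 2 * (D + 2 * tau k * DXY + tau k ^ 2 * DY) with hEk
  by_cases hneg : 1 / 15 - ε ≤ 0
  · exact hneg.trans (torP_nonneg _ _)
  push Not at hneg
  -- choose the cutoff precision
  have hlim : Tendsto (fun δ : ℝ => (I - δ) ^ 2) (𝓝[>] 0) (𝓝 (I ^ 2)) := by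
    have : Continuous fun δ : ℝ => (I - δ) ^ 2 := by fun_prop
    have h2 := this.tendsto 0
    simp only [sub_zero] at h2
    exact h2.mono_left nhdsWithin_le_nhds
  have g3 : ∀ᶠ δ in 𝓝[>] (0:ℝ), (1 / 15 - ε) * Ek < (I - δ) ^ 2 := hlim.eventually_const_lt hk1
  have g4 : ∀ᶠ δ in 𝓝[>] (0:ℝ), δ < I := (eventually_lt_nhds hI0).filter_mono nhdsWithin_le_nhds
  obtain ⟨δ, ⟨hδ1, hδ2⟩, hδ0⟩ := ((g3.and g4).and self_mem_nhdsWithin).exists
  obtain ⟨u, hu, hu1, hu2⟩ := cutoff k v hT δ hδ0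
  have hu1' : I - δ ≤ ∫ z, u z := hu1
  have hupos : 0 < ∫ z, u z := by linarith
  have hu0 : u ≠ 0 := by rintro rfl; simp at hupos
  have hH := dirH_isH _ _ hn
  have hbd : ∀ u, Test Om u → (∫ z, u z) ^ 2 ≤ (1 / 15) * En (dirH (α k) (α k * tau k)) u := by
    intro u hu
    refine (T_main hH (hu.mono Om_sub)).trans ?_
    refine mul_le_mul_of_nonneg_right ?_ (En_nonneg _ _)
    have := hH.nonneg (0, 1)
    linarith
  have hEu : 0 < En (dirH (α k) (α k * tau k)) u := by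
    have := hbd u hu
    have h2 : 0 < (∫ z, u z) ^ 2 := by positivity
    linarith
  refine le_trans ?_ (le_torP _ _ _ (by norm_num) hbd u hu hu0)
  rw [le_div_iff₀ hEu]
  have h7 : En (dirH (α k) (α k * tau k)) u ≤ Ek := by
    rw [En_dirH]
    exact (hu2 (α k)).trans_eq (hexp k)
  have h8 : (I - δ) ^ 2 ≤ (∫ z, u z) ^ 2 := pow_le_pow_left₀ (by linarith) hu1' 2
  have h9 := mul_le_mul_of_nonneg_left h7 hneg.le
  linarith

/-- strict upper bound for large `q` -/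
theorem strict_upper : ∃ q0 : ℝ, 0 < q0 ∧ ∀ q : ℝ, q0 ≤ q → ∀ h : P2 → ℝ, IsH h →
    lamP h Om * torP h Om ^ q < (Real.pi ^ 2 / 4) * (1 / 15 : ℝ) ^ q := by
  obtain ⟨A, hA0, hA⟩ := lam_bound
  have hpi : 0 < Real.pi ^ 2 / 4 := by positivity
  set Λ := Real.pi ^ 2 / 4 with hΛ
  set C := (2 * A + Λ) / Λ with hC
  have hC0 : 0 < C := by positivity
  refine ⟨4 * C + 1, by positivity, fun q hq h hh => ?_⟩
  have hq0 : 0 < q := by linarith
  have hη0 : 0 ≤ h (0, 1) := hh.nonneg _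
  have hη1 : h (0, 1) ≤ 1 := hh.h_le_one
  set η := h (0, 1) with hη
  have hl := hA h hh
  rw [← hη] at hl
  have h15 : (0:ℝ) < (1 / 15 : ℝ) ^ q := by positivity
  rcases hη0.eq_or_lt with h0 | h0
  · -- horizontal direction
    rw [← h0] at hl
    simp only [add_zero, zero_mul, one_mul] at hl
    have hform : ∀ ξ : P2, |ξ.1| ≤ h ξ := by
      obtain ⟨a, p, hn, ha, hap⟩ := hh.dir
      have h1 := hap (0, 1)
      simp only [mul_zero, zero_add, mul_one] at h1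
      rw [← hη, ← h0] at h1
      have hp : p = 0 := abs_eq_zero.1 (le_antisymm h1 (abs_nonneg p))
      rw [hp] at hn hap
      have ha1 : a = 1 := by nlinarith
      intro ξ
      have := hap ξ
      rw [ha1] at this
      simpa using this
    have ht : torP h Om ≤ 1 / 18 := by
      refine torP_le h Om _ (by norm_num) fun u hu => ?_
      refine (T_pinned hu).trans ?_
      refine mul_le_mul_of_nonneg_left ?_ (by norm_num)
      refine integral_mono (int_sq2 hu.cdX hu.sdX) (hh.int_en hu) fun z => ?_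
      have := hform (dX u z, dY u z)
      simp only
      rw [← sq_abs (dX u z)]
      exact pow_le_pow_left₀ (abs_nonneg _) this 2
    have h3 : torP h Om ^ q ≤ (1 / 18 : ℝ) ^ q := Real.rpow_le_rpow (torP_nonneg _ _) ht hq0.le
    have h4 : (1 / 18 : ℝ) ^ q < (1 / 15 : ℝ) ^ q := Real.rpow_lt_rpow (by norm_num) (by norm_num) hq0
    have h5 : 0 ≤ torP h Om ^ q := Real.rpow_nonneg (torP_nonneg _ _) _
    calc lamP h Om * torP h Om ^ q ≤ Λ * torP h Om ^ q := mul_le_mul_of_nonneg_right hl h5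
      _ < Λ * (1 / 15 : ℝ) ^ q := mul_lt_mul_of_pos_left (h3.trans_lt h4) hpi
  · have h1 : lamP h Om ≤ Λ * (1 + C * η) := by
      refine hl.trans ?_
      have e : Λ * (1 + C * η) = Λ + (2 * A + Λ) * η := by rw [hC]; field_simp
      rw [e]
      nlinarith [mul_nonneg hA0 hη0]
    have h2 := tor_bound h hh
    rw [← hη] at h2
    have h3 : torP h Om ^ q ≤ ((1 / 15) * (1 - η / 4)) ^ q := Real.rpow_le_rpow (torP_nonneg _ _) h2 hq0.le
    rw [Real.mul_rpow (by norm_num) (by linarith)] at h3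
    have h4 : (1 - η / 4) ^ q ≤ Real.exp (-(q * η / 4)) := by
      have h5 : 1 - η / 4 ≤ Real.exp (-(η / 4)) := by
        have := Real.add_one_le_exp (-(η / 4))
        linarith
      have h6 := Real.rpow_le_rpow (by linarith) h5 hq0.le
      rw [← Real.exp_mul] at h6
      refine h6.trans_eq ?_
      congr 1; ring
    have h5 : 1 + C * η < Real.exp (C * η) := by
      have := Real.add_one_lt_exp (x := C * η) (by positivity)
      linarith
    have h6 : (1 + C * η) * (1 - η / 4) ^ q < 1 := by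
      calc (1 + C * η) * (1 - η / 4) ^ q ≤ (1 + C * η) * Real.exp (-(q * η / 4)) :=
            mul_le_mul_of_nonneg_left h4 (by positivity)
        _ < Real.exp (C * η) * Real.exp (-(q * η / 4)) := mul_lt_mul_of_pos_right h5 (Real.exp_pos _)
        _ = Real.exp (C * η - q * η / 4) := by rw [← Real.exp_add]; congr 1
        _ ≤ 1 := by
            rw [Real.exp_le_one_iff]
            nlinarith
    have h7 : 0 ≤ (1 / 15 : ℝ) ^ q * (1 - η / 4) ^ q :=
      mul_nonneg h15.le (Real.rpow_nonneg (by linarith) _)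
    calc lamP h Om * torP h Om ^ q ≤ Λ * (1 + C * η) * ((1 / 15 : ℝ) ^ q * (1 - η / 4) ^ q) :=
          mul_le_mul h1 h3 (Real.rpow_nonneg (torP_nonneg _ _) _) (by positivity)
      _ = (Λ * (1 / 15 : ℝ) ^ q) * ((1 + C * η) * (1 - η / 4) ^ q) := by ring
      _ < (Λ * (1 / 15 : ℝ) ^ q) * 1 := mul_lt_mul_of_pos_left h6 (by positivity)
      _ = _ := mul_one _

/-- the value at infinity is a lower bound for any upper bound -/
theorem limit_le (q : ℝ) (hq : 0 < q) (M : ℝ)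
    (hM : ∀ a p : ℝ, a ^ 2 + p ^ 2 = 1 → lamP (dirH a p) Om * torP (dirH a p) Om ^ q ≤ M) :
    (Real.pi ^ 2 / 4) * (1 / 15 : ℝ) ^ q ≤ M := by
  have hlim : Tendsto (fun ε : ℝ => (Real.pi ^ 2 / 4 - ε) * (1 / 15 - ε) ^ q) (𝓝[>] 0)
      (𝓝 ((Real.pi ^ 2 / 4) * (1 / 15 : ℝ) ^ q)) := by
    have h1 : ContinuousAt (fun ε : ℝ => (Real.pi ^ 2 / 4 - ε) * (1 / 15 - ε) ^ q) 0 := by
      refine ContinuousAt.mul (by fun_prop) (ContinuousAt.rpow_const (by fun_prop) (Or.inl (by norm_num)))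
    have h2 := h1.tendsto
    simp only [sub_zero] at h2
    exact h2.mono_left nhdsWithin_le_nhds
  refine le_of_tendsto hlim ?_
  have g1 : ∀ᶠ ε in 𝓝[>] (0:ℝ), ε < 1 / 15 :=
    (eventually_lt_nhds (by norm_num : (0:ℝ) < 1 / 15)).filter_mono nhdsWithin_le_nhds
  filter_upwards [g1, self_mem_nhdsWithin] with ε h1 h2
  rw [mem_Ioi] at h2
  obtain ⟨a, p, hn, h3, h4⟩ := approach ε h2
  refine le_trans ?_ (hM a p hn)
  have h5 : (1 / 15 - ε) ^ q ≤ torP (dirH a p) Om ^ q := Real.rpow_le_rpow (by linarith) h4 hq.le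
  exact mul_le_mul h3 h5 (Real.rpow_nonneg (by linarith) _) (lamP_nonneg _ _)

end Pool.Agent.R223.Sem
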