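import Mathlib

set_option autoImplicit false
open MeasureTheory Set

namespace Pool.Agent.R223.SemDefs

/-- `ℝ^d` with its Euclidean structure. -/
abbrev E (d : ℕ) : Type := EuclideanSpace ℝ (Fin d)

/-- `u` is a smooth function with compact support contained in `Ω`. -/
def IsTest {d : ℕ} (Ω : Set (E d)) (u : E d → ℝ) : Prop :=
  ContDiff ℝ (⊤ : ℕ∞) u ∧ HasCompactSupport u ∧ tsupport u ⊆ Ω

/-- The condition `‖H‖ = sup_{ξ ≠ 0} H(ξ)/|ξ| = 1` for a seminorm `H`, i.e. `H ∈ 𝕊`. -/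
def NormOne {d : ℕ} (H : Seminorm ℝ (E d)) : Prop :=
  IsLUB {r : ℝ | ∃ ξ : E d, ξ ≠ 0 ∧ r = H ξ / ‖ξ‖} 1

/-- The first eigenvalue `λ_H(Ω)`. -/
noncomputable def lam {d : ℕ} (H : Seminorm ℝ (E d)) (Ω : Set (E d)) : ℝ :=
  sInf {r : ℝ | ∃ u : E d → ℝ, IsTest Ω u ∧ u ≠ 0 ∧
    r = (∫ x, H (gradient u x) ^ 2) / ∫ x, u x ^ 2}

/-- The torsional rigidity `T_H(Ω)`. -/
noncomputable def tor {d : ℕ} (H : Seminorm ℝ (E d)) (Ω : Set (E d)) : ℝ :=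
  sSup {r : ℝ | ∃ u : E d → ℝ, IsTest Ω u ∧ u ≠ 0 ∧
    r = (∫ x, u x) ^ 2 / ∫ x, H (gradient u x) ^ 2}

/-- The functional `F_{q,Ω}(H) = λ_H(Ω) T_H(Ω)^q`. -/
noncomputable def F {d : ℕ} (q : ℝ) (Ω : Set (E d)) (H : Seminorm ℝ (E d)) : ℝ :=
  lam H Ω * tor H Ω ^ q

/-- The set of values of `F_{q,Ω}` on `𝕊`; `M_q(Ω)` is its supremum. -/
def Values {d : ℕ} (q : ℝ) (Ω : Set (E d)) : Set ℝ :=
  {r : ℝ | ∃ H : Seminorm ℝ (E d), NormOne H ∧ r = F q Ω H}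

end Pool.Agent.R223.SemDefs
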