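import Mathlib
import Pool.Agent.R223.Sem.Defs
import Pool.Agent.R223.Sem.Core

set_option autoImplicit false
open MeasureTheory Filter Topology Metric Set

namespace Pool.Agent.R223.Sem
open Pool.Agent.R223.SemDefs

/-- coordinates -/
noncomputable def J : P2 ≃L[ℝ] E 2 :=
  (ContinuousLinearEquiv.finTwoArrow ℝ ℝ).symm.trans (EuclideanSpace.equiv (Fin 2) ℝ).symm

theorem J_apply (z : P2) : J z = WithLp.toLp 2 ![z.1, z.2] := by
  ext i; fin_cases i <;> rfl

theorem J_zero (z : P2) : (J z) 0 = z.1 := by rw [J_apply]; rfl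
theorem J_one (z : P2) : (J z) 1 = z.2 := by rw [J_apply]; rfl

theorem J_norm (z : P2) : ‖J z‖ = Real.sqrt (z.1 ^ 2 + z.2 ^ 2) := by
  rw [EuclideanSpace.norm_eq, Fin.sum_univ_two, J_zero, J_one]
  simp

theorem J_mp : MeasurePreserving (J : P2 → E 2) volume volume := by
  have h1 := (volume_preserving_finTwoArrow ℝ).symm
  have h2 := PiLp.volume_preserving_toLp (Fin 2)
  have h3 := h2.comp h1
  have e : (J : P2 → E 2) = (WithLp.toLp 2) ∘ (MeasurableEquiv.finTwoArrow (α := ℝ)).symm := by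
    funext z
    rw [J_apply]
    rfl
  rw [e]
  exact h3

theorem J_int (f : E 2 → ℝ) : ∫ z, f (J z) = ∫ x, f x :=
  J_mp.integral_comp J.toHomeomorph.measurableEmbedding f

/-- the domain in the Euclidean plane -/
noncomputable def Dom : Set (E 2) := J.symm ⁻¹' Om

theorem test_of (u : E 2 → ℝ) (hu : IsTest Dom u) : Test Om (u ∘ J) := by
  refine ⟨hu.1.comp J.contDiff, hu.2.1.comp_homeomorph J.toHomeomorph, ?_⟩
  intro z hz
  have h1 : z ∈ J ⁻¹' tsupport u := tsupport_comp_subset_preimage u J.continuous hz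
  have h2 := hu.2.2 h1
  simpa [Dom] using h2

theorem test_to (v : P2 → ℝ) (hv : Test Om v) : IsTest Dom (v ∘ J.symm) := by
  refine ⟨hv.1.comp J.symm.contDiff, hv.2.1.comp_homeomorph J.symm.toHomeomorph, ?_⟩
  intro z hz
  have h1 : z ∈ J.symm ⁻¹' tsupport v := tsupport_comp_subset_preimage v J.symm.continuous hz
  exact hv.2.2 h1

theorem grad_eq (u : E 2 → ℝ) (hu : Differentiable ℝ u) (z : P2) :
    gradient u (J z) = J (dX (u ∘ J) z, dY (u ∘ J) z) := by
  have h1 : fderiv ℝ (u ∘ J) z = (fderiv ℝ u (J z)).comp (J : P2 →L[ℝ] E 2) := by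
    rw [fderiv_comp z (hu (J z)) J.differentiableAt]
    congr 1
    exact J.fderiv
  have hkey : ∀ w : P2, inner ℝ (gradient u (J z)) (J w) = fderiv ℝ (u ∘ J) z w := by
    intro w
    rw [h1]
    unfold gradient
    rw [InnerProductSpace.toDual_symm_apply]
    rfl
  have hJin : ∀ a w : P2, inner ℝ (J a) (J w) = a.1 * w.1 + a.2 * w.2 := by
    intro a w
    rw [PiLp.inner_apply, Fin.sum_univ_two, J_zero, J_one, J_zero, J_one]
    simp; ring
  refine ext_inner_right ℝ fun w => ?_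
  obtain ⟨w, rfl⟩ := J.surjective w
  rw [hkey, hJin]
  simp only
  unfold dX dY
  have e : w = w.1 • ((1, 0) : P2) + w.2 • ((0, 1) : P2) := by ext <;> simp
  conv_lhs => rw [e]
  rw [map_add, map_smul, map_smul, smul_eq_mul, smul_eq_mul]
  ring

theorem en_eq (H : Seminorm ℝ (E 2)) (u : E 2 → ℝ) (hu : Differentiable ℝ u) :
    ∫ x, H (gradient u x) ^ 2 = En (fun ξ => H (J ξ)) (u ∘ J) := by
  rw [← J_int (fun x => H (gradient u x) ^ 2)]
  unfold En
  congr 1; funext z
  rw [grad_eq u hu z]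

theorem lam_eq (H : Seminorm ℝ (E 2)) : lam H Dom = lamP (fun ξ => H (J ξ)) Om := by
  unfold lam lamP
  congr 1
  ext r
  constructor
  · rintro ⟨u, hu, h0, rfl⟩
    refine ⟨u ∘ J, test_of u hu, ?_, ?_⟩
    · intro h
      apply h0
      funext x
      have := congrFun h (J.symm x)
      simpa using this
    · rw [en_eq H u (hu.1.differentiable (by simp)), ← J_int (fun x => u x ^ 2)]
      rfl
  · rintro ⟨v, hv, h0, rfl⟩
    refine ⟨v ∘ J.symm, test_to v hv, ?_, ?_⟩
    · intro h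
      apply h0
      funext x
      have := congrFun h (J x)
      simpa using this
    · have hT := test_to v hv
      rw [en_eq H _ (hT.1.differentiable (by simp)), ← J_int (fun x => (v ∘ J.symm) x ^ 2)]
      have e : (v ∘ J.symm) ∘ J = v := by funext z; simp
      rw [e]
      simp

theorem tor_eq (H : Seminorm ℝ (E 2)) : tor H Dom = torP (fun ξ => H (J ξ)) Om := by
  unfold tor torP
  congr 1
  ext r
  constructor
  · rintro ⟨u, hu, h0, rfl⟩
    refine ⟨u ∘ J, test_of u hu, ?_, ?_⟩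
    · intro h
      apply h0
      funext x
      have := congrFun h (J.symm x)
      simpa using this
    · rw [en_eq H u (hu.1.differentiable (by simp)), ← J_int u]
      rfl
  · rintro ⟨v, hv, h0, rfl⟩
    refine ⟨v ∘ J.symm, test_to v hv, ?_, ?_⟩
    · intro h
      apply h0
      funext x
      have := congrFun h (J x)
      simpa using this
    · have hT := test_to v hv
      rw [en_eq H _ (hT.1.differentiable (by simp)), ← J_int (v ∘ J.symm)]
      have e : (v ∘ J.symm) ∘ J = v := by funext z; simp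
      rw [e]
      simp

theorem seminorm_cont {d : ℕ} (H : Seminorm ℝ (E d)) (hb : ∀ ξ, H ξ ≤ ‖ξ‖) : Continuous H := by
  rw [continuous_iff_continuousAt]
  intro η
  rw [ContinuousAt, tendsto_iff_norm_sub_tendsto_zero]
  refine squeeze_zero (fun _ => norm_nonneg _) (g := fun ξ => ‖ξ - η‖) (fun ξ => ?_) ?_
  · rw [Real.norm_eq_abs]
    have h1 := abs_sub_map_le_sub H ξ η
    exact h1.trans (hb _)
  · have : Continuous fun ξ : E d => ‖ξ - η‖ := by fun_prop
    have h2 := this.tendsto η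
    simpa using h2

theorem isH_of (H : Seminorm ℝ (E 2)) (hH : NormOne H) : IsH (fun ξ => H (J ξ)) := by
  have hb : ∀ ξ, H ξ ≤ ‖ξ‖ := by
    intro ξ
    by_cases h0 : ξ = 0
    · rw [h0]; simp
    · have := hH.1 ⟨ξ, h0, rfl⟩
      rwa [div_le_one (norm_pos_iff.2 h0)] at this
  refine ⟨fun t ξ => ?_, fun ξ η => ?_, fun ξ => ?_, ?_⟩
  · rw [map_smul, map_smul_eq_mul]; rfl
  · rw [map_add]; exact map_add_le_add H _ _
  · rw [← J_norm]; exact hb _
  · have hc := seminorm_cont H hb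
    obtain ⟨e, he, hmax⟩ := (isCompact_sphere (0 : E 2) 1).exists_isMaxOn
      ⟨J (1, 0), by rw [mem_sphere_zero_iff_norm, J_norm]; simp⟩ hc.continuousOn
    have he1 : ‖e‖ = 1 := mem_sphere_zero_iff_norm.1 he
    have h1 : 1 ≤ H e := by
      refine hH.2 ?_
      rintro r ⟨ξ, h0, rfl⟩
      have hn : 0 < ‖ξ‖ := norm_pos_iff.2 h0
      have h2 := hmax (show (‖ξ‖⁻¹ • ξ) ∈ sphere (0 : E 2) 1 by
        rw [mem_sphere_zero_iff_norm, norm_smul, norm_inv, norm_norm, inv_mul_cancel₀ hn.ne'])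
      have h3 : H (‖ξ‖⁻¹ • ξ) = H ξ / ‖ξ‖ := by
        rw [map_smul_eq_mul, norm_inv, norm_norm]; field_simp
      rw [← h3]; exact h2
    have h2 : H e ≤ 1 := by rw [← he1]; exact hb e
    refine ⟨J.symm e, ?_, ?_⟩
    · have := J_norm (J.symm e)
      rw [ContinuousLinearEquiv.apply_symm_apply, he1] at this
      have h3 : Real.sqrt ((J.symm e).1 ^ 2 + (J.symm e).2 ^ 2) = 1 := this.symm
      rwa [Real.sqrt_eq_one] at h3
    · simp only [ContinuousLinearEquiv.apply_symm_apply]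
      exact le_antisymm h2 h1

/-- the degenerate seminorm `ξ ↦ |⟨e, ξ⟩|` -/
noncomputable def dirS (e : E 2) : Seminorm ℝ (E 2) :=
  (normSeminorm ℝ ℝ).comp ((innerSL ℝ e : E 2 →L[ℝ] ℝ) : E 2 →ₗ[ℝ] ℝ)

theorem dirS_apply (e ξ : E 2) : dirS e ξ = |inner ℝ e ξ| := rfl

theorem dirS_norm (e : E 2) (he : ‖e‖ = 1) : NormOne (dirS e) := by
  constructor
  · rintro r ⟨ξ, h0, rfl⟩
    rw [div_le_one (norm_pos_iff.2 h0), dirS_apply]
    have := abs_real_inner_le_norm e ξ
    rwa [he, one_mul] at this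
  · intro b hb
    have h0 : e ≠ 0 := by rintro rfl; simp at he
    have := hb ⟨e, h0, rfl⟩
    rw [dirS_apply, real_inner_self_eq_norm_sq, he] at this
    simpa using this

theorem dirS_J (a p : ℝ) : (fun ξ => dirS (J (a, p)) (J ξ)) = dirH a p := by
  funext ξ
  rw [dirS_apply, PiLp.inner_apply, Fin.sum_univ_two, J_zero, J_one, J_zero, J_one]
  unfold dirH
  congr 1
  simp; ring

theorem Dom_open : IsOpen Dom := Om_open.preimage J.symm.continuous

theorem Dom_conn : IsConnected Dom := by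
  have e : Dom = J '' Om := by
    unfold Dom
    exact (J.toEquiv.image_eq_preimage_symm Om).symm
  rw [e]
  exact ⟨Om_nonempty.image _, Om_preconnected.image _ J.continuous.continuousOn⟩

theorem Dom_bdd : Bornology.IsBounded Dom := by
  rw [isBounded_iff_forall_norm_le]
  refine ⟨2, fun x hx => ?_⟩
  have h1 : J.symm x ∈ Rect := Om_sub hx
  have h2 := J_norm (J.symm x)
  rw [ContinuousLinearEquiv.apply_symm_apply] at h2
  rw [h2]
  refine Real.sqrt_le_iff.2 ⟨by norm_num, ?_⟩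
  have h3 := h1.1
  have h4 := h1.2
  simp only [mem_Ioo] at h3 h4
  nlinarith

theorem main : ∃ Ω : Set (E 2), IsOpen Ω ∧ IsConnected Ω ∧ Bornology.IsBounded Ω ∧
    ∃ q₀ : ℝ, ∀ q : ℝ, q₀ ≤ q → BddAbove (Values q Ω) ∧ sSup (Values q Ω) ∉ Values q Ω := by
  refine ⟨Dom, Dom_open, Dom_conn, Dom_bdd, ?_⟩
  obtain ⟨q0, hq0, hub⟩ := strict_upper
  refine ⟨q0, fun q hq => ?_⟩
  have hub' : ∀ H : Seminorm ℝ (E 2), NormOne H → F q Dom H < (Real.pi ^ 2 / 4) * (1 / 15 : ℝ) ^ q := by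
    intro H hH
    unfold F
    rw [lam_eq, tor_eq]
    exact hub q hq _ (isH_of H hH)
  have hbdd : BddAbove (Values q Dom) := by
    refine ⟨(Real.pi ^ 2 / 4) * (1 / 15 : ℝ) ^ q, ?_⟩
    rintro r ⟨H, hH, rfl⟩
    exact (hub' H hH).le
  refine ⟨hbdd, ?_⟩
  rintro ⟨H, hH, hEq⟩
  have h1 := hub' H hH
  rw [← hEq] at h1
  refine absurd h1 (not_lt.2 ?_)
  refine limit_le q (by linarith) _ fun a p hn => ?_
  refine le_csSup hbdd ⟨dirS (J (a, p)), dirS_norm _ ?_, ?_⟩
  · rw [J_norm]; simp only; rw [hn]; simp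
  · unfold F
    rw [lam_eq, tor_eq, dirS_J]

end Pool.Agent.R223.Sem
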